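import Pool.Agent.H99.SL.Stm

set_option autoImplicit false

/-!
Project SL: almost sure statement in the whole quadrant.
-/

namespace Pool.Agent.H99.SL

open H99L Pool.Agent.H99.DR Pool.Agent.H99.MS Filter Topology MeasureTheory
open TopologicalSpace (NonemptyCompacts)

/-- A fair coin. -/
noncomputable def coin : Measure Bool :=
  (1 / 2 : ENNReal) • (Measure.dirac true + Measure.dirac false)

instance : IsProbabilityMeasure coin := ⟨by
  simp only [coin, Measure.smul_apply, Measure.add_apply, measure_univ, smul_eq_mul, one_div]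
  rw [show (1 : ENNReal) + 1 = 2 by norm_num]
  exact ENNReal.inv_mul_cancel (by norm_num) (by norm_num)⟩

theorem coin_singleton (b : Bool) : coin {b} = 1 / 2 := by
  cases b <;> simp [coin]

/-- Independent fair coins on all edges of the square lattice. -/
noncomputable def coins : Measure (Edge → Bool) := Measure.infinitePi (fun _ : Edge => coin)

instance : IsProbabilityMeasure coins := by unfold coins; infer_instance

/-- The open edges inside `Λ_n`: those whose coin shows `true`. -/
noncomputable def openIn (n : ℕ) (ω : Edge → Bool) : Finset Edge :=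
  (edges n).filter (fun e => ω e = true)

theorem openIn_eq_iff {m : ℕ} {F : Finset Edge} (hF : F ⊆ edges m) (ω : Edge → Bool) :
    openIn m ω = F ↔
      ω ∈ Set.pi (edges m : Set Edge) (fun e => ({decide (e ∈ F)} : Set Bool)) := by
  simp only [Set.mem_pi, Finset.mem_coe, Set.mem_singleton_iff]
  constructor
  · rintro rfl e he
    by_cases h : ω e = true
    · rw [h]
      symm
      rw [decide_eq_true_iff]
      exact Finset.mem_filter.mpr ⟨he, h⟩
    · have h' : ω e = false := by simpa using h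
      rw [h']
      symm
      rw [decide_eq_false_iff_not]
      intro h2
      exact h (Finset.mem_filter.mp h2).2
  · intro h
    ext e
    constructor
    · intro he
      obtain ⟨h1, h2⟩ := Finset.mem_filter.mp he
      have := h e h1
      rw [h2] at this
      exact of_decide_eq_true this.symm
    · intro he
      refine Finset.mem_filter.mpr ⟨hF he, ?_⟩
      rw [h e (hF he)]
      exact decide_eq_true he

theorem coins_openIn {m : ℕ} {F : Finset Edge} (hF : F ⊆ edges m) :
    MeasurableSet {ω : Edge → Bool | openIn m ω = F} ∧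
      coins {ω : Edge → Bool | openIn m ω = F} = (1 / 2 : ENNReal) ^ (edges m).card := by
  have h1 : {ω : Edge → Bool | openIn m ω = F} =
      Set.pi (edges m : Set Edge) (fun e => ({decide (e ∈ F)} : Set Bool)) := by
    ext ω
    exact openIn_eq_iff hF ω
  rw [h1]
  refine ⟨MeasurableSet.pi (Finset.countable_toSet _) (fun _ _ => MeasurableSet.singleton _), ?_⟩
  rw [coins, Measure.infinitePi_pi _ (fun _ _ => MeasurableSet.singleton _)]
  rw [Finset.prod_congr rfl (fun e _ => coin_singleton _), Finset.prod_const]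

theorem coins_event (m : ℕ) (A : Finset Edge → Prop) :
    coins {ω | A (openIn m ω)} = ENNReal.ofReal (prob m A) := by
  classical
  have h1 : {ω : Edge → Bool | A (openIn m ω)} =
      ⋃ F ∈ (edges m).powerset.filter A, {ω : Edge → Bool | openIn m ω = F} := by
    ext ω
    simp only [Set.mem_ofPred_eq, Set.mem_iUnion, Finset.mem_filter, Finset.mem_powerset,
      exists_prop]
    constructor
    · intro h
      exact ⟨_, ⟨Finset.filter_subset _ _, h⟩, rfl⟩
    · rintro ⟨F, ⟨_, h⟩, h2⟩
      rw [h2]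
      exact h
  rw [h1, measure_biUnion_finset]
  · rw [Finset.sum_congr rfl (fun F hF => (coins_openIn
      (Finset.mem_powerset.mp (Finset.mem_filter.mp hF).1)).2), Finset.sum_const]
    unfold prob
    rw [ENNReal.ofReal_div_of_pos (by positivity), nsmul_eq_mul, one_div,
      ENNReal.ofReal_natCast, ENNReal.ofReal_pow (by norm_num), ENNReal.ofReal_ofNat,
      ENNReal.div_eq_inv_mul, mul_comm, ENNReal.inv_pow]
  · intro F _ F' _ hne
    refine Set.disjoint_left.mpr ?_
    intro ω h1 h2
    exact hne (h1.symm.trans h2)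
  · intro F hF
    exact (coins_openIn (Finset.mem_powerset.mp (Finset.mem_filter.mp hF).1)).1

theorem edges_mono' {n m : ℕ} (h : n ≤ m) : edges n ⊆ edges m := by
  rw [edges_eq, edges_eq]
  exact RE_subset le_rfl (by exact_mod_cast h) le_rfl (by exact_mod_cast h)

theorem openIn_inter {n m : ℕ} (h : n ≤ m) (ω : Edge → Bool) :
    openIn m ω ∩ edges n = openIn n ω := by
  ext e
  simp only [openIn, Finset.mem_inter, Finset.mem_filter]
  constructor
  · rintro ⟨⟨_, h1⟩, h2⟩
    exact ⟨h2, h1⟩
  · rintro ⟨h1, h2⟩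
    exact ⟨⟨edges_mono' h h1, h2⟩, h1⟩

/-- The conclusion of `S_MUL`. -/
def S_MUL' : Prop := ∃ C : ℝ, 1 ≤ C ∧ ∀ K : NonemptyCompacts ℂ, Cont K → ∀ ε : ℝ, 0 < ε →
  ε ≤ 1 → ∀ (k : ℕ → ℕ) (M m : ℕ), C ≤ ε * k 0 → (∀ i, C * k i ≤ ε * k (i + 1)) → k M ≤ m →
    prob m (fun F => ∀ i ≤ M, ∃ v, Largest (k i) (F ∩ edges (k i)) v ∧
      ε < dist (shape (k i) (F ∩ edges (k i)) v) K) ≤ (1 - Real.exp (-(C / ε ^ 2))) ^ (M + 1)

theorem null_event (hM : S_MUL') {sel : ℕ → Finset Edge → ℤ × ℤ}
    (hsel : ∀ n, 1 ≤ n → ∀ F, F ⊆ edges n → Largest n F (sel n F)) {K : NonemptyCompacts ℂ}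
    (hK : Cont K) {ε : ℝ} (hε : 0 < ε) (hε1 : ε ≤ 1) (N : ℕ) :
    coins {ω | ∀ n, N ≤ n → ε < dist (shape n (openIn n ω) (sel n (openIn n ω))) K} = 0 := by
  obtain ⟨C, hC1, hC⟩ := hM
  set B : ℕ := ⌈C / ε⌉₊ with hB
  have hBe : C ≤ ε * B := by
    have := Nat.le_ceil (C / ε)
    rw [div_le_iff₀ hε] at this
    rw [hB]; linarith
  have hB1 : 1 ≤ B := by
    rw [hB, Nat.one_le_ceil_iff]
    positivity
  set N0 : ℕ := max N B with hN0
  set k : ℕ → ℕ := fun i => N0 * B ^ i with hk
  have hkpos : ∀ i, N0 ≤ k i := fun i => Nat.le_mul_of_pos_right _ (Nat.pow_pos hB1)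
  have hN01 : 1 ≤ N0 := hB1.trans (le_max_right _ _)
  have hkmono : Monotone k := by
    intro i j hij
    exact Nat.mul_le_mul_left _ (Nat.pow_le_pow_right hB1 hij)
  have h0 : C ≤ ε * k 0 := by
    have h1 : (B : ℝ) ≤ k 0 := by
      have : B ≤ k 0 := (le_max_right _ _).trans (hkpos 0)
      exact_mod_cast this
    nlinarith
  have hstep : ∀ i, C * k i ≤ ε * k (i + 1) := by
    intro i
    have h1 : (k (i + 1) : ℝ) = B * k i := by
      simp only [hk]
      push_cast
      ring
    rw [h1]
    have h2 : (0 : ℝ) ≤ k i := Nat.cast_nonneg _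
    nlinarith
  set q : ℝ := 1 - Real.exp (-(C / ε ^ 2)) with hq
  have hq0 : 0 ≤ q := by
    rw [hq]
    have : Real.exp (-(C / ε ^ 2)) ≤ 1 := Real.exp_le_one_iff.mpr (by
      have : 0 ≤ C / ε ^ 2 := by positivity
      linarith)
    linarith
  have hq1 : q < 1 := by
    rw [hq]
    linarith [Real.exp_pos (-(C / ε ^ 2))]
  have hle : ∀ M : ℕ, coins {ω | ∀ n, N ≤ n →
      ε < dist (shape n (openIn n ω) (sel n (openIn n ω))) K} ≤ ENNReal.ofReal (q ^ (M + 1)) := by
    intro M
    have h1 := hC K hK ε hε hε1 k M (k M) h0 hstep le_rfl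
    refine le_trans ?_ (ENNReal.ofReal_le_ofReal h1)
    rw [← coins_event]
    apply measure_mono
    intro ω hω i hi
    rw [openIn_inter (hkmono hi)]
    refine ⟨sel (k i) (openIn (k i) ω), hsel (k i) (hN01.trans (hkpos i)) _
      (Finset.filter_subset _ _), hω (k i) ((le_max_left _ _).trans (hkpos i))⟩
  have hlim : Tendsto (fun M : ℕ => ENNReal.ofReal (q ^ (M + 1))) atTop (𝓝 0) := by
    have h1 : Tendsto (fun M : ℕ => q ^ (M + 1)) atTop (𝓝 0) :=
      (tendsto_pow_atTop_nhds_zero_of_lt_one hq0 hq1).comp (tendsto_add_atTop_nat 1)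
    have h2 := ENNReal.tendsto_ofReal h1
    rwa [ENNReal.ofReal_zero] at h2
  exact le_antisymm (ge_of_tendsto' hlim hle) (by positivity)

theorem as_limit_points (hM : S_MUL') (hcl : IsClosed {K : NonemptyCompacts ℂ | Cont K})
    (hsh : ∀ n : ℕ, 1 ≤ n → ∀ F, F ⊆ edges n → ∀ v ∈ box n, Cont (shape n F v))
    {sel : ℕ → Finset Edge → ℤ × ℤ}
    (hsel : ∀ n, 1 ≤ n → ∀ F, F ⊆ edges n → Largest n F (sel n F)) :
    ∀ᵐ ω ∂coins, ∀ K : NonemptyCompacts ℂ,
      MapClusterPt K atTop (fun n => shape n (openIn n ω) (sel n (openIn n ω))) ↔ Cont K := by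
  obtain ⟨D, hD, hDd⟩ := TopologicalSpace.exists_countable_dense
    {K : NonemptyCompacts ℂ // Cont K}
  have hDc : D.Countable := hD
  have h1 : ∀ᵐ ω ∂coins, ∀ K ∈ D, ∀ l : ℕ, ∀ N : ℕ,
      ¬ ∀ n, N ≤ n → 1 / ((l : ℝ) + 1) <
        dist (shape n (openIn n ω) (sel n (openIn n ω))) (K : NonemptyCompacts ℂ) := by
    rw [ae_ball_iff hDc]
    intro K hK
    rw [ae_all_iff]
    intro l
    rw [ae_all_iff]
    intro N
    rw [ae_iff]
    simp only [not_not]
    apply null_event hM hsel K.2 (by positivity)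
    rw [div_le_one (by positivity)]
    have : (0 : ℝ) ≤ l := Nat.cast_nonneg l
    linarith
  filter_upwards [h1] with ω hω K
  constructor
  · intro hK
    have h2 : ∀ᶠ n in atTop, shape n (openIn n ω) (sel n (openIn n ω)) ∈
        {K : NonemptyCompacts ℂ | Cont K} := by
      filter_upwards [eventually_ge_atTop 1] with n hn
      exact hsh n hn _ (Finset.filter_subset _ _) _ (hsel n hn _ (Finset.filter_subset _ _)).1
    have h3 : K ∈ closure {K : NonemptyCompacts ℂ | Cont K} := by
      rw [mem_closure_iff_clusterPt]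
      apply ClusterPt.mono hK
      rw [le_principal_iff, mem_map]
      exact h2
    rwa [hcl.closure_eq] at h3
  · intro hK
    rw [mapClusterPt_iff_frequently]
    intro s hs
    obtain ⟨r, hr, hrs⟩ := Metric.mem_nhds_iff.mp hs
    obtain ⟨K', hK', hK'D⟩ := Metric.dense_iff.mp hDd ⟨K, hK⟩ (r / 2) (by positivity)
    obtain ⟨l, hl⟩ := exists_nat_one_div_lt (show (0 : ℝ) < r / 2 by positivity)
    rw [frequently_atTop]
    intro N
    have h2 := hω K' hK'D l N
    push Not at h2
    obtain ⟨n, hn, h3⟩ := h2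
    refine ⟨n, hn, hrs ?_⟩
    rw [Metric.mem_ball]
    have h4 : dist K' ⟨K, hK⟩ < r / 2 := by
      have := hK'
      rw [Metric.mem_ball] at this
      exact this
    have h5 : dist (K' : NonemptyCompacts ℂ) K < r / 2 := h4
    calc dist (shape n (openIn n ω) (sel n (openIn n ω))) K ≤
        dist (shape n (openIn n ω) (sel n (openIn n ω))) (K' : NonemptyCompacts ℂ) +
          dist (K' : NonemptyCompacts ℂ) K := dist_triangle _ _ _
      _ < r / 2 + r / 2 := by linarith
      _ = r := by ring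

end Pool.Agent.H99.SL
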