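import Pool.Agent.H99.SL.Stm2

set_option autoImplicit false

/-! Project SL, BLP: FKG for the blocked annuli. -/

namespace Pool.Agent.H99.SL

open H99L Pool.Agent.H99.DR Pool.Agent.H99.MS

theorem blp : S_BLP := by
  classical
  intro S T
  induction T using Finset.induction_on with
  | empty =>
    intro _
    rw [Finset.card_empty, mul_zero, pow_zero]
    refine le_of_eq (Pr_true S fun F _ => ?_).symm
    intro t ht
    simp at ht
  | insert t T ht ih =>
    intro hT
    have ih' := ih fun b hb => hT b (Finset.mem_insert_of_mem hb)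
    have h5 := hT t (Finset.mem_insert_self t T)
    -- the crossing event
    have c1 : IncrE S (fun F => ¬ Bl t.1 t.2 F) := by
      intro F G hFG _ hF
      unfold Bl at hF ⊢
      rw [not_not] at hF ⊢
      obtain ⟨u, v, k1, k2, k3⟩ := hF
      exact ⟨u, v, k1, k2, k3.mono (Set.inter_subset_inter_left _ (by exact_mod_cast hFG))⟩
    have c2 : IncrE S (fun F => ¬ ∀ b ∈ T, Bl b.1 b.2 F) := by
      intro F G hFG _ hF hG
      apply hF
      intro b hb hex
      apply hG b hb
      obtain ⟨u, v, k1, k2, k3⟩ := hex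
      exact ⟨u, v, k1, k2, k3.mono (Set.inter_subset_inter_left _ (by exact_mod_cast hFG))⟩
    have p1 : Pr hf S (fun F => ¬ Bl t.1 t.2 F) ≤ lam := by
      refine le_trans (Pr_mono okh ?_) (ann1 S t.1 h5)
      intro F _ hF
      unfold Bl at hF
      rw [not_not] at hF
      obtain ⟨u, v, k1, k2, k3⟩ := hF
      refine ⟨u, v, k1, ?_, k3.mono Set.inter_subset_left⟩
      push_cast
      exact k2
    have i1 := Pr_harris_dd okh c1 c2
    have hp : (1 / 2 : ℝ) ^ 188 ≤ 1 - Pr hf S (fun F => ¬ Bl t.1 t.2 F) := by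
      unfold lam at p1
      linarith
    have hq : (1 / 2 : ℝ) ^ (188 * T.card) ≤
        1 - Pr hf S (fun F => ¬ ∀ b ∈ T, Bl b.1 b.2 F) := by
      rw [Pr_not]
      linarith
    calc (1 / 2 : ℝ) ^ (188 * (insert t T).card)
        = (1 / 2) ^ 188 * (1 / 2) ^ (188 * T.card) := by
          rw [Finset.card_insert_of_notMem ht, ← pow_add]
          congr 1; ring
      _ ≤ (1 - Pr hf S (fun F => ¬ Bl t.1 t.2 F)) *
            (1 - Pr hf S (fun F => ¬ ∀ b ∈ T, Bl b.1 b.2 F)) :=
          mul_le_mul hp hq (by positivity) (le_trans (by positivity) hp)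
      _ ≤ _ := i1
      _ ≤ Pr hf S (fun F => ∀ b ∈ insert t T, Bl b.1 b.2 F) := by
          refine Pr_mono okh fun F _ hF b hb => ?_
          rcases Finset.mem_insert.1 hb with rfl | hb
          · exact not_not.1 hF.1
          · exact not_not.1 hF.2 b hb

end Pool.Agent.H99.SL
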