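import Pool.Agent.H99.SL.Stm2

set_option autoImplicit false

namespace Pool.Agent.H99.SL

open H99L Pool.Agent.H99.DR Pool.Agent.H99.MS Filter Topology

/-- the large box around `c` -/
noncomputable def BOTH.bx (c : Vtx) (m : ℤ) : Finset Edg :=
  RE (c.1 - 3 * m) (c.1 + 3 * m) (c.2 - 3 * m) (c.2 + 3 * m)

theorem BOTH.Bl_local {c : Vtx} {m : ℤ} {F W : Finset Edg} (h : F ∩ BOTH.bx c m ⊆ W) :
    Bl c m F ↔ Bl c m (F ∩ W) := by
  have h1 : (↑(F ∩ W) : Set Edg) ∩ ↑(BOTH.bx c m) = (↑F : Set Edg) ∩ ↑(BOTH.bx c m) := by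
    ext e
    simp only [Finset.coe_inter, Set.mem_inter_iff, Finset.mem_coe]
    constructor
    · rintro ⟨⟨h1, _⟩, h3⟩; exact ⟨h1, h3⟩
    · rintro ⟨h1, h3⟩; exact ⟨⟨h1, h (Finset.mem_inter.2 ⟨h1, h3⟩)⟩, h3⟩
  unfold Bl
  unfold BOTH.bx at h1
  rw [h1]

theorem both : S_BOTH := by
  intro hNEP hBLP S s A T hs hAS hT hfar
  classical
  set W1 : Finset Edg := A.biUnion fun a => RE (a.1 * s) (a.1 * s + 2 * s) (a.2 * s) (a.2 * s + s) ∪
    RE (a.1 * s) (a.1 * s + s) (a.2 * s) (a.2 * s + 2 * s) with hW1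
  set W2 : Finset Edg := (T.biUnion fun t => BOTH.bx t.1 t.2) ∩ S with hW2
  have hW1S : W1 ⊆ S := by
    intro e he
    rw [hW1, Finset.mem_biUnion] at he
    obtain ⟨a, ha, he⟩ := he
    rcases Finset.mem_union.1 he with h | h
    · exact (hAS a ha).1 h
    · exact (hAS a ha).2 h
  have hW2S : W2 ⊆ S := Finset.inter_subset_right
  have hdis : Disjoint W1 W2 := by
    rw [Finset.disjoint_left]
    intro e he1 he2
    rw [hW1, Finset.mem_biUnion] at he1
    obtain ⟨a, ha, he1⟩ := he1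
    rw [hW2, Finset.mem_inter, Finset.mem_biUnion] at he2
    obtain ⟨⟨t, ht, he2⟩, -⟩ := he2
    have hf := hfar a ha t ht
    unfold BOTH.bx at he2
    obtain ⟨x, y, bo⟩ := e
    have h1 : (a.1 * s ≤ x ∧ x ≤ a.1 * s + 2 * s) ∧ (a.2 * s ≤ y ∧ y ≤ a.2 * s + 2 * s) := by
      rcases Finset.mem_union.1 he1 with h | h <;> cases bo
      · rw [mem_RE_false] at h; omega
      · rw [mem_RE_true] at h; omega
      · rw [mem_RE_false] at h; omega
      · rw [mem_RE_true] at h; omega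
    have h2 : (t.1.1 - 3 * t.2 ≤ x ∧ x ≤ t.1.1 + 3 * t.2) ∧
        (t.1.2 - 3 * t.2 ≤ y ∧ y ≤ t.1.2 + 3 * t.2) := by
      cases bo
      · rw [mem_RE_false] at he2; omega
      · rw [mem_RE_true] at he2; omega
    rcases hf with h | h
    · rcases le_abs.1 h with h | h <;> omega
    · rcases le_abs.1 h with h | h <;> omega
  have hind : Pr hf S (fun F => Net s A F ∧ ∀ t ∈ T, Bl t.1 t.2 F) =
      Pr hf S (Net s A) * Pr hf S (fun F => ∀ t ∈ T, Bl t.1 t.2 F) := by
    apply Pr_indep hW1S hW2S hdis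
    · intro F hF
      unfold Net
      refine forall_congr' fun a => forall_congr' fun ha => ?_
      have h1 : RE (a.1 * s) (a.1 * s + 2 * s) (a.2 * s) (a.2 * s + s) ⊆ W1 := fun e he =>
        Finset.mem_biUnion.2 ⟨a, ha, Finset.mem_union_left _ he⟩
      have h2 : RE (a.1 * s) (a.1 * s + s) (a.2 * s) (a.2 * s + 2 * s) ⊆ W1 := fun e he =>
        Finset.mem_biUnion.2 ⟨a, ha, Finset.mem_union_right _ he⟩
      exact and_congr (LRc_local (LRE_subset_RE.trans h1)) (TBc_local (TBE_subset_RE.trans h2))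
    · intro F hF
      refine forall_congr' fun t => forall_congr' fun ht => ?_
      refine BOTH.Bl_local fun e he => ?_
      rw [Finset.mem_inter] at he
      exact Finset.mem_inter.2 ⟨Finset.mem_biUnion.2 ⟨t, ht, he.2⟩, hF he.1⟩
  rw [hind, pow_add]
  exact mul_le_mul (hNEP S s A hs hAS) (hBLP S T hT) (by positivity) (Pr_nonneg okh _ _)

end Pool.Agent.H99.SL
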