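import Pool.Agent.H99.SL.Stm2

set_option autoImplicit false

/-!
The family of blocks, and the geometry around the network.
-/

namespace Pool.Agent.H99.SL

open H99L Pool.Agent.H99.DR Pool.Agent.H99.MS Filter Topology
open TopologicalSpace (NonemptyCompacts)

/-- The blocks: radius `s` around the points of `s ℤ²` in the box, except near the corner, and
radius `5 s` around the corner. -/
noncomputable def TB (s q : ℕ) : Finset (Vtx × ℕ) :=
  insert (((0 : ℤ), (0 : ℤ)), 5 * s)
    (((Finset.range (q + 1) ×ˢ Finset.range (q + 1)).filter (fun ij => 5 ≤ ij.1 ∨ 5 ≤ ij.2)).image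
      (fun ij => ((((ij.1 : ℤ) * s), ((ij.2 : ℤ) * s)), s)))

theorem mem_TB {s q : ℕ} {t : Vtx × ℕ} : t ∈ TB s q ↔ t = (((0 : ℤ), (0 : ℤ)), 5 * s) ∨
    ∃ i j : ℕ, i ≤ q ∧ j ≤ q ∧ (5 ≤ i ∨ 5 ≤ j) ∧ t = (((i : ℤ) * s, (j : ℤ) * s), s) := by
  unfold TB
  rw [Finset.mem_insert, Finset.mem_image]
  apply or_congr Iff.rfl
  constructor
  · rintro ⟨⟨i, j⟩, h, rfl⟩
    rw [Finset.mem_filter, Finset.mem_product, Finset.mem_range, Finset.mem_range] at h
    exact ⟨i, j, by have := h.1.1; omega, by have := h.1.2; omega, h.2, rfl⟩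
  · rintro ⟨i, j, h1, h2, h3, rfl⟩
    refine ⟨(i, j), ?_, rfl⟩
    rw [Finset.mem_filter, Finset.mem_product, Finset.mem_range, Finset.mem_range]
    exact ⟨⟨by simpa using Nat.lt_succ_of_le h1, by simpa using Nat.lt_succ_of_le h2⟩, h3⟩

theorem card_TB (s q : ℕ) : (TB s q).card ≤ (q + 1) ^ 2 + 1 := by
  unfold TB
  refine (Finset.card_insert_le _ _).trans ?_
  apply Nat.add_le_add_right
  refine Finset.card_image_le.trans ((Finset.card_filter_le _ _).trans ?_)
  rw [Finset.card_product, Finset.card_range, pow_two]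

theorem TB_rad {s q : ℕ} {t : Vtx × ℕ} (ht : t ∈ TB s q) : s ≤ t.2 ∧ t.2 ≤ 5 * s := by
  rcases mem_TB.mp ht with rfl | ⟨i, j, _, _, _, rfl⟩
  · constructor
    · show s ≤ 5 * s
      omega
    · exact le_rfl
  · constructor
    · exact le_rfl
    · show s ≤ 5 * s
      omega

theorem TB_hole {s q k : ℕ} (hk : k ≤ s) (hs : 1 ≤ s) {t : Vtx × ℕ} (ht : t ∈ TB s q) :
    (∀ u, inR 0 (k : ℤ) 0 k u → In t.1 t.2 u) ∨
      (∀ u, inR 0 (k : ℤ) 0 k u → Out t.1 (3 * t.2 + 1) u) := by
  rcases mem_TB.mp ht with rfl | ⟨i, j, _, _, hij, rfl⟩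
  · left
    intro u hu
    simp only [inR] at hu
    simp only [In]
    push_cast
    omega
  · right
    intro u hu
    simp only [inR] at hu
    simp only [Out]
    rcases hij with h | h
    · left
      have : (5 : ℤ) * s ≤ (i : ℤ) * s := by
        have : (5 : ℤ) ≤ i := by exact_mod_cast h
        nlinarith
      omega
    · right; right; left
      have : (5 : ℤ) * s ≤ (j : ℤ) * s := by
        have : (5 : ℤ) ≤ j := by exact_mod_cast h
        nlinarith
      omega

theorem TB_cover {s q n : ℕ} (hs : 1 ≤ s) (hn : n < (q + 1) * s) {u : Vtx} (hu : u ∈ bxV n) :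
    ∃ t ∈ TB s q, In t.1 t.2 u := by
  rw [mem_bxV] at hu
  obtain ⟨⟨h1, h2⟩, h3, h4⟩ := hu
  by_cases hc : u.1 < 5 * s ∧ u.2 < 5 * s
  · refine ⟨(((0 : ℤ), (0 : ℤ)), 5 * s), mem_TB.mpr (Or.inl rfl), ?_⟩
    simp only [In]
    push_cast
    omega
  · obtain ⟨a, ha⟩ := Int.eq_ofNat_of_zero_le h1
    obtain ⟨b, hb⟩ := Int.eq_ofNat_of_zero_le h3
    have ha' : a ≤ n := by omega
    have hb' : b ≤ n := by omega
    have e1 := Nat.div_add_mod a s
    have e2 := Nat.div_add_mod b s
    have l1 := Nat.mod_lt a (show 0 < s by omega)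
    have l2 := Nat.mod_lt b (show 0 < s by omega)
    have q1 : a / s ≤ q := by
      have : a / s < q + 1 := Nat.div_lt_of_lt_mul (by nlinarith)
      omega
    have q2 : b / s ≤ q := by
      have : b / s < q + 1 := Nat.div_lt_of_lt_mul (by nlinarith)
      omega
    refine ⟨((((a / s : ℕ) : ℤ) * s, ((b / s : ℕ) : ℤ) * s), s), mem_TB.mpr (Or.inr
      ⟨a / s, b / s, q1, q2, ?_, rfl⟩), ?_⟩
    · by_contra hcon
      push Not at hcon
      apply hc
      constructor
      · have : a < 5 * s := by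
          have : a / s ≤ 4 := by omega
          nlinarith
        omega
      · have : b < 5 * s := by
          have : b / s ≤ 4 := by omega
          nlinarith
        omega
    · simp only [In]
      have e1' : ((a / s : ℕ) : ℤ) * s + ((a % s : ℕ) : ℤ) = a := by
        rw [mul_comm]; exact_mod_cast e1
      have e2' : ((b / s : ℕ) : ℤ) * s + ((b % s : ℕ) : ℤ) = b := by
        rw [mul_comm]; exact_mod_cast e2
      have l1' : ((a % s : ℕ) : ℤ) < s := by exact_mod_cast l1
      have l2' : ((b % s : ℕ) : ℤ) < s := by exact_mod_cast l2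
      have z1 : (0 : ℤ) ≤ ((a % s : ℕ) : ℤ) := by positivity
      have z2 : (0 : ℤ) ≤ ((b % s : ℕ) : ℤ) := by positivity
      rw [ha, hb]
      refine ⟨?_, ?_, ?_, ?_⟩ <;> push_cast at * <;> linarith

end Pool.Agent.H99.SL
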