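import Pool.Agent.H99.SL.Stm3

set_option autoImplicit false

/-! Project SL, stub CNTA (helper72) -/

namespace Pool.Agent.H99.SL

open H99L Pool.Agent.H99.DR Pool.Agent.H99.MS Filter Topology
open TopologicalSpace (NonemptyCompacts)

theorem exists_cov (K : NonemptyCompacts ℂ) {ε : ℝ} (hε : 0 < ε) :
    ∃ T : Finset ℂ, T.card = cov K ε ∧ ∀ p ∈ (K : Set ℂ), ∃ t ∈ T, dist p t ≤ ε := by
  have hne : {m | ∃ T : Finset ℂ, T.card = m ∧ ∀ p ∈ (K : Set ℂ), ∃ t ∈ T, dist p t ≤ ε}.Nonempty := by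
    obtain ⟨t, -, ht, hcov⟩ := K.isCompact.finite_cover_balls hε
    refine ⟨ht.toFinset.card, ht.toFinset, rfl, fun p hp => ?_⟩
    obtain ⟨x, hx, hpx⟩ := Set.mem_iUnion₂.1 (hcov hp)
    exact ⟨x, ht.mem_toFinset.2 hx, (Metric.mem_ball.1 hpx).le⟩
  exact Nat.sInf_mem hne

theorem card_Icc_le (x : ℝ) : (Finset.Icc ⌈x - 860⌉ ⌊x + 860⌋).card ≤ 1721 := by
  rw [Int.card_Icc]
  have h1 : ((⌊x + 860⌋ : ℤ) : ℝ) ≤ x + 860 := Int.floor_le _
  have h2 : x - 860 ≤ ((⌈x - 860⌉ : ℤ) : ℝ) := Int.le_ceil _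
  have h3 : ((⌊x + 860⌋ : ℤ) : ℝ) - ((⌈x - 860⌉ : ℤ) : ℝ) ≤ 1720 := by linarith
  have h4 : ⌊x + 860⌋ - ⌈x - 860⌉ ≤ 1720 := by exact_mod_cast h3
  omega

theorem mem_Icc_of {x : ℝ} {a : ℤ} (h : |(a : ℝ) - x| ≤ 860) :
    a ∈ Finset.Icc ⌈x - 860⌉ ⌊x + 860⌋ := by
  rw [Finset.mem_Icc]
  rw [abs_le] at h
  exact ⟨Int.ceil_le.2 (by linarith [h.1]), Int.le_floor.2 (by linarith [h.2])⟩

theorem cnta : S_CNTA := by
  classical
  intro K ε n s M hε hs hns
  obtain ⟨T, hT, hcov⟩ := exists_cov K hε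
  rw [← hT]
  have hs0 : (0 : ℝ) < s := by exact_mod_cast hs
  have hsub : AA n s 60 M (K : Set ℂ) ⊆ T.biUnion (fun t =>
      Finset.Icc ⌈n * t.re / s - 860⌉ ⌊n * t.re / s + 860⌋ ×ˢ
        Finset.Icc ⌈n * t.im / s - 860⌉ ⌊n * t.im / s + 860⌋) := by
    intro a ha
    obtain ⟨p, hp, -, -, m1, m2⟩ := mem_AA.mp ha
    obtain ⟨t, ht, hpt⟩ := hcov p hp
    rw [Finset.mem_biUnion]
    refine ⟨t, ht, ?_⟩
    rw [Finset.mem_product]
    have r1 : |p.re - t.re| ≤ ε := by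
      have := Complex.abs_re_le_norm (p - t)
      rw [Complex.sub_re, ← dist_eq_norm] at this
      exact this.trans hpt
    have r2 : |p.im - t.im| ≤ ε := by
      have := Complex.abs_im_le_norm (p - t)
      rw [Complex.sub_im, ← dist_eq_norm] at this
      exact this.trans hpt
    have hn0 : (0 : ℝ) ≤ n := by positivity
    have key : ∀ (x y z : ℝ), |x * s - n * y| ≤ (60 : ℕ) * s → |y - z| ≤ ε →
        |x - n * z / s| ≤ 860 := by
      intro x y z h1 h2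
      have e : x - n * z / s = (x * s - n * z) / s := by field_simp
      rw [e, abs_div, abs_of_pos hs0, div_le_iff₀ hs0]
      have h3 : |n * (y - z)| ≤ ε * n := by
        rw [abs_mul, abs_of_nonneg hn0]
        nlinarith
      have h4 : x * s - n * z = (x * s - n * y) + n * (y - z) := by ring
      rw [h4]
      refine (abs_add_le _ _).trans ?_
      push_cast at h1
      linarith
    exact ⟨mem_Icc_of (key _ _ _ m1 r1), mem_Icc_of (key _ _ _ m2 r2)⟩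
  refine (Finset.card_le_card hsub).trans ?_
  refine Finset.card_biUnion_le.trans ?_
  refine (Finset.sum_le_card_nsmul T _ (10 ^ 7) fun t _ => ?_).trans ?_
  · rw [Finset.card_product]
    calc _ ≤ 1721 * 1721 := Nat.mul_le_mul (card_Icc_le _) (card_Icc_le _)
      _ ≤ 10 ^ 7 := by norm_num
  · rw [smul_eq_mul, mul_comm]

end Pool.Agent.H99.SL
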