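import Pool.Agent.H99.SL.Stm3

set_option autoImplicit false

/-! SL-CNTN (helper29) -/

namespace Pool.Agent.H99.SL

open H99L Pool.Agent.H99.DR Pool.Agent.H99.MS Filter Topology MeasureTheory
open TopologicalSpace (NonemptyCompacts)

theorem abs_of_mul {i a s : ℤ} (hs : 1 ≤ s) (h : |i * s - a * s| ≤ 29 * s) :
    a - 29 ≤ i ∧ i ≤ a + 29 := by
  have h1 := abs_le.1 h
  constructor
  · by_contra hcon
    push Not at hcon
    have h2 : i + 1 ≤ a - 29 := by omega
    have h3 : (i + 1) * s ≤ (a - 29) * s := mul_le_mul_of_nonneg_right h2 (by omega)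
    nlinarith [h1.1]
  · by_contra hcon
    push Not at hcon
    have h2 : a + 29 + 1 ≤ i := by omega
    have h3 : (a + 29 + 1) * s ≤ i * s := mul_le_mul_of_nonneg_right h2 (by omega)
    nlinarith [h1.2]

theorem cntn : S_CNTN := by
  classical
  intro s q A hs
  rcases A.eq_empty_or_nonempty with rfl | hA
  · have h0 : TN s q ∅ = ∅ := by
      unfold TN
      rw [Finset.filter_eq_empty_iff]
      rintro t - ⟨a, ha, -⟩
      simp at ha
    rw [h0]
    simp
  · have hsub : TN s q A ⊆ insert (((0 : ℤ), (0 : ℤ)), 5 * s) (A.biUnion fun a =>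
        ((Finset.Icc (a.1 - 29) (a.1 + 29)) ×ˢ (Finset.Icc (a.2 - 29) (a.2 + 29))).image
          (fun ij : ℤ × ℤ => (((ij.1 * s, ij.2 * s) : Vtx), s))) := by
      intro t ht
      unfold TN at ht
      rw [Finset.mem_filter] at ht
      obtain ⟨ht1, a, ha, h1, h2⟩ := ht
      have ht2 := (mem_TF.mp ht1).1
      rw [Finset.mem_insert]
      rcases mem_TB.mp ht2 with h | ⟨i, j, -, -, -, rfl⟩
      · exact Or.inl h
      · right
        rw [Finset.mem_biUnion]
        refine ⟨a, ha, ?_⟩
        rw [Finset.mem_image]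
        have hs' : (1 : ℤ) ≤ s := by exact_mod_cast hs
        have b1 := abs_of_mul hs' h1
        have b2 := abs_of_mul hs' h2
        refine ⟨((i : ℤ), (j : ℤ)), ?_, rfl⟩
        rw [Finset.mem_product, Finset.mem_Icc, Finset.mem_Icc]
        exact ⟨b1, b2⟩
    have h1 := (Finset.card_le_card hsub).trans (Finset.card_insert_le _ _)
    have h2 : (A.biUnion fun a =>
        ((Finset.Icc (a.1 - 29) (a.1 + 29)) ×ˢ (Finset.Icc (a.2 - 29) (a.2 + 29))).image
          (fun ij : ℤ × ℤ => (((ij.1 * s, ij.2 * s) : Vtx), s))).card ≤ A.card * (59 * 59) := by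
      refine Finset.card_biUnion_le_card_mul _ _ _ fun a _ => ?_
      refine Finset.card_image_le.trans ?_
      rw [Finset.card_product, Int.card_Icc, Int.card_Icc]
      have e1 : (a.1 + 29 + 1 - (a.1 - 29)).toNat = 59 := by omega
      have e2 : (a.2 + 29 + 1 - (a.2 - 29)).toNat = 59 := by omega
      rw [e1, e2]
    have h3 : 1 ≤ A.card := hA.card_pos
    omega

end Pool.Agent.H99.SL
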