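import Pool.Agent.H99.SL.Stm2

set_option autoImplicit false

namespace Pool.Agent.H99.SL

open H99L Pool.Agent.H99.DR Pool.Agent.H99.MS Filter Topology

theorem cond : S_COND := by
  intro S U G ZZ Ev q hSU hGU hq0 hq huni
  classical
  have hlow : q * Pr hf S (fun F => ∃ Z ∈ ZZ, IsCl Z (F ∪ G)) ≤
      ∑ Z ∈ ZZ, Pr hf S (fun F => IsCl Z (F ∪ G) ∧ Ev Z (F \ EZ S Z)) := by
    refine (mul_le_mul_of_nonneg_left
      (Pr_exists_le okh S ZZ (fun Z F => IsCl Z (F ∪ G))) hq0).trans ?_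
    rw [Finset.mul_sum]
    apply Finset.sum_le_sum
    intro Z hZ
    have hsub : EZ S Z ⊆ S := fun e he => (mem_EZ.mp he).1
    have e1 : Pr hf S (fun F => IsCl Z (F ∪ G) ∧ Ev Z (F \ EZ S Z)) =
        Pr hf S (fun F => IsCl Z (F ∪ G)) * Pr hf S (fun F => Ev Z (F \ EZ S Z)) := by
      apply Pr_indep hsub (Finset.sdiff_subset (t := EZ S Z)) Finset.disjoint_sdiff
      · intro F hF
        have hFU : F ∪ G ⊆ S ∪ U := Finset.union_subset_union hF hGU
        have hFU' : (F ∩ EZ S Z) ∪ G ⊆ S ∪ U :=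
          Finset.union_subset_union (Finset.inter_subset_left.trans hF) hGU
        have h1 : (F ∪ G) ∩ EZ (S ∪ U) Z = ((F ∩ EZ S Z) ∪ G) ∩ EZ (S ∪ U) Z := by
          ext e
          simp only [Finset.mem_inter, Finset.mem_union, mem_EZ]
          constructor
          · rintro ⟨h | h, h2, h3⟩
            · exact ⟨Or.inl ⟨h, hF h, h3⟩, h2, h3⟩
            · exact ⟨Or.inr h, h2, h3⟩
          · rintro ⟨⟨h, _⟩ | h, h2, h3⟩
            · exact ⟨Or.inl h, h2, h3⟩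
            · exact ⟨Or.inr h, h2, h3⟩
        show IsCl Z (F ∪ G) ↔ IsCl Z ((F ∩ EZ S Z) ∪ G)
        rw [IsCl_local hFU, h1, ← IsCl_local hFU']
      · intro F hF
        have : (F ∩ (S \ EZ S Z)) \ EZ S Z = F \ EZ S Z := by
          ext e
          simp only [Finset.mem_sdiff, Finset.mem_inter]
          constructor
          · rintro ⟨⟨h1, h2, h3⟩, _⟩; exact ⟨h1, h3⟩
          · rintro ⟨h1, h2⟩; exact ⟨⟨h1, hF h1, h2⟩, h2⟩
        rw [this]
    have e2 : Pr hf S (fun F => Ev Z (F \ EZ S Z)) = Pr hf (S \ EZ S Z) (Ev Z) := by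
      rw [Pr_local (S' := S \ EZ S Z) Finset.sdiff_subset]
      · apply Pr_congr
        intro F hF
        have : F \ EZ S Z = F := by
          rw [Finset.sdiff_eq_self_iff_disjoint]
          exact Finset.disjoint_of_subset_left hF Finset.sdiff_disjoint
        rw [this]
      · intro F hF
        have : (F ∩ (S \ EZ S Z)) \ EZ S Z = F \ EZ S Z := by
          ext e
          simp only [Finset.mem_sdiff, Finset.mem_inter]
          constructor
          · rintro ⟨⟨h1, h2, h3⟩, _⟩; exact ⟨h1, h3⟩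
          · rintro ⟨h1, h2⟩; exact ⟨⟨h1, hF h1, h2⟩, h2⟩
        rw [this]
    rw [e1, e2, mul_comm]
    exact mul_le_mul_of_nonneg_left (hq Z hZ) (Pr_nonneg okh _ _)
  refine hlow.trans ?_
  unfold Pr
  rw [← Ex_sum hf S ZZ (fun Z F => ind (IsCl Z (F ∪ G) ∧ Ev Z (F \ EZ S Z)))]
  refine Ex_mono okh fun F hF => ?_
  by_cases h : ∃ Z ∈ ZZ, IsCl Z (F ∪ G) ∧ Ev Z (F \ EZ S Z)
  · rw [ind_of h]
    obtain ⟨Z, hZ, h1, h2⟩ := h
    rw [Finset.sum_eq_single_of_mem Z hZ, ind_of ⟨h1, h2⟩]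
    intro Z' hZ' hne
    refine ind_not_of ?_
    rintro ⟨h3, h4⟩
    exact hne (huni F hF Z' hZ' Z hZ h3 h1 h4 h2)
  · rw [ind_not_of h]
    refine (Finset.sum_eq_zero fun Z hZ => ind_not_of fun h1 => h ⟨Z, hZ, h1⟩).le

end Pool.Agent.H99.SL
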