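import Pool.Agent.H99.SL.Stm3

set_option autoImplicit false

/-! Project SL, EXZ: the cluster of the network is one of the sets `ZZ`, only the blocks near the
network are used. -/

namespace Pool.Agent.H99.SL

open H99L Pool.Agent.H99.DR Pool.Agent.H99.MS Filter Topology
open TopologicalSpace (NonemptyCompacts)

namespace EX

theorem mem_TN {s q : ℕ} {A : Finset (ℤ × ℤ)} {t : Vtx × ℕ} : t ∈ TN s q A ↔ t ∈ TF s q A ∧
    ∃ a ∈ A, |t.1.1 - a.1 * s| ≤ 29 * s ∧ |t.1.2 - a.2 * s| ≤ 29 * s := by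
  classical
  simp only [TN, Finset.mem_filter]

/-- the first step out of a set -/
theorem exit {α : Type*} {r : α → α → Prop} {P : α → Prop} {u v : α}
    (h : Relation.ReflTransGen r u v) (hu : P u) (hv : ¬ P v) :
    ∃ x y, Relation.ReflTransGen r u x ∧ P x ∧ r x y ∧ ¬ P y := by
  induction h with
  | refl => exact absurd hu hv
  | tail hab hbc ih =>
    rename_i b c
    by_cases hb : P b
    · exact ⟨b, c, hab, hb, hbc, hv⟩
    · exact ih hb

theorem adj_close {F : Set Edg} {u v : Vtx} (h : Adj F u v) :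
    |v.1 - u.1| ≤ 1 ∧ |v.2 - u.2| ≤ 1 := by
  obtain ⟨⟨x, y, b⟩, _, h⟩ := h
  cases b <;> rcases h with ⟨rfl, rfl⟩ | ⟨rfl, rfl⟩ <;> simp

end EX

open EX in
theorem exz : S_EXZ := by
  intro net hole n s q k A hs hk hn hkn hA hc hAn F G hF hG hNet hB
  obtain ⟨v0, ⟨a0, ha0, hv0⟩, hw⟩ := net s A F hs hA hc hNet
  have hGn : G ⊆ RE 0 (n : ℤ) 0 n :=
    hG.trans (RE_subset le_rfl (by exact_mod_cast hkn) le_rfl (by exact_mod_cast hkn))
  have hH : F ∪ G ⊆ RE 0 (n : ℤ) 0 n := Finset.union_subset hF hGn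
  have hv0b : v0 ∈ bxV n := by
    rw [mem_bxV]
    have := hAn a0 ha0
    simp only [inR] at hv0 ⊢
    omega
  have hs' : (1 : ℤ) ≤ s := by exact_mod_cast hs
  refine ⟨clF n (F ∪ G) v0, mem_ZZ.mpr ⟨?_, ?_, ?_⟩, clF_isCl hH hv0b⟩
  · intro u hu
    exact (mem_clF.mp hu).1
  · intro u hu
    obtain ⟨hub, huc⟩ := mem_clF.mp hu
    have hr : Reach (↑(F ∪ G) : Set Edg) v0 u := mem_cluster.mp huc
    by_contra hcon
    have hP0 : ∃ a ∈ A, |v0.1 - a.1 * s| ≤ 23 * s ∧ |v0.2 - a.2 * s| ≤ 23 * s := by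
      refine ⟨a0, ha0, ?_, ?_⟩
      · simp only [inR] at hv0
        rw [abs_le]
        constructor <;> linarith [hv0.1.1, hv0.1.2]
      · simp only [inR] at hv0
        rw [abs_le]
        constructor <;> linarith [hv0.2.1, hv0.2.2]
    obtain ⟨x, y, hx, ⟨a, ha, hx1, hx2⟩, hxy, hy⟩ := exit
      (P := fun u : Vtx => ∃ a ∈ A, |u.1 - a.1 * s| ≤ 23 * s ∧ |u.2 - a.2 * s| ≤ 23 * s)
      hr hP0 hcon
    have hry : Reach (↑(F ∪ G) : Set Edg) v0 y := Relation.ReflTransGen.tail hx hxy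
    have hyb : y ∈ bxV n := reach_box hH hv0b hry
    obtain ⟨t, ht, hin⟩ := TB_cover hs hn hyb
    have hrad := TB_rad ht
    have hr5 : (t.2 : ℤ) ≤ 5 * s := by exact_mod_cast hrad.2
    by_cases htf : t ∈ TF s q A
    · obtain ⟨c1, c2⟩ := adj_close hxy
      have htn : t ∈ TN s q A := by
        refine mem_TN.mpr ⟨htf, a, ha, ?_, ?_⟩
        · simp only [In] at hin
          rw [abs_le] at c1 hx1 ⊢
          constructor <;> linarith [hin.1, hin.2.1, c1.1, c1.2, hx1.1, hx1.2]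
        · simp only [In] at hin
          rw [abs_le] at c2 hx2 ⊢
          constructor <;> linarith [hin.2.2.1, hin.2.2.2, c2.1, c2.2, hx2.1, hx2.2]
      have hbl := hB t htn
      have hno := hole k t.1 t.2 F G (by omega) hG (TB_hole hk hs ht) hbl y v0 hin hry.symm
      apply hno
      have hfar := (mem_TF.mp htf).2 a0 ha0
      simp only [inR] at hv0
      simp only [Out]
      rcases hfar with h | h
      · rcases le_abs.mp h with h | h
        · left; linarith [hv0.1.1, hv0.1.2]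
        · right; left; linarith [hv0.1.1, hv0.1.2]
      · rcases le_abs.mp h with h | h
        · right; right; left; linarith [hv0.2.1, hv0.2.2]
        · right; right; right; linarith [hv0.2.1, hv0.2.2]
    · have : ¬ ∀ a ∈ A, 3 * (t.2 : ℤ) + 3 * s ≤ |t.1.1 - a.1 * s| ∨
          3 * (t.2 : ℤ) + 3 * s ≤ |t.1.2 - a.2 * s| := fun h => htf (mem_TF.mpr ⟨ht, h⟩)
      push Not at this
      obtain ⟨a', ha', h1, h2⟩ := this
      apply hy
      refine ⟨a', ha', ?_, ?_⟩
      · simp only [In] at hin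
        rw [abs_lt] at h1
        rw [abs_le]
        constructor <;> linarith [hin.1, hin.2.1, h1.1, h1.2]
      · simp only [In] at hin
        rw [abs_lt] at h2
        rw [abs_le]
        constructor <;> linarith [hin.2.2.1, hin.2.2.2, h2.1, h2.2]
  · intro a ha
    obtain ⟨w, hw1, hw2⟩ := hw a ha
    refine ⟨w, ?_, hw1⟩
    have hr : Reach (↑(F ∪ G) : Set Edg) v0 w := hw2.mono (by
      rw [Finset.coe_union]; exact Set.subset_union_left)
    exact mem_clF.mpr ⟨reach_box hH hv0b hr, mem_cluster.mpr hr⟩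

end Pool.Agent.H99.SL
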