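import Pool.Agent.H99.SL.Stm3

set_option autoImplicit false

/-! Project SL, GD2: on the good event every largest cluster is close to the continuum, two scales. -/

namespace Pool.Agent.H99.SL

open H99L Pool.Agent.H99.DR Pool.Agent.H99.MS Filter Topology
open TopologicalSpace (NonemptyCompacts)

theorem gd2 : S_GD2 := by
  intro K ε n s w M hε hs hsw hn hsn H hH hw Z hZ hcl hwide hsm v hv
  have hn0 : (0 : ℝ) < n := by exact_mod_cast hn
  have hs5 : (5 : ℝ) ≤ s := by exact_mod_cast hs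
  have hsw' : (s : ℝ) ≤ w := by exact_mod_cast hsw
  obtain ⟨hZb, hZ1, hZ2⟩ := mem_ZZ.mp hZ
  obtain ⟨wa, hwa, wb, hwb, hab⟩ := hwide
  have hvb : v ∈ bxV n := hv.1
  -- the cluster of the network has a large diameter
  have hbig : 50 * (w : ℝ) ≤ diam H wa := by
    have hc : wb ∈ cluster H wa := mem_cluster.mpr ((hcl.reach hwa).mpr hwb)
    have hd := ed_le_diam hH (hZb hwa) (mem_cluster.mpr (Reach.refl _ _)) hc
    refine le_trans ?_ hd
    apply le_of_sq_le_sq _ (ed_nonneg _ _)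
    rw [ed_sq']
    have hw0 : (0 : ℝ) ≤ 50 * w := by positivity
    rcases hab with h | h
    · have h2 : 50 * (w : ℝ) ≤ |(wa.1 : ℝ) - wb.1| := by exact_mod_cast h
      have h3 : (50 * (w : ℝ)) ^ 2 ≤ ((wa.1 : ℝ) - wb.1) ^ 2 := by
        rw [← sq_abs ((wa.1 : ℝ) - wb.1)]
        exact pow_le_pow_left₀ hw0 h2 2
      nlinarith [sq_nonneg ((wa.2 : ℝ) - wb.2)]
    · have h2 : 50 * (w : ℝ) ≤ |(wa.2 : ℝ) - wb.2| := by exact_mod_cast h
      have h3 : (50 * (w : ℝ)) ^ 2 ≤ ((wa.2 : ℝ) - wb.2) ^ 2 := by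
        rw [← sq_abs ((wa.2 : ℝ) - wb.2)]
        exact pow_le_pow_left₀ hw0 h2 2
      nlinarith [sq_nonneg ((wa.1 : ℝ) - wb.1)]
  -- the chosen vertex lies in this cluster
  have hvZ : v ∈ Z := by
    by_contra hcon
    have h1 := hv.2 wa (hZb hwa)
    have h2 : diam H v ≤ 47 * w + 2 := by
      unfold diam
      apply Metric.diam_le_of_forall_dist_le (by positivity)
      intro p hp q hq
      obtain ⟨z1, hz1, hd1⟩ := body_near hp
      obtain ⟨z2, hz2, hd2⟩ := body_near hq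
      obtain ⟨k1, k2⟩ := hsm v hvb hcon z1 z2 (mem_cluster.mp hz1) (mem_cluster.mp hz2)
      have k1' : |(z1.1 : ℝ) - z2.1| ≤ 30 * w := by exact_mod_cast k1
      have k2' : |(z1.2 : ℝ) - z2.2| ≤ 30 * w := by exact_mod_cast k2
      have hd3 : dist (pt z1) (pt z2) ≤ 3 / 2 * (30 * w) := dist_le_coord (by positivity) k1' k2'
      calc dist p q ≤ dist p (pt z1) + dist (pt z1) q := dist_triangle _ _ _
        _ ≤ dist p (pt z1) + (dist (pt z1) (pt z2) + dist (pt z2) q) := by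
            gcongr; exact dist_triangle _ _ _
        _ ≤ 1 + (3 / 2 * (30 * w) + 1) := by
            rw [dist_comm (pt z2)]
            linarith
        _ ≤ 47 * w + 2 := by linarith
    linarith
  have hcv : ∀ z, z ∈ cluster H v ↔ z ∈ Z := fun z => by
    rw [mem_cluster]; exact hcl.reach hvZ
  rw [Metric.NonemptyCompacts.dist_eq]
  have hdiv : ∀ (x : ℂ) (p : ℂ) (R : ℝ), dist x (n * p) ≤ R → R ≤ ε * n →
      dist (x / (n : ℂ)) p ≤ ε := by
    intro x p R h1 h2
    have e1 : x / (n : ℂ) - p = (x - n * p) / n := by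
      have : (n : ℂ) ≠ 0 := by exact_mod_cast hn0.ne'
      field_simp
    rw [dist_eq_norm, e1, norm_div, Complex.norm_natCast, ← dist_eq_norm, div_le_iff₀ hn0]
    exact h1.trans h2
  have hre : ∀ p : ℂ, ((n : ℂ) * p).re = n * p.re := fun p => by simp
  have him : ∀ p : ℂ, ((n : ℂ) * p).im = n * p.im := fun p => by simp
  apply Metric.hausdorffDist_le_of_mem_dist hε.le
  · rintro _ ⟨x, hx, rfl⟩
    have hx' : x ∈ body H v := hx
    obtain ⟨z, hz, hxz⟩ := body_near hx'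
    obtain ⟨a', ha', k1, k2⟩ := hZ1 z ((hcv z).mp hz)
    obtain ⟨p, hp, ⟨_, _, m1, m2⟩⟩ := mem_AA.mp ha'
    refine ⟨p, hp, ?_⟩
    have k1' : |(z.1 : ℝ) - a'.1 * s| ≤ 23 * s := by exact_mod_cast k1
    have k2' : |(z.2 : ℝ) - a'.2 * s| ≤ 23 * s := by exact_mod_cast k2
    have hd : dist (pt z) (n * p) ≤ 3 / 2 * (83 * s) := by
      apply dist_le_coord (by positivity)
      · rw [hre]
        show |(z.1 : ℝ) - n * p.re| ≤ 83 * s
        push_cast at m1
        rw [abs_le] at k1' m1 ⊢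
        constructor <;> linarith [k1'.1, k1'.2, m1.1, m1.2]
      · rw [him]
        show |(z.2 : ℝ) - n * p.im| ≤ 83 * s
        push_cast at m2
        rw [abs_le] at k2' m2 ⊢
        constructor <;> linarith [k2'.1, k2'.2, m2.1, m2.2]
    refine hdiv x p (1 + 3 / 2 * (83 * s)) ?_ (by linarith)
    calc dist x (n * p) ≤ dist x (pt z) + dist (pt z) (n * p) := dist_triangle _ _ _
      _ ≤ 1 + 3 / 2 * (83 * s) := add_le_add hxz hd
  · intro p hp
    obtain ⟨a', ha', b', -, -⟩ := hw p hp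
    obtain ⟨w', hwZ, hwc⟩ := hZ2 a' (mem_AA.mpr ⟨p, hp, ha'⟩)
    obtain ⟨_, _, m1, m2⟩ := ha'
    refine ⟨pt w' / n, ⟨pt w', Or.inl ⟨w', (hcv w').mpr hwZ, rfl⟩, rfl⟩, ?_⟩
    rw [dist_comm]
    simp only [inR] at hwc
    have c1 : (a'.1 : ℝ) * s ≤ w'.1 ∧ (w'.1 : ℝ) ≤ a'.1 * s + s := by exact_mod_cast hwc.1
    have c2 : (a'.2 : ℝ) * s ≤ w'.2 ∧ (w'.2 : ℝ) ≤ a'.2 * s + s := by exact_mod_cast hwc.2
    have hd : dist (pt w') (n * p) ≤ 3 / 2 * (61 * s) := by
      apply dist_le_coord (by positivity)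
      · rw [hre]
        show |(w'.1 : ℝ) - n * p.re| ≤ 61 * s
        push_cast at m1
        rw [abs_le] at m1 ⊢
        constructor <;> linarith [c1.1, c1.2, m1.1, m1.2]
      · rw [him]
        show |(w'.2 : ℝ) - n * p.im| ≤ 61 * s
        push_cast at m2
        rw [abs_le] at m2 ⊢
        constructor <;> linarith [c2.1, c2.2, m2.1, m2.2]
    exact hdiv (pt w') p _ hd (by linarith)

end Pool.Agent.H99.SL
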