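import Pool.Agent.H99.SL.Stm2

set_option autoImplicit false

/-! Project SL, GEO: the network around a continuum is connected and wide. -/

namespace Pool.Agent.H99.SL

open H99L Pool.Agent.H99.DR Pool.Agent.H99.MS Filter Topology
open TopologicalSpace (NonemptyCompacts)

theorem nb_symm {A : Finset (ℤ × ℤ)} {a b : ℤ × ℤ} (h : Nb A a b) : Nb A b a := by
  obtain ⟨h1, h2, h3⟩ := h
  refine ⟨h2, h1, ?_⟩
  rw [abs_sub_comm b.1, abs_sub_comm b.2]
  exact h3

theorem rt_symm {A : Finset (ℤ × ℤ)} {a b : ℤ × ℤ} (h : Relation.ReflTransGen (Nb A) a b) :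
    Relation.ReflTransGen (Nb A) b a := by
  induction h with
  | refl => exact Relation.ReflTransGen.refl
  | tail _ hs ih => exact Relation.ReflTransGen.head (nb_symm hs) ih

theorem hpath0 {A : Finset (ℤ × ℤ)} (c : ℤ) (d : ℕ) : ∀ i : ℤ,
    (∀ k, i ≤ k → k ≤ i + d → (k, c) ∈ A) →
    Relation.ReflTransGen (Nb A) (i, c) (i + d, c) := by
  induction d with
  | zero =>
    intro i _
    simp only [Nat.cast_zero, add_zero]
    exact Relation.ReflTransGen.refl
  | succ d ih =>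
    intro i h
    have h1 := ih i fun k hk1 hk2 => h k hk1 (by push_cast; omega)
    refine h1.tail ⟨h _ (by omega) (by push_cast; omega), h _ (by push_cast; omega) le_rfl, ?_⟩
    simp only [sub_self, abs_zero, add_zero]
    push_cast
    rw [show i + (d : ℤ) - (i + ((d : ℤ) + 1)) = -1 by ring]
    rfl

theorem vpath0 {A : Finset (ℤ × ℤ)} (c : ℤ) (d : ℕ) : ∀ i : ℤ,
    (∀ k, i ≤ k → k ≤ i + d → (c, k) ∈ A) →
    Relation.ReflTransGen (Nb A) (c, i) (c, i + d) := by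
  induction d with
  | zero =>
    intro i _
    simp only [Nat.cast_zero, add_zero]
    exact Relation.ReflTransGen.refl
  | succ d ih =>
    intro i h
    have h1 := ih i fun k hk1 hk2 => h k hk1 (by push_cast; omega)
    refine h1.tail ⟨h _ (by omega) (by push_cast; omega), h _ (by push_cast; omega) le_rfl, ?_⟩
    simp only [sub_self, abs_zero, zero_add]
    push_cast
    rw [show i + (d : ℤ) - (i + ((d : ℤ) + 1)) = -1 by ring]
    rfl

theorem hpath {A : Finset (ℤ × ℤ)} (c i j : ℤ)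
    (h : ∀ k, min i j ≤ k → k ≤ max i j → (k, c) ∈ A) :
    Relation.ReflTransGen (Nb A) (i, c) (j, c) := by
  rcases le_total i j with hij | hij
  · rw [min_eq_left hij, max_eq_right hij] at h
    have h1 := hpath0 (A := A) c (j - i).toNat i fun k h1 h2 => h k h1 (by omega)
    rwa [show i + ((j - i).toNat : ℤ) = j by omega] at h1
  · rw [min_eq_right hij, max_eq_left hij] at h
    have h1 := hpath0 (A := A) c (i - j).toNat j fun k h1 h2 => h k h1 (by omega)
    rw [show j + ((i - j).toNat : ℤ) = i by omega] at h1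
    exact rt_symm h1

theorem vpath {A : Finset (ℤ × ℤ)} (c i j : ℤ)
    (h : ∀ k, min i j ≤ k → k ≤ max i j → (c, k) ∈ A) :
    Relation.ReflTransGen (Nb A) (c, i) (c, j) := by
  rcases le_total i j with hij | hij
  · rw [min_eq_left hij, max_eq_right hij] at h
    have h1 := vpath0 (A := A) c (j - i).toNat i fun k h1 h2 => h k h1 (by omega)
    rwa [show i + ((j - i).toNat : ℤ) = j by omega] at h1
  · rw [min_eq_right hij, max_eq_left hij] at h
    have h1 := vpath0 (A := A) c (i - j).toNat j fun k h1 h2 => h k h1 (by omega)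
    rw [show j + ((i - j).toNat : ℤ) = i by omega] at h1
    exact rt_symm h1

/-- a central index -/
theorem central {n s M : ℕ} (hs : 1 ≤ s) (hM : 3 ≤ M) (h2 : n ≤ (M + 3) * s) {x : ℝ}
    (hx0 : 0 ≤ x) (hx1 : x ≤ 1) :
    ∃ c : ℤ, (2 ≤ c ∧ c ≤ M) ∧ |(c : ℝ) * s - n * x| ≤ 3 * s := by
  have hsR : (0 : ℝ) < s := by exact_mod_cast hs
  have h2' : (n : ℝ) ≤ (M + 3) * s := by exact_mod_cast h2
  obtain ⟨y, hy⟩ : ∃ y : ℝ, y = n * x / s := ⟨_, rfl⟩
  have hxy : (n : ℝ) * x = y * s := by rw [hy]; field_simp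
  have hy0 : 0 ≤ y := by rw [hy]; positivity
  have hy1 : y ≤ M + 3 := by
    rw [hy, div_le_iff₀ hsR]
    calc (n : ℝ) * x ≤ n * 1 := by gcongr
      _ ≤ (M + 3) * s := by rw [mul_one]; exact h2'
  have habs : ∀ c : ℤ, |(c : ℝ) - y| ≤ 3 → |(c : ℝ) * s - n * x| ≤ 3 * s := by
    intro c hc
    rw [hxy, ← sub_mul, abs_mul, abs_of_pos hsR]
    exact mul_le_mul_of_nonneg_right hc hsR.le
  rcases lt_or_ge ⌊y⌋ 2 with h | h
  · refine ⟨2, ⟨le_rfl, by exact_mod_cast (by omega : 2 ≤ M)⟩, habs 2 ?_⟩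
    rw [Int.floor_lt] at h
    push_cast at h ⊢
    rw [abs_le]; constructor <;> linarith
  · rcases lt_or_ge (M : ℤ) ⌊y⌋ with h' | h'
    · refine ⟨M, ⟨by exact_mod_cast (by omega : 2 ≤ M), le_rfl⟩, habs M ?_⟩
      have h3 : ((M : ℤ) + 1 : ℤ) ≤ ⌊y⌋ := h'
      rw [Int.le_floor] at h3
      push_cast at h3 ⊢
      rw [abs_le]; constructor <;> linarith
    · refine ⟨⌊y⌋, ⟨h, h'⟩, habs _ ?_⟩
      have h3 := Int.floor_le y
      have h4 := Int.lt_floor_add_one y
      rw [abs_le]; constructor <;> linarith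

/-- two distant indices -/
theorem wide {n s r M : ℕ} (hs : 1 ≤ s) (hr : 10 ≤ r) (hM : 2 * r + 10 ≤ M)
    (h2 : n ≤ (M + 3) * s) {x : ℝ} (hx0 : 0 ≤ x) (hx1 : x ≤ 1) :
    ∃ a b : ℤ, (2 ≤ a ∧ a ≤ M) ∧ (2 ≤ b ∧ b ≤ M) ∧ |(a : ℝ) * s - n * x| ≤ r * s ∧
      |(b : ℝ) * s - n * x| ≤ r * s ∧ a + r ≤ b + 5 := by
  have hsR : (0 : ℝ) < s := by exact_mod_cast hs
  have h2' : (n : ℝ) ≤ (M + 3) * s := by exact_mod_cast h2
  have hrR : (10 : ℝ) ≤ r := by exact_mod_cast hr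
  have hMR : 2 * (r : ℝ) + 10 ≤ M := by exact_mod_cast hM
  obtain ⟨y, hy⟩ : ∃ y : ℝ, y = n * x / s := ⟨_, rfl⟩
  have hxy : (n : ℝ) * x = y * s := by rw [hy]; field_simp
  have hy0 : 0 ≤ y := by rw [hy]; positivity
  have hy1 : y ≤ M + 3 := by
    rw [hy, div_le_iff₀ hsR]
    calc (n : ℝ) * x ≤ n * 1 := by gcongr
      _ ≤ (M + 3) * s := by rw [mul_one]; exact h2'
  have habs : ∀ c : ℤ, |(c : ℝ) - y| ≤ r → |(c : ℝ) * s - n * x| ≤ r * s := by
    intro c hc
    rw [hxy, ← sub_mul, abs_mul, abs_of_pos hsR]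
    exact mul_le_mul_of_nonneg_right hc hsR.le
  obtain ⟨A, hA⟩ : ∃ A : ℤ, A = ⌈y - r⌉ := ⟨_, rfl⟩
  obtain ⟨B, hB⟩ : ∃ B : ℤ, B = ⌊y + r⌋ := ⟨_, rfl⟩
  have a1 : y - r ≤ A := by rw [hA]; exact Int.le_ceil _
  have a2 : (A : ℝ) < y - r + 1 := by rw [hA]; exact Int.ceil_lt_add_one _
  have b1 : (B : ℝ) ≤ y + r := by rw [hB]; exact Int.floor_le _
  have b2 : y + r - 1 < B := by rw [hB]; exact Int.sub_one_lt_floor _
  have hrZ : (10 : ℤ) ≤ r := by exact_mod_cast hr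
  have hMZ : 2 * (r : ℤ) + 10 ≤ M := by exact_mod_cast hM
  have a3 : A ≤ M + 3 - r := by
    have : (A : ℝ) < ((M + 3 - r + 1 : ℤ) : ℝ) := by push_cast; linarith
    have := Int.cast_lt.1 this
    omega
  have b3 : (r : ℤ) ≤ B := by
    have : ((r - 1 : ℤ) : ℝ) < (B : ℝ) := by push_cast; linarith
    have := Int.cast_lt.1 this
    omega
  have ab : A + r ≤ B + 5 := by
    have : ((A + r : ℤ) : ℝ) < ((B + 5 : ℤ) : ℝ) := by push_cast; linarith
    exact (Int.cast_lt.1 this).le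
  refine ⟨max 2 A, min M B, ⟨le_max_left _ _, max_le (by omega) (by omega)⟩,
    ⟨le_min (by omega) (by omega), min_le_left _ _⟩, habs _ ?_, habs _ ?_, ?_⟩
  · rw [abs_le]
    push_cast
    constructor
    · have := le_max_right (2 : ℝ) A
      linarith
    · have : max (2 : ℝ) A ≤ y + r := max_le (by linarith) (by linarith)
      linarith
  · rw [abs_le]
    push_cast
    constructor
    · have : y - r ≤ min (M : ℝ) B := le_min (by linarith) (by linarith)
      linarith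
    · have := min_le_right (M : ℝ) B
      linarith
  · rcases le_total 2 A with h3 | h3 <;> rcases le_total (M : ℤ) B with h4 | h4 <;>
      simp only [max_eq_right h3, max_eq_left h3, min_eq_left h4, min_eq_right h4] <;> omega

theorem between {s : ℕ} {i j k : ℤ} {z R : ℝ} (h1 : |(i : ℝ) * s - z| ≤ R)
    (h2 : |(j : ℝ) * s - z| ≤ R) (hk1 : min i j ≤ k) (hk2 : k ≤ max i j) :
    |(k : ℝ) * s - z| ≤ R := by
  have hs : (0 : ℝ) ≤ s := Nat.cast_nonneg _
  obtain ⟨a1, a2⟩ := abs_le.1 h1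
  obtain ⟨b1, b2⟩ := abs_le.1 h2
  rw [abs_le]
  constructor
  · rcases min_le_iff.1 hk1 with h | h
    · have : (i : ℝ) * s ≤ k * s := by gcongr
      linarith
    · have : (j : ℝ) * s ≤ k * s := by gcongr
      linarith
  · rcases le_max_iff.1 hk2 with h | h
    · have : (k : ℝ) * s ≤ i * s := by gcongr
      linarith
    · have : (k : ℝ) * s ≤ j * s := by gcongr
      linarith

theorem geo : S_GEO := by
  classical
  intro K hK n s r M hs hr hM h1 h2
  obtain ⟨hconn, hsq⟩ := hK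
  have hsR : (0 : ℝ) < s := by exact_mod_cast hs
  have hrR : (10 : ℝ) ≤ r := by exact_mod_cast hr
  have hn : 0 < n := by
    have : 1 * 1 ≤ M * s := Nat.mul_le_mul (by omega) hs
    omega
  have hnR : (0 : ℝ) < n := by exact_mod_cast hn
  refine ⟨?_, fun p hp => ?_⟩
  swap
  · obtain ⟨p1, p2, p3, p4⟩ := hsq hp
    obtain ⟨a, b, ha, hb, ha', hb', hab⟩ := wide hs hr hM h2 p1 p2
    obtain ⟨c, hc, hc'⟩ := central hs (by omega : 3 ≤ M) h2 p3 p4
    have hc'' : |(c : ℝ) * s - n * p.im| ≤ r * s :=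
      hc'.trans (mul_le_mul_of_nonneg_right (by linarith) hsR.le)
    exact ⟨(a, c), ⟨ha, hc, ha', hc''⟩, (b, c), ⟨hb, hc, hb', hc''⟩, hab⟩
  -- membership
  have hmem : ∀ p ∈ (K : Set ℂ), ∀ a ∈ Ind n s r M p, a ∈ AA n s r M K := by
    intro p hp a ha
    unfold AA
    rw [Finset.mem_filter, Finset.mem_product, Finset.mem_Icc, Finset.mem_Icc]
    exact ⟨⟨ha.1, ha.2.1⟩, p, hp, ha⟩
  -- inside one set
  have hone : ∀ p ∈ (K : Set ℂ), ∀ a ∈ Ind n s r M p, ∀ b ∈ Ind n s r M p,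
      Relation.ReflTransGen (Nb (AA n s r M K)) a b := by
    rintro p hp ⟨a1, a2⟩ ⟨ha1, ha2, ha3, ha4⟩ ⟨b1, b2⟩ ⟨hb1, hb2, hb3, hb4⟩
    simp only at ha1 ha2 ha3 ha4 hb1 hb2 hb3 hb4
    refine (hpath a2 a1 b1 fun k hk1 hk2 => hmem p hp _ ⟨?_, ha2, ?_, ha4⟩).trans
      (vpath b1 a2 b2 fun k hk1 hk2 => hmem p hp _ ⟨hb1, ?_, hb3, ?_⟩)
    · simp only; omega
    · exact between ha3 hb3 hk1 hk2
    · simp only; omega
    · exact between ha4 hb4 hk1 hk2
  -- common elements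
  have hcom : ∀ p ∈ (K : Set ℂ), ∀ q : ℂ, ‖q - p‖ < s / n →
      ∃ c, c ∈ Ind n s r M p ∧ c ∈ Ind n s r M q := by
    intro p hp q hq
    obtain ⟨p1, p2, p3, p4⟩ := hsq hp
    obtain ⟨c, hc, hc'⟩ := central hs (by omega : 3 ≤ M) h2 p1 p2
    obtain ⟨d, hd, hd'⟩ := central hs (by omega : 3 ≤ M) h2 p3 p4
    have h3s : (3 : ℝ) * s ≤ r * s := mul_le_mul_of_nonneg_right (by linarith) hsR.le
    have h4s : (4 : ℝ) * s ≤ r * s := mul_le_mul_of_nonneg_right (by linarith) hsR.le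
    rw [lt_div_iff₀ hnR] at hq
    have hre : |n * q.re - n * p.re| ≤ s := by
      rw [← mul_sub, abs_mul, abs_of_pos hnR, ← Complex.sub_re]
      have := Complex.abs_re_le_norm (q - p)
      nlinarith
    have him : |n * q.im - n * p.im| ≤ s := by
      rw [← mul_sub, abs_mul, abs_of_pos hnR, ← Complex.sub_im]
      have := Complex.abs_im_le_norm (q - p)
      nlinarith
    refine ⟨(c, d), ⟨hc, hd, hc'.trans h3s, hd'.trans h3s⟩, ⟨hc, hd, ?_, ?_⟩⟩
    · simp only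
      obtain ⟨u1, u2⟩ := abs_le.1 hc'
      obtain ⟨v1, v2⟩ := abs_le.1 hre
      rw [abs_le]
      constructor <;> linarith
    · simp only
      obtain ⟨u1, u2⟩ := abs_le.1 hd'
      obtain ⟨v1, v2⟩ := abs_le.1 him
      rw [abs_le]
      constructor <;> linarith
  have hnon : ∀ p ∈ (K : Set ℂ), ∃ c, c ∈ Ind n s r M p := by
    intro p hp
    obtain ⟨c, hc, -⟩ := hcom p hp p (by rw [sub_self, norm_zero]; positivity)
    exact ⟨c, hc⟩
  intro a ha b hb
  unfold AA at ha hb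
  rw [Finset.mem_filter] at ha hb
  obtain ⟨-, p, hp, hap⟩ := ha
  obtain ⟨-, q, hq, hbq⟩ := hb
  have hind := hconn.isPreconnected.induction₂
    (fun p q => ∀ a ∈ Ind n s r M p, ∀ b ∈ Ind n s r M q,
      Relation.ReflTransGen (Nb (AA n s r M K)) a b) ?_ ?_ ?_ hp hq
  · exact hind a hap b hbq
  · intro p hp
    have hnear : ∀ᶠ q in 𝓝[(K : Set ℂ)] p, ‖q - p‖ < s / n := by
      apply Filter.Eventually.filter_mono nhdsWithin_le_nhds
      have := Metric.ball_mem_nhds p (show 0 < (s : ℝ) / n by positivity)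
      filter_upwards [this] with q hq
      rwa [Metric.mem_ball, dist_eq_norm] at hq
    filter_upwards [hnear, self_mem_nhdsWithin] with q hq hqK a ha b hb
    obtain ⟨c, hc1, hc2⟩ := hcom p hp q hq
    exact (hone p hp a ha c hc1).trans (hone q hqK c hc2 b hb)
  · intro x y z _ hy _ hxy hyz a ha b hb
    obtain ⟨c, hc⟩ := hnon y hy
    exact (hxy a ha c hc).trans (hyz c hc b hb)
  · intro x y _ _ hxy a ha b hb
    exact rt_symm (hxy b hb a ha)

end Pool.Agent.H99.SL
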