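import Pool.Agent.H99.SL.Zs

set_option autoImplicit false

/-!
On the good event every largest cluster is close to the continuum.
-/

namespace Pool.Agent.H99.SL

open H99L Pool.Agent.H99.DR Pool.Agent.H99.MS Filter Topology
open TopologicalSpace (NonemptyCompacts)

theorem mem_AA {n s r M : ℕ} {K : Set ℂ} {a : ℤ × ℤ} : a ∈ AA n s r M K ↔
    ∃ p ∈ K, a ∈ Ind n s r M p := by
  classical
  unfold AA
  rw [Finset.mem_filter, Finset.mem_product, Finset.mem_Icc, Finset.mem_Icc]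
  constructor
  · rintro ⟨_, h⟩
    exact h
  · rintro ⟨p, hp, h⟩
    exact ⟨⟨h.1, h.2.1⟩, p, hp, h⟩

/-- Distances from bounds of the coordinates. -/
theorem dist_le_coord {z w : ℂ} {R : ℝ} (hR : 0 ≤ R) (h1 : |z.re - w.re| ≤ R)
    (h2 : |z.im - w.im| ≤ R) : dist z w ≤ 3 / 2 * R := by
  rw [Complex.dist_eq_re_im]
  apply Real.sqrt_le_iff.mpr
  refine ⟨by positivity, ?_⟩
  have e1 : (z.re - w.re) ^ 2 ≤ R ^ 2 := by
    rw [← sq_abs]; exact pow_le_pow_left₀ (abs_nonneg _) h1 2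
  have e2 : (z.im - w.im) ^ 2 ≤ R ^ 2 := by
    rw [← sq_abs]; exact pow_le_pow_left₀ (abs_nonneg _) h2 2
  nlinarith

theorem good_of {n s M : ℕ} {K : NonemptyCompacts ℂ} {ε : ℝ} (hε : 0 < ε) (hs : 5 ≤ s)
    (hn : 0 < n) (hsn : 400 * (s : ℝ) ≤ ε * n) {H : Finset Edg} (hH : H ⊆ RE 0 (n : ℤ) 0 n)
    (hw : ∀ p ∈ (K : Set ℂ), ∃ a ∈ Ind n s 60 M p, ∃ b ∈ Ind n s 60 M p, a.1 + 60 ≤ b.1 + 5)
    {Z : Finset Vtx} (hZ : Z ∈ ZZ n s (AA n s 60 M K)) (hcl : IsCl Z H)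
    (hsm : ∀ x ∈ bxV n, x ∉ Z → ∀ y z, Reach (↑H : Set Edg) x y → Reach (↑H : Set Edg) x z →
      |y.1 - z.1| ≤ 30 * s ∧ |y.2 - z.2| ≤ 30 * s) :
    ∀ v, Largest n H v → dist (shape n H v) K ≤ ε := by
  intro v hv
  have hn0 : (0 : ℝ) < n := by exact_mod_cast hn
  have hs5 : (5 : ℝ) ≤ s := by exact_mod_cast hs
  obtain ⟨hZb, hZ1, hZ2⟩ := mem_ZZ.mp hZ
  obtain ⟨p0, hp0⟩ := K.nonempty
  obtain ⟨a, ha, b, hb, hab⟩ := hw p0 hp0
  obtain ⟨wa, hwa, hwa'⟩ := hZ2 a (mem_AA.mpr ⟨p0, hp0, ha⟩)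
  obtain ⟨wb, hwb, hwb'⟩ := hZ2 b (mem_AA.mpr ⟨p0, hp0, hb⟩)
  have hvb : v ∈ bxV n := hv.1
  -- the cluster of the network has a large diameter
  have hbig : 54 * (s : ℝ) ≤ diam H wa := by
    have hc : wb ∈ cluster H wa := mem_cluster.mpr ((hcl.reach hwa).mpr hwb)
    have hd := ed_le_diam hH (hZb hwa) (mem_cluster.mpr (Reach.refl _ _)) hc
    refine le_trans ?_ hd
    apply le_of_sq_le_sq _ (ed_nonneg _ _)
    rw [ed_sq']
    simp only [inR] at hwa' hwb'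
    have h1 : (54 : ℤ) * s ≤ wb.1 - wa.1 := by
      have : (55 : ℤ) * s ≤ b.1 * s - a.1 * s := by nlinarith
      linarith [hwa'.1.1, hwa'.1.2, hwb'.1.1, hwb'.1.2]
    have h2 : (54 : ℝ) * s ≤ (wb.1 : ℝ) - wa.1 := by exact_mod_cast h1
    nlinarith [sq_nonneg ((wa.2 : ℝ) - wb.2)]
  -- the chosen vertex lies in this cluster
  have hvZ : v ∈ Z := by
    by_contra hcon
    have h1 := hv.2 wa (hZb hwa)
    have h2 : diam H v ≤ 47 * s + 2 := by
      unfold diam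
      apply Metric.diam_le_of_forall_dist_le (by positivity)
      intro p hp q hq
      obtain ⟨z1, hz1, hd1⟩ := body_near hp
      obtain ⟨z2, hz2, hd2⟩ := body_near hq
      obtain ⟨k1, k2⟩ := hsm v hvb hcon z1 z2 (mem_cluster.mp hz1) (mem_cluster.mp hz2)
      have k1' : |(z1.1 : ℝ) - z2.1| ≤ 30 * s := by exact_mod_cast k1
      have k2' : |(z1.2 : ℝ) - z2.2| ≤ 30 * s := by exact_mod_cast k2
      have hd3 : dist (pt z1) (pt z2) ≤ 3 / 2 * (30 * s) := dist_le_coord (by positivity) k1' k2'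
      calc dist p q ≤ dist p (pt z1) + dist (pt z1) q := dist_triangle _ _ _
        _ ≤ dist p (pt z1) + (dist (pt z1) (pt z2) + dist (pt z2) q) := by
            gcongr; exact dist_triangle _ _ _
        _ ≤ 1 + (3 / 2 * (30 * s) + 1) := by
            rw [dist_comm (pt z2)]
            linarith
        _ ≤ 47 * s + 2 := by linarith
    linarith
  have hcv : ∀ z, z ∈ cluster H v ↔ z ∈ Z := fun z => by
    rw [mem_cluster]; exact hcl.reach hvZ
  rw [Metric.NonemptyCompacts.dist_eq]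
  have hdiv : ∀ (x : ℂ) (p : ℂ) (R : ℝ), dist x (n * p) ≤ R → R ≤ ε * n →
      dist (x / (n : ℂ)) p ≤ ε := by
    intro x p R h1 h2
    have e1 : x / (n : ℂ) - p = (x - n * p) / n := by
      have : (n : ℂ) ≠ 0 := by exact_mod_cast hn0.ne'
      field_simp
    rw [dist_eq_norm, e1, norm_div, Complex.norm_natCast, ← dist_eq_norm, div_le_iff₀ hn0]
    exact h1.trans h2
  have hre : ∀ p : ℂ, ((n : ℂ) * p).re = n * p.re := fun p => by simp
  have him : ∀ p : ℂ, ((n : ℂ) * p).im = n * p.im := fun p => by simp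
  apply Metric.hausdorffDist_le_of_mem_dist hε.le
  · rintro _ ⟨x, hx, rfl⟩
    have hx' : x ∈ body H v := hx
    obtain ⟨z, hz, hxz⟩ := body_near hx'
    obtain ⟨a', ha', k1, k2⟩ := hZ1 z ((hcv z).mp hz)
    obtain ⟨p, hp, ⟨_, _, m1, m2⟩⟩ := mem_AA.mp ha'
    refine ⟨p, hp, ?_⟩
    have k1' : |(z.1 : ℝ) - a'.1 * s| ≤ 23 * s := by exact_mod_cast k1
    have k2' : |(z.2 : ℝ) - a'.2 * s| ≤ 23 * s := by exact_mod_cast k2
    have hd : dist (pt z) (n * p) ≤ 3 / 2 * (83 * s) := by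
      apply dist_le_coord (by positivity)
      · rw [hre]
        show |(z.1 : ℝ) - n * p.re| ≤ 83 * s
        push_cast at m1
        rw [abs_le] at k1' m1 ⊢
        constructor <;> linarith [k1'.1, k1'.2, m1.1, m1.2]
      · rw [him]
        show |(z.2 : ℝ) - n * p.im| ≤ 83 * s
        push_cast at m2
        rw [abs_le] at k2' m2 ⊢
        constructor <;> linarith [k2'.1, k2'.2, m2.1, m2.2]
    refine hdiv x p (1 + 3 / 2 * (83 * s)) ?_ (by linarith)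
    calc dist x (n * p) ≤ dist x (pt z) + dist (pt z) (n * p) := dist_triangle _ _ _
      _ ≤ 1 + 3 / 2 * (83 * s) := add_le_add hxz hd
  · intro p hp
    obtain ⟨a', ha', b', -, -⟩ := hw p hp
    obtain ⟨w, hwZ, hwc⟩ := hZ2 a' (mem_AA.mpr ⟨p, hp, ha'⟩)
    obtain ⟨_, _, m1, m2⟩ := ha'
    refine ⟨pt w / n, ⟨pt w, Or.inl ⟨w, (hcv w).mpr hwZ, rfl⟩, rfl⟩, ?_⟩
    rw [dist_comm]
    simp only [inR] at hwc
    have c1 : (a'.1 : ℝ) * s ≤ w.1 ∧ (w.1 : ℝ) ≤ a'.1 * s + s := by exact_mod_cast hwc.1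
    have c2 : (a'.2 : ℝ) * s ≤ w.2 ∧ (w.2 : ℝ) ≤ a'.2 * s + s := by exact_mod_cast hwc.2
    have hd : dist (pt w) (n * p) ≤ 3 / 2 * (61 * s) := by
      apply dist_le_coord (by positivity)
      · rw [hre]
        show |(w.1 : ℝ) - n * p.re| ≤ 61 * s
        push_cast at m1
        rw [abs_le] at m1 ⊢
        constructor <;> linarith [c1.1, c1.2, m1.1, m1.2]
      · rw [him]
        show |(w.2 : ℝ) - n * p.im| ≤ 61 * s
        push_cast at m2
        rw [abs_le] at m2 ⊢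
        constructor <;> linarith [c2.1, c2.2, m2.1, m2.2]
    exact hdiv (pt w) p _ hd (by linarith)

end Pool.Agent.H99.SL
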