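import Pool.Agent.H99.SL.Stm2

set_option autoImplicit false

namespace Pool.Agent.H99.SL

open H99L Pool.Agent.H99.DR Pool.Agent.H99.MS Filter Topology

theorem HOLE.ends {a b c d : ℤ} {e : Edg} (he : e ∈ RE a b c d) :
    inR a b c d (src e) ∧ inR a b c d (tgt e) := by
  obtain ⟨x, y, bo⟩ := e
  unfold inR
  cases bo
  · rw [mem_RE_false] at he
    simp only [src_mk, tgt_false]
    omega
  · rw [mem_RE_true] at he
    simp only [src_mk, tgt_true]
    omega

theorem hole : S_HOLE := by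
  intro k c m F G hm hG hcase hBl u v hu hr hv
  obtain ⟨w, hw, hwb, hrw⟩ := first_exit (G := (↑(F ∪ G) : Set Edg))
    (a := c.1 - 3 * m) (b := c.1 + 3 * m) (c := c.2 - 3 * m) (d := c.2 + 3 * m) (u := u) (v := v)
    (by unfold In at hu; unfold inR; omega) hr hv
  have hwo : Out c (3 * m) w := by unfold Out; omega
  have key : ∀ z, Reach ((↑(F ∪ G) : Set Edg) ∩
      ↑(RE (c.1 - 3 * m) (c.1 + 3 * m) (c.2 - 3 * m) (c.2 + 3 * m))) u z →
      ∃ u', In c m u' ∧ Reach ((↑F : Set Edg) ∩
        ↑(RE (c.1 - 3 * (m : ℤ)) (c.1 + 3 * m) (c.2 - 3 * m) (c.2 + 3 * m))) u' z := by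
    intro z hz
    induction hz with
    | refl => exact ⟨u, hu, Reach.refl _ _⟩
    | @tail z z' _ hs ih =>
      obtain ⟨u', hu', hru⟩ := ih
      obtain ⟨e, ⟨he1, he2⟩, hends⟩ := hs
      rw [Finset.coe_union] at he1
      rcases he1 with heF | heG
      · exact ⟨u', hu', hru.trans (Adj.reach ⟨e, ⟨heF, he2⟩, hends⟩)⟩
      · have h1 := HOLE.ends (hG (Finset.mem_coe.1 heG))
        have h2 := HOLE.ends (Finset.mem_coe.1 he2)
        rcases hcase with hc | hc
        · refine ⟨z', ?_, Reach.refl _ _⟩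
          rcases hends with ⟨h3, h4⟩ | ⟨h3, h4⟩
          · rw [← h4]; exact hc _ h1.2
          · rw [← h3]; exact hc _ h1.1
        · exfalso
          have h3 := hc _ h1.1
          have h4 := h2.1
          unfold Out at h3
          unfold inR at h4
          omega
  obtain ⟨u', hu', hru⟩ := key w hrw
  exact hBl ⟨u', w, hu', hwo, hru⟩

end Pool.Agent.H99.SL
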