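import Pool.Agent.H99.SL.Stm3
import Pool.Agent.H99.SL.AS

set_option autoImplicit false

/-!
The two-sided bound for the boxes and for the limit laws.
-/

namespace Pool.Agent.H99.SL

open H99L Pool.Agent.H99.DR Pool.Agent.H99.MS Filter Topology MeasureTheory
open TopologicalSpace (NonemptyCompacts)

theorem RE_zero' : RE 0 ((0 : ℕ) : ℤ) 0 ((0 : ℕ) : ℤ) = ∅ := by
  rw [Finset.eq_empty_iff_forall_notMem]
  rintro ⟨x, y, b⟩ h
  cases b
  · rw [mem_RE_false] at h
    simp only [Nat.cast_zero] at h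
    omega
  · rw [mem_RE_true] at h
    simp only [Nat.cast_zero] at h
    omega

/-- Both bounds with common constants. -/
def S_TWO : Prop := ∃ c C : ℝ, 0 < c ∧ 0 < C ∧ ∀ K : NonemptyCompacts ℂ, Cont K → ∀ ε : ℝ,
  0 < ε → ε ≤ 1 →
    (∀ n : ℕ, C ≤ ε * n →
      Real.exp (-(C * cost K ε)) ≤
        prob n (fun F => ∀ v, Largest n F v → dist (shape n F v) K ≤ ε) ∧
      prob n (fun F => ∃ v, Largest n F v ∧ dist (shape n F v) K ≤ ε) ≤
        C * Real.exp (-(c * cost K ε))) ∧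
    (∀ sel : ℕ → Finset Edge → ℤ × ℤ,
      (∀ n, 1 ≤ n → ∀ F, F ⊆ edges n → Largest n F (sel n F)) →
      ∀ [MeasurableSpace (NonemptyCompacts ℂ)] [BorelSpace (NonemptyCompacts ℂ)]
        (μ : Measure (NonemptyCompacts ℂ)) [IsProbabilityMeasure μ] (k : ℕ → ℕ),
        Tendsto k atTop atTop → ConvergesTo sel k μ →
        ENNReal.ofReal (Real.exp (-(C * cost K ε))) ≤ μ (Metric.closedBall K ε) ∧
        μ (Metric.ball K ε) ≤ ENNReal.ofReal (C * Real.exp (-(c * cost K ε))))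

theorem cost_nonneg (K : NonemptyCompacts ℂ) (ε : ℝ) : 0 ≤ cost K ε := by
  unfold cost
  positivity

theorem prob_mono {n : ℕ} {A B : Finset Edge → Prop} (h : ∀ F, F ⊆ edges n → A F → B F) :
    prob n A ≤ prob n B := by
  rw [prob_eq, prob_eq]
  apply Pr_mono okh
  intro F hF
  exact h F (by rw [edges_eq]; exact hF)

theorem two_sided (hlow : S_LOW2) (hup : ∃ c C : ℝ, 0 < c ∧ 0 < C ∧ ∀ K : NonemptyCompacts ℂ,
    Cont K → ∀ ε : ℝ, 0 < ε → ε ≤ 1 → ∀ n : ℕ, C ≤ ε * n →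
    prob n (fun F => ∃ v, Largest n F v ∧ dist (shape n F v) K ≤ ε) ≤
      C * Real.exp (-(c * cost K ε))) (port : S_PORT) : S_TWO := by
  obtain ⟨C1, hC1, h1⟩ := hlow
  obtain ⟨c, C2, hc, hC2, h2⟩ := hup
  have hfin : ∀ K : NonemptyCompacts ℂ, Cont K → ∀ ε : ℝ, 0 < ε → ε ≤ 1 → ∀ n : ℕ,
      C1 + C2 ≤ ε * n →
      Real.exp (-((C1 + C2) * cost K ε)) ≤
        prob n (fun F => ∀ v, Largest n F v → dist (shape n F v) K ≤ ε) ∧
      prob n (fun F => ∃ v, Largest n F v ∧ dist (shape n F v) K ≤ ε) ≤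
        (C1 + C2) * Real.exp (-(c * cost K ε)) := by
    intro K hK ε hε hε1 n hn
    have hcost := cost_nonneg K ε
    constructor
    · have h3 := h1 K hK ε hε hε1 0 n (by linarith) (by
        have : (0 : ℝ) ≤ ε * n := by positivity
        simpa using this) ∅ (Finset.empty_subset _)
      rw [RE_zero', Finset.sdiff_empty] at h3
      rw [prob_eq]
      have h4 : Real.exp (-((C1 + C2) * cost K ε)) ≤ Real.exp (-(C1 * cost K ε)) := by
        apply Real.exp_le_exp.mpr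
        nlinarith
      refine h4.trans ?_
      simpa using h3
    · refine (h2 K hK ε hε hε1 n (by linarith)).trans ?_
      have : 0 < Real.exp (-(c * cost K ε)) := Real.exp_pos _
      nlinarith
  refine ⟨c, C1 + C2, hc, by linarith, ?_⟩
  intro K hK ε hε hε1
  refine ⟨hfin K hK ε hε hε1, ?_⟩
  intro sel hsel _ _ μ _ k hk hconv
  have hev : ∀ᶠ i in atTop, C1 + C2 ≤ ε * k i ∧ 1 ≤ k i := by
    have e1 : ∀ᶠ m : ℕ in atTop, C1 + C2 ≤ ε * m ∧ 1 ≤ m := by
      filter_upwards [eventually_ge_atTop (⌈(C1 + C2) / ε⌉₊ + 1)] with m hm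
      have h3 : (C1 + C2) / ε ≤ m := by
        have h4 := Nat.le_ceil ((C1 + C2) / ε)
        have h5 : ((⌈(C1 + C2) / ε⌉₊ : ℕ) : ℝ) ≤ m := by exact_mod_cast (by omega)
        linarith
      rw [div_le_iff₀ hε] at h3
      exact ⟨by linarith, by omega⟩
    exact hk.eventually e1
  obtain ⟨p1, p2⟩ := port sel k μ hconv K ε (Real.exp (-((C1 + C2) * cost K ε))) hε
  obtain ⟨p3, p4⟩ := port sel k μ hconv K ε ((C1 + C2) * Real.exp (-(c * cost K ε))) hε
  refine ⟨p1 ?_, p4 ?_⟩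
  · filter_upwards [hev] with i hi
    refine (hfin K hK ε hε hε1 (k i) hi.1).1.trans (prob_mono ?_)
    intro F hF h
    exact h _ (hsel _ hi.2 F hF)
  · filter_upwards [hev] with i hi
    refine le_trans (prob_mono ?_) (hfin K hK ε hε hε1 (k i) hi.1).2
    intro F hF h
    exact ⟨_, hsel _ hi.2 F hF, h.le⟩

end Pool.Agent.H99.SL
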