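import Pool.Agent.H99.SL.Good

set_option autoImplicit false

/-!
The lower bound.
-/

namespace Pool.Agent.H99.SL

open H99L Pool.Agent.H99.DR Pool.Agent.H99.MS Filter Topology
open TopologicalSpace (NonemptyCompacts)

theorem half_pow_ge (N : ℕ) : Real.exp (-(N : ℝ)) ≤ (1 / 2 : ℝ) ^ N := by
  have h1 : Real.exp (-1) ≤ 1 / 2 := by
    rw [Real.exp_neg, inv_eq_one_div]
    apply one_div_le_one_div_of_le (by norm_num)
    linarith [Real.exp_one_gt_d9]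
  have h2 : Real.exp (-(N : ℝ)) = Real.exp (-1) ^ N := by
    rw [← Real.exp_nat_mul]; ring_nf
  rw [h2]
  exact pow_le_pow_left₀ (Real.exp_pos _).le h1 N

theorem low (net : S_NET) (nep : S_NEP) (blp : S_BLP) (both : S_BOTH) (hole : S_HOLE)
    (cond : S_COND) (geo : S_GEO) : S_LOW := by
  refine ⟨10 ^ 9, by norm_num, ?_⟩
  intro K hK ε hε hε1 k n hCn hCk G hG
  have hn0 : (0 : ℝ) < n := by
    by_contra h
    have : (n : ℝ) ≤ 0 := by linarith
    nlinarith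
  have hn : 0 < n := by exact_mod_cast hn0
  set s : ℕ := ⌊ε * n / 400⌋₊ with hs
  have hs1 : (s : ℝ) ≤ ε * n / 400 := Nat.floor_le (by positivity)
  have hs2 : ε * n / 400 < s + 1 := Nat.lt_floor_add_one _
  have hs5 : 5 ≤ s := by
    have : (5 : ℝ) < s + 1 := by linarith
    have : 5 < s + 1 := by exact_mod_cast this
    omega
  have hsr : (5 : ℝ) ≤ s := by exact_mod_cast hs5
  have hsn : 400 * (s : ℝ) ≤ ε * n := by linarith
  have hks : k ≤ s := by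
    have : (k : ℝ) < s + 1 := by
      have : (k : ℝ) ≤ ε * n / 400 := by
        have hk0 : (0 : ℝ) ≤ k := Nat.cast_nonneg k
        linarith
      linarith
    have : k < s + 1 := by exact_mod_cast this
    omega
  set q : ℕ := n / s with hq
  have hq1 : q * s ≤ n := Nat.div_mul_le_self n s
  have hq2 : n < (q + 1) * s := by
    have := Nat.lt_div_mul_add (a := n) (b := s) (by omega)
    nlinarith
  have hq400 : 400 ≤ q := by
    rw [hq, Nat.le_div_iff_mul_le (by omega)]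
    have : (400 : ℝ) * s ≤ n := by nlinarith
    exact_mod_cast this
  obtain ⟨M, hM⟩ : ∃ M, q = M + 2 := ⟨q - 2, by omega⟩
  have hMs : (M + 2) * s ≤ n := by rw [← hM]; exact hq1
  have hMs3 : n < (M + 3) * s := by
    have : q + 1 = M + 3 := by omega
    rw [← this]; exact hq2
  have hkn : k ≤ n := by nlinarith
  obtain ⟨hconn, hwide⟩ := geo K hK n s 60 M (by omega) (by norm_num) (by omega) (by nlinarith)
    hMs3.le
  set A := AA n s 60 M (K : Set ℂ) with hA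
  set S := RE 0 (n : ℤ) 0 n \ RE 0 (k : ℤ) 0 k with hS
  have hSn : S ⊆ RE 0 (n : ℤ) 0 n := Finset.sdiff_subset
  have hAne : A.Nonempty := by
    obtain ⟨p, hp⟩ := K.nonempty
    obtain ⟨a, ha, -⟩ := hwide p hp
    exact ⟨a, mem_AA.mpr ⟨p, hp, ha⟩⟩
  have hMsz : ((M : ℤ) + 2) * s ≤ n := by exact_mod_cast hMs
  have hs0 : (5 : ℤ) ≤ s := by exact_mod_cast hs5
  have hrange : ∀ a ∈ A, (2 * (s : ℤ) ≤ a.1 * s ∧ a.1 * s + 2 * s ≤ n) ∧
      (2 * (s : ℤ) ≤ a.2 * s ∧ a.2 * s + 2 * s ≤ n) := by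
    intro a ha
    obtain ⟨p, _, ⟨h1, h2⟩, ⟨h3, h4⟩, -⟩ := mem_AA.mp ha
    refine ⟨⟨by nlinarith, by nlinarith⟩, ⟨by nlinarith, by nlinarith⟩⟩
  have hksz : (k : ℤ) ≤ s := by exact_mod_cast hks
  have hrect : ∀ a ∈ A, RE (a.1 * s) (a.1 * s + 2 * s) (a.2 * s) (a.2 * s + s) ⊆ S ∧
      RE (a.1 * s) (a.1 * s + s) (a.2 * s) (a.2 * s + 2 * s) ⊆ S := by
    intro a ha
    obtain ⟨⟨h1, h2⟩, h3, h4⟩ := hrange a ha
    have hgen : ∀ x1 x2 y1 y2 : ℤ, 2 * (s : ℤ) ≤ x1 → x2 ≤ n → 0 ≤ y1 → y2 ≤ n →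
        RE x1 x2 y1 y2 ⊆ S := by
      intro x1 x2 y1 y2 g1 g2 g3 g4 e he
      rw [hS, Finset.mem_sdiff]
      refine ⟨RE_subset (by linarith) g2 g3 g4 he, ?_⟩
      intro he'
      obtain ⟨x, y, b⟩ := e
      cases b
      · simp only [mem_RE_false] at he he'
        omega
      · simp only [mem_RE_true] at he he'
        omega
    exact ⟨hgen _ _ _ _ h1 h2 (by linarith) (by linarith),
      hgen _ _ _ _ h1 (by linarith) (by linarith) h4⟩
  have hAn : ∀ a ∈ A, (0 ≤ a.1 * s ∧ a.1 * s + s ≤ n) ∧ (0 ≤ a.2 * s ∧ a.2 * s + s ≤ n) := by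
    intro a ha
    obtain ⟨⟨h1, h2⟩, h3, h4⟩ := hrange a ha
    exact ⟨⟨by linarith, by linarith⟩, ⟨by linarith, by linarith⟩⟩
  have hT5 : ∀ t ∈ TB s q, 5 ≤ t.2 := fun t ht => hs5.trans (TB_rad ht).1
  have hTF5 : ∀ t ∈ TF s q A, 5 ≤ t.2 := fun t ht => hT5 t (mem_TF.mp ht).1
  have hfar : ∀ a ∈ A, ∀ t ∈ TF s q A, 3 * (t.2 : ℤ) + 3 * s ≤ |t.1.1 - a.1 * s| ∨
      3 * (t.2 : ℤ) + 3 * s ≤ |t.1.2 - a.2 * s| := fun a ha t ht => (mem_TF.mp ht).2 a ha
  -- first stage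
  have p1 := both nep blp S s A (TF s q A) (by omega) hrect hTF5 hfar
  have p2 : Pr hf S (fun F => Net s A F ∧ ∀ t ∈ TF s q A, Bl t.1 t.2 F) ≤
      Pr hf S (fun F => ∃ Z ∈ ZZ n s A, IsCl Z (F ∪ G)) := by
    apply Pr_mono okh
    rintro F hF ⟨hNet, hB⟩
    exact exists_Z net hole (by omega) hks hq2 hkn hAne hconn hAn (hF.trans hSn) hG hNet hB
  -- second stage
  have p3 := cond S (RE 0 (k : ℤ) 0 k) G (ZZ n s A) (fun _ F' => ∀ t ∈ TB s q, Bl t.1 t.2 F')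
    ((1 / 2 : ℝ) ^ (188 * (TB s q).card)) Finset.sdiff_disjoint hG (by positivity)
    (fun Z _ => blp _ _ hT5) (by
      intro F hF Z hZ Z' hZ' hcl hcl' hE _
      by_contra hne
      obtain ⟨hZb, hZ1, hZ2⟩ := mem_ZZ.mp hZ
      obtain ⟨hZb', hZ1', hZ2'⟩ := mem_ZZ.mp hZ'
      obtain ⟨p, hp⟩ := K.nonempty
      obtain ⟨a, ha, b, hb, hab⟩ := hwide p hp
      have hab' : a.1 + 55 ≤ b.1 := by push_cast at hab; linarith
      obtain ⟨wa, hwa, hwa'⟩ := hZ2' a (mem_AA.mpr ⟨p, hp, ha⟩)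
      obtain ⟨wb, hwb, hwb'⟩ := hZ2' b (mem_AA.mpr ⟨p, hp, hb⟩)
      have hnot : wa ∉ Z := fun h => hne (IsCl_unique hcl hcl' h hwa)
      have hsmall := small_out hole (by omega) hks hq2 hkn hF hG hcl hE (hZb' hwa) hnot wa wb
        (Reach.refl _ _) ((hcl'.reach hwa).mpr hwb)
      simp only [inR] at hwa' hwb'
      have h1 : (54 : ℤ) * s ≤ wb.1 - wa.1 := by
        have : (55 : ℤ) * s ≤ b.1 * s - a.1 * s := by nlinarith
        linarith [hwa'.1.1, hwa'.1.2, hwb'.1.1, hwb'.1.2]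
      have h2 := abs_le.mp hsmall.1
      linarith [h2.1])
  have p4 : Pr hf S (fun F => ∃ Z ∈ ZZ n s A, IsCl Z (F ∪ G) ∧
      ∀ t ∈ TB s q, Bl t.1 t.2 (F \ EZ S Z)) ≤
      Pr hf S (fun F => ∀ v, Largest n (F ∪ G) v → dist (shape n (F ∪ G) v) K ≤ ε) := by
    apply Pr_mono okh
    rintro F hF ⟨Z, hZ, hcl, hE⟩
    have hH : F ∪ G ⊆ RE 0 (n : ℤ) 0 n := Finset.union_subset (hF.trans hSn)
      (hG.trans (RE_subset le_rfl (by exact_mod_cast hkn) le_rfl (by exact_mod_cast hkn)))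
    exact good_of hε hs5 hn hsn hH hwide hZ hcl
      (fun x hx hxZ => small_out hole (by omega) hks hq2 hkn hF hG hcl hE hx hxZ)
  refine le_trans ?_ (p3.trans p4)
  -- numbers
  have c1 : (TB s q).card ≤ (q + 1) ^ 2 + 1 := card_TB s q
  have c2 : (TF s q A).card ≤ (q + 1) ^ 2 + 1 := by
    refine le_trans (Finset.card_le_card ?_) c1
    intro t ht
    exact (mem_TF.mp ht).1
  have c3 : A.card ≤ (q + 1) ^ 2 := by
    have : A ⊆ Finset.Icc (2 : ℤ) M ×ˢ Finset.Icc (2 : ℤ) M := by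
      intro a ha
      obtain ⟨p, _, h1, h2, -⟩ := mem_AA.mp ha
      rw [Finset.mem_product, Finset.mem_Icc, Finset.mem_Icc]
      exact ⟨h1, h2⟩
    refine (Finset.card_le_card this).trans ?_
    rw [Finset.card_product, Int.card_Icc]
    have : ((M : ℤ) + 1 - 2).toNat ≤ q + 1 := by omega
    nlinarith
  have hqε : ((q : ℝ) + 1) ≤ 801 / ε := by
    have h1 : (q : ℝ) ≤ 800 / ε := by
      rw [le_div_iff₀ hε]
      have h2 : (q : ℝ) * s ≤ n := by exact_mod_cast hq1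
      have h3 : ε * n / 800 ≤ s := by linarith
      have h4 : (0 : ℝ) ≤ q := Nat.cast_nonneg q
      have h5 : (q : ℝ) * (ε * n / 800) ≤ n := (mul_le_mul_of_nonneg_left h3 h4).trans h2
      have h6 : (q : ℝ) * ε * n ≤ 800 * n := by nlinarith
      exact le_of_mul_le_mul_right h6 hn0
    have h2 : (1 : ℝ) ≤ 1 / ε := by rw [le_div_iff₀ hε]; linarith
    calc (q : ℝ) + 1 ≤ 800 / ε + 1 / ε := add_le_add h1 h2
      _ = 801 / ε := by ring
  have hN : ((188 * (TB s q).card + (94 * A.card + 188 * (TF s q A).card) : ℕ) : ℝ) ≤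
      10 ^ 9 / ε ^ 2 := by
    have h1 : 188 * (TB s q).card + (94 * A.card + 188 * (TF s q A).card) ≤
        846 * (q + 1) ^ 2 := by
      have : 1 ≤ (q + 1) ^ 2 := Nat.one_le_pow _ _ (by omega)
      omega
    have h2 : ((188 * (TB s q).card + (94 * A.card + 188 * (TF s q A).card) : ℕ) : ℝ) ≤
        846 * ((q : ℝ) + 1) ^ 2 := by exact_mod_cast h1
    refine h2.trans ?_
    have h3 : ((q : ℝ) + 1) ^ 2 ≤ (801 / ε) ^ 2 :=
      pow_le_pow_left₀ (by positivity) hqε 2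
    calc 846 * ((q : ℝ) + 1) ^ 2 ≤ 846 * (801 / ε) ^ 2 := by linarith
      _ = 846 * 801 ^ 2 / ε ^ 2 := by ring
      _ ≤ 10 ^ 9 / ε ^ 2 := by
          apply div_le_div_of_nonneg_right _ (by positivity)
          norm_num
  calc Real.exp (-(10 ^ 9 / ε ^ 2)) ≤
      Real.exp (-((188 * (TB s q).card + (94 * A.card + 188 * (TF s q A).card) : ℕ) : ℝ)) := by
        apply Real.exp_le_exp.mpr
        linarith
    _ ≤ (1 / 2 : ℝ) ^ (188 * (TB s q).card + (94 * A.card + 188 * (TF s q A).card)) :=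
        half_pow_ge _
    _ = (1 / 2 : ℝ) ^ (188 * (TB s q).card) *
        (1 / 2 : ℝ) ^ (94 * A.card + 188 * (TF s q A).card) := pow_add _ _ _
    _ ≤ (1 / 2 : ℝ) ^ (188 * (TB s q).card) *
        Pr hf S (fun F => ∃ Z ∈ ZZ n s A, IsCl Z (F ∪ G)) :=
        mul_le_mul_of_nonneg_left (p1.trans p2) (by positivity)

end Pool.Agent.H99.SL
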