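import Pool.Agent.H99.SL.Stm3
import Pool.Agent.H99.SL.Low

set_option autoImplicit false

/-!
The lower bound with the exact order of the exponent.
-/

namespace Pool.Agent.H99.SL

open H99L Pool.Agent.H99.DR Pool.Agent.H99.MS Filter Topology
open TopologicalSpace (NonemptyCompacts)

theorem diam_le_two {K : NonemptyCompacts ℂ} (hK : Cont K) : Metric.diam (K : Set ℂ) ≤ 2 := by
  apply Metric.diam_le_of_forall_dist_le (by norm_num)
  intro x hx y hy
  obtain ⟨a1, a2, a3, a4⟩ := hK.2 hx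
  obtain ⟨b1, b2, b3, b4⟩ := hK.2 hy
  have := dist_le_coord (z := x) (w := y) (R := 1) (by norm_num)
    (by rw [abs_le]; constructor <;> linarith) (by rw [abs_le]; constructor <;> linarith)
  linarith

theorem low2 (net : S_NET) (nep : S_NEP) (blp : S_BLP) (both : S_BOTH) (hole : S_HOLE)
    (cond : S_COND) (geo : S_GEO) (cnta : S_CNTA) (cntn : S_CNTN) (exz : S_EXZ) (wid : S_WID)
    (gd2 : S_GD2) : S_LOW2 := by
  refine ⟨10 ^ 13, by norm_num, ?_⟩
  intro K hK ε hε hε1 k n hCn hCk G hG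
  have hn0 : (0 : ℝ) < n := by
    by_contra h
    have : (n : ℝ) ≤ 0 := by linarith
    nlinarith
  have hn : 0 < n := by exact_mod_cast hn0
  set s : ℕ := ⌊ε * n / 400⌋₊ with hs
  have hs1 : (s : ℝ) ≤ ε * n / 400 := Nat.floor_le (by positivity)
  have hs2 : ε * n / 400 < s + 1 := Nat.lt_floor_add_one _
  have hs5 : 5 ≤ s := by
    have : (5 : ℝ) < s + 1 := by linarith
    have : 5 < s + 1 := by exact_mod_cast this
    omega
  have hsr : (5 : ℝ) ≤ s := by exact_mod_cast hs5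
  have hsn : 400 * (s : ℝ) ≤ ε * n := by linarith
  have hks : k ≤ s := by
    have : (k : ℝ) < s + 1 := by
      have : (k : ℝ) ≤ ε * n / 400 := by
        have hk0 : (0 : ℝ) ≤ k := Nat.cast_nonneg k
        linarith
      linarith
    have : k < s + 1 := by exact_mod_cast this
    omega
  set q : ℕ := n / s with hq
  have hq1 : q * s ≤ n := Nat.div_mul_le_self n s
  have hq2 : n < (q + 1) * s := by
    have := Nat.lt_div_mul_add (a := n) (b := s) (by omega)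
    nlinarith
  have hq400 : 400 ≤ q := by
    rw [hq, Nat.le_div_iff_mul_le (by omega)]
    have : (400 : ℝ) * s ≤ n := by nlinarith
    exact_mod_cast this
  obtain ⟨M, hM⟩ : ∃ M, q = M + 2 := ⟨q - 2, by omega⟩
  have hMs : (M + 2) * s ≤ n := by rw [← hM]; exact hq1
  have hMs3 : n < (M + 3) * s := by
    have : q + 1 = M + 3 := by omega
    rw [← this]; exact hq2
  have hkn : k ≤ n := by nlinarith
  obtain ⟨hconn, hwide⟩ := geo K hK n s 60 M (by omega) (by norm_num) (by omega) (by nlinarith)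
    hMs3.le
  set A := AA n s 60 M (K : Set ℂ) with hA
  set S := RE 0 (n : ℤ) 0 n \ RE 0 (k : ℤ) 0 k with hS
  have hSn : S ⊆ RE 0 (n : ℤ) 0 n := Finset.sdiff_subset
  have hAne : A.Nonempty := by
    obtain ⟨p, hp⟩ := K.nonempty
    obtain ⟨a, ha, -⟩ := hwide p hp
    exact ⟨a, mem_AA.mpr ⟨p, hp, ha⟩⟩
  have hMsz : ((M : ℤ) + 2) * s ≤ n := by exact_mod_cast hMs
  have hs0 : (5 : ℤ) ≤ s := by exact_mod_cast hs5
  have hrange : ∀ a ∈ A, (2 * (s : ℤ) ≤ a.1 * s ∧ a.1 * s + 2 * s ≤ n) ∧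
      (2 * (s : ℤ) ≤ a.2 * s ∧ a.2 * s + 2 * s ≤ n) := by
    intro a ha
    obtain ⟨p, _, ⟨h1, h2⟩, ⟨h3, h4⟩, -⟩ := mem_AA.mp ha
    refine ⟨⟨by nlinarith, by nlinarith⟩, ⟨by nlinarith, by nlinarith⟩⟩
  have hksz : (k : ℤ) ≤ s := by exact_mod_cast hks
  have hrect : ∀ a ∈ A, RE (a.1 * s) (a.1 * s + 2 * s) (a.2 * s) (a.2 * s + s) ⊆ S ∧
      RE (a.1 * s) (a.1 * s + s) (a.2 * s) (a.2 * s + 2 * s) ⊆ S := by
    intro a ha
    obtain ⟨⟨h1, h2⟩, h3, h4⟩ := hrange a ha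
    have hgen : ∀ x1 x2 y1 y2 : ℤ, 2 * (s : ℤ) ≤ x1 → x2 ≤ n → 0 ≤ y1 → y2 ≤ n →
        RE x1 x2 y1 y2 ⊆ S := by
      intro x1 x2 y1 y2 g1 g2 g3 g4 e he
      rw [hS, Finset.mem_sdiff]
      refine ⟨RE_subset (by linarith) g2 g3 g4 he, ?_⟩
      intro he'
      obtain ⟨x, y, b⟩ := e
      cases b
      · simp only [mem_RE_false] at he he'
        omega
      · simp only [mem_RE_true] at he he'
        omega
    exact ⟨hgen _ _ _ _ h1 h2 (by linarith) (by linarith),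
      hgen _ _ _ _ h1 (by linarith) (by linarith) h4⟩
  have hAn : ∀ a ∈ A, (0 ≤ a.1 * s ∧ a.1 * s + s ≤ n) ∧ (0 ≤ a.2 * s ∧ a.2 * s + s ≤ n) := by
    intro a ha
    obtain ⟨⟨h1, h2⟩, h3, h4⟩ := hrange a ha
    exact ⟨⟨by linarith, by linarith⟩, ⟨by linarith, by linarith⟩⟩
  have hTN : ∀ t ∈ TN s q A, t ∈ TF s q A := by
    classical
    intro t ht
    unfold TN at ht
    exact (Finset.mem_filter.mp ht).1
  have hTF5 : ∀ t ∈ TN s q A, 5 ≤ t.2 := fun t ht =>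
    hs5.trans (TB_rad (mem_TF.mp (hTN t ht)).1).1
  have hfar : ∀ a ∈ A, ∀ t ∈ TN s q A, 3 * (t.2 : ℤ) + 3 * s ≤ |t.1.1 - a.1 * s| ∨
      3 * (t.2 : ℤ) + 3 * s ≤ |t.1.2 - a.2 * s| := fun a ha t ht => (mem_TF.mp (hTN t ht)).2 a ha
  -- the second scale
  set D : ℝ := max (Metric.diam (K : Set ℂ)) ε with hD
  have hDε : ε ≤ D := le_max_right _ _
  have hD0 : 0 < D := hε.trans_le hDε
  have hD2 : D ≤ 2 := max_le (diam_le_two hK) (by linarith)
  obtain ⟨w, hsw, hw1, hw2⟩ : ∃ w : ℕ, s ≤ w ∧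
      (w = s ∨ 400 * (w : ℝ) ≤ Metric.diam (K : Set ℂ) * n) ∧ D * n / 800 ≤ w := by
    rcases le_total (Metric.diam (K : Set ℂ)) ε with h | h
    · refine ⟨s, le_rfl, Or.inl rfl, ?_⟩
      have : D = ε := max_eq_right h
      rw [this]
      linarith
    · have hDd : D = Metric.diam (K : Set ℂ) := max_eq_left h
      refine ⟨⌊D * n / 400⌋₊, ?_, Or.inr ?_, ?_⟩
      · rw [hs]
        apply Nat.floor_le_floor
        gcongr
      · have := Nat.floor_le (show 0 ≤ D * n / 400 by positivity)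
        rw [← hDd]
        linarith
      · have h1 := Nat.lt_floor_add_one (D * n / 400)
        have h2 : ε * n ≤ D * n := mul_le_mul_of_nonneg_right hDε hn0.le
        linarith
  set q' : ℕ := n / w with hq'
  have hw0 : 1 ≤ w := by omega
  have hq'1 : q' * w ≤ n := Nat.div_mul_le_self n w
  have hq'2 : n < (q' + 1) * w := by
    have := Nat.lt_div_mul_add (a := n) (b := w) (by omega)
    nlinarith
  have hT5 : ∀ t ∈ TB w q', 5 ≤ t.2 := fun t ht => (hs5.trans hsw).trans (TB_rad ht).1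
  have hkw : k ≤ w := hks.trans hsw
  -- first stage
  have p1 := both nep blp S s A (TN s q A) (by omega) hrect hTF5 hfar
  have p2 : Pr hf S (fun F => Net s A F ∧ ∀ t ∈ TN s q A, Bl t.1 t.2 F) ≤
      Pr hf S (fun F => ∃ Z ∈ ZZ n s A, IsCl Z (F ∪ G)) := by
    apply Pr_mono okh
    rintro F hF ⟨hNet, hB⟩
    exact exz net hole n s q k A (by omega) hks hq2 hkn hAne hconn hAn F G (hF.trans hSn) hG
      hNet hB
  -- second stage
  have p3 := cond S (RE 0 (k : ℤ) 0 k) G (ZZ n s A) (fun _ F' => ∀ t ∈ TB w q', Bl t.1 t.2 F')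
    ((1 / 2 : ℝ) ^ (188 * (TB w q').card)) Finset.sdiff_disjoint hG (by positivity)
    (fun Z _ => blp _ _ hT5) (by
      intro F hF Z hZ Z' hZ' hcl hcl' hE _
      by_contra hne
      obtain ⟨hZb, hZ1, hZ2⟩ := mem_ZZ.mp hZ
      obtain ⟨hZb', hZ1', hZ2'⟩ := mem_ZZ.mp hZ'
      obtain ⟨wa, hwa, wb, hwb, hab⟩ := wid K n s w M hs5 hsw hw1 hwide Z' hZ'
      have hnot : wa ∉ Z := fun h => hne (IsCl_unique hcl hcl' h hwa)
      have hsmall := small_out hole (by omega) hkw hq'2 hkn hF hG hcl hE (hZb' hwa) hnot wa wb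
        (Reach.refl _ _) ((hcl'.reach hwa).mpr hwb)
      have hw5 : (5 : ℤ) ≤ w := by exact_mod_cast hs5.trans hsw
      rcases hab with h | h
      · linarith [hsmall.1]
      · linarith [hsmall.2])
  have p4 : Pr hf S (fun F => ∃ Z ∈ ZZ n s A, IsCl Z (F ∪ G) ∧
      ∀ t ∈ TB w q', Bl t.1 t.2 (F \ EZ S Z)) ≤
      Pr hf S (fun F => ∀ v, Largest n (F ∪ G) v → dist (shape n (F ∪ G) v) K ≤ ε) := by
    apply Pr_mono okh
    rintro F hF ⟨Z, hZ, hcl, hE⟩
    have hH : F ∪ G ⊆ RE 0 (n : ℤ) 0 n := Finset.union_subset (hF.trans hSn)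
      (hG.trans (RE_subset le_rfl (by exact_mod_cast hkn) le_rfl (by exact_mod_cast hkn)))
    exact gd2 K ε n s w M hε hs5 hsw hn hsn (F ∪ G) hH hwide Z hZ hcl
      (wid K n s w M hs5 hsw hw1 hwide Z hZ)
      (fun x hx hxZ => small_out hole (by omega) hkw hq'2 hkn hF hG hcl hE hx hxZ)
  refine le_trans ?_ (p3.trans p4)
  -- numbers
  have c1 : (TB w q').card ≤ (q' + 1) ^ 2 + 1 := card_TB w q'
  have c3 : A.card ≤ 10 ^ 7 * cov K ε := cnta K ε n s M hε (by omega) (by linarith)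
  have c2 : (TN s q A).card ≤ 4000 * A.card := cntn s q A (by omega)
  have hqD : ((q' : ℝ) + 1) ≤ 802 / D := by
    have h1 : (q' : ℝ) ≤ 800 / D := by
      rw [le_div_iff₀ hD0]
      have h2 : (q' : ℝ) * w ≤ n := by exact_mod_cast hq'1
      have h4 : (0 : ℝ) ≤ q' := Nat.cast_nonneg q'
      have h5 : (q' : ℝ) * (D * n / 800) ≤ n := (mul_le_mul_of_nonneg_left hw2 h4).trans h2
      have h6 : (q' : ℝ) * D * n ≤ 800 * n := by nlinarith
      exact le_of_mul_le_mul_right h6 hn0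
    have h2 : (1 : ℝ) ≤ 2 / D := by rw [le_div_iff₀ hD0]; linarith
    calc (q' : ℝ) + 1 ≤ 800 / D + 2 / D := add_le_add h1 h2
      _ = 802 / D := by ring
  have hN1 : ((TB w q').card : ℝ) ≤ 10 ^ 6 / D ^ 2 := by
    have h1 : ((TB w q').card : ℝ) ≤ ((q' : ℝ) + 1) ^ 2 + 1 := by exact_mod_cast c1
    have h3 : ((q' : ℝ) + 1) ^ 2 ≤ (802 / D) ^ 2 := pow_le_pow_left₀ (by positivity) hqD 2
    have h4 : (1 : ℝ) ≤ (2 / D) ^ 2 := by
      have : (1 : ℝ) ≤ 2 / D := by rw [le_div_iff₀ hD0]; linarith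
      nlinarith
    calc ((TB w q').card : ℝ) ≤ (802 / D) ^ 2 + (2 / D) ^ 2 := by linarith
      _ = 643208 / D ^ 2 := by ring
      _ ≤ 10 ^ 6 / D ^ 2 := by
          apply div_le_div_of_nonneg_right _ (by positivity)
          norm_num
  have hN2 : ((94 * A.card + 188 * (TN s q A).card : ℕ) : ℝ) ≤ 10 ^ 13 * cov K ε := by
    have h1 : 94 * A.card + 188 * (TN s q A).card ≤ 10 ^ 13 * cov K ε := by omega
    exact_mod_cast h1
  have hN : ((188 * (TB w q').card + (94 * A.card + 188 * (TN s q A).card) : ℕ) : ℝ) ≤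
      10 ^ 13 * cost K ε := by
    unfold cost
    rw [← hD, Nat.cast_add, mul_add]
    have h5 : ((188 * (TB w q').card : ℕ) : ℝ) ≤ 10 ^ 13 * (1 / D ^ 2) := by
      push_cast
      calc 188 * ((TB w q').card : ℝ) ≤ 188 * (10 ^ 6 / D ^ 2) := by linarith
        _ = (188 * 10 ^ 6) * (1 / D ^ 2) := by ring
        _ ≤ 10 ^ 13 * (1 / D ^ 2) := by
            apply mul_le_mul_of_nonneg_right (by norm_num) (by positivity)
    linarith
  calc Real.exp (-(10 ^ 13 * cost K ε)) ≤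
      Real.exp (-((188 * (TB w q').card + (94 * A.card + 188 * (TN s q A).card) : ℕ) : ℝ)) := by
        apply Real.exp_le_exp.mpr
        linarith
    _ ≤ (1 / 2 : ℝ) ^ (188 * (TB w q').card + (94 * A.card + 188 * (TN s q A).card)) :=
        half_pow_ge _
    _ = (1 / 2 : ℝ) ^ (188 * (TB w q').card) *
        (1 / 2 : ℝ) ^ (94 * A.card + 188 * (TN s q A).card) := pow_add _ _ _
    _ ≤ (1 / 2 : ℝ) ^ (188 * (TB w q').card) *
        Pr hf S (fun F => ∃ Z ∈ ZZ n s A, IsCl Z (F ∪ G)) :=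
        mul_le_mul_of_nonneg_left (p1.trans p2) (by positivity)

end Pool.Agent.H99.SL
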