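import Pool.Agent.H99.SL.Stm

set_option autoImplicit false

/-! Project SL, MUL: one configuration at many scales. -/

namespace Pool.Agent.H99.SL

open H99L Pool.Agent.H99.DR Pool.Agent.H99.MS Filter Topology
open TopologicalSpace (NonemptyCompacts)

/-- the bad event at the scale `n` -/
def Bad (ε : ℝ) (K : NonemptyCompacts ℂ) (n : ℕ) (F : Finset Edge) : Prop :=
  ∃ v, Largest n F v ∧ ε < dist (shape n F v) K

theorem RE_zero : RE 0 ((0 : ℕ) : ℤ) 0 ((0 : ℕ) : ℤ) = ∅ := by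
  rw [Finset.eq_empty_iff_forall_notMem]
  rintro ⟨x, y, b⟩ h
  cases b
  · rw [mem_RE_false] at h
    simp only [Nat.cast_zero] at h
    omega
  · rw [mem_RE_true] at h
    simp only [Nat.cast_zero] at h
    omega

theorem RE_mono' {n m : ℕ} (h : n ≤ m) : RE 0 (n : ℤ) 0 n ⊆ RE 0 (m : ℤ) 0 m :=
  RE_subset le_rfl (by exact_mod_cast h) le_rfl (by exact_mod_cast h)

/-- the probability of the bad event, outside a hole -/
theorem bad_le {C : ℝ} (hC : ∀ K : NonemptyCompacts ℂ, Cont K → ∀ ε : ℝ, 0 < ε → ε ≤ 1 →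
    ∀ k n : ℕ, C ≤ ε * n → C * k ≤ ε * n → ∀ G : Finset Edge, G ⊆ RE 0 (k : ℤ) 0 k →
      Real.exp (-(C / ε ^ 2)) ≤ Pr hf (RE 0 (n : ℤ) 0 n \ RE 0 (k : ℤ) 0 k)
        (fun F => ∀ v, Largest n (F ∪ G) v → dist (shape n (F ∪ G) v) K ≤ ε))
    {K : NonemptyCompacts ℂ} (hK : Cont K) {ε : ℝ} (hε : 0 < ε) (hε1 : ε ≤ 1) {k n : ℕ}
    (h1 : C ≤ ε * n) (h2 : C * k ≤ ε * n) {G : Finset Edge} (hG : G ⊆ RE 0 (k : ℤ) 0 k) :
    Pr hf (RE 0 (n : ℤ) 0 n \ RE 0 (k : ℤ) 0 k) (fun F => Bad ε K n (F ∪ G)) ≤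
      1 - Real.exp (-(C / ε ^ 2)) := by
  have h := hC K hK ε hε hε1 k n h1 h2 G hG
  have e : Pr hf (RE 0 (n : ℤ) 0 n \ RE 0 (k : ℤ) 0 k) (fun F => Bad ε K n (F ∪ G)) =
      1 - Pr hf (RE 0 (n : ℤ) 0 n \ RE 0 (k : ℤ) 0 k)
        (fun F => ∀ v, Largest n (F ∪ G) v → dist (shape n (F ∪ G) v) K ≤ ε) := by
    rw [← Pr_not]
    refine Pr_congr fun F _ => ?_
    unfold Bad
    push Not
    rfl
  rw [e]
  linarith

theorem mul : S_MUL := by
  classical
  rintro ⟨C, hC1, hC⟩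
  refine ⟨C, hC1, ?_⟩
  intro K hK ε hε hε1 k M m h0 hk hM
  obtain ⟨q, hq⟩ : ∃ q, q = 1 - Real.exp (-(C / ε ^ 2)) := ⟨_, rfl⟩
  have hq0 : 0 ≤ q := by
    rw [hq]
    have : Real.exp (-(C / ε ^ 2)) ≤ 1 := by
      rw [Real.exp_le_one_iff]
      have : 0 ≤ C / ε ^ 2 := by positivity
      linarith
    linarith
  have hsucc : ∀ i, k i ≤ k (i + 1) := by
    intro i
    have h1 := hk i
    have h2 : (0 : ℝ) ≤ k i := Nat.cast_nonneg _
    have h3 : (0 : ℝ) ≤ k (i + 1) := Nat.cast_nonneg _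
    have : (k i : ℝ) ≤ k (i + 1) := by nlinarith
    exact_mod_cast this
  have hmono : Monotone k := monotone_nat_of_le_succ hsucc
  have hCk : ∀ i, C ≤ ε * k i := by
    intro i
    refine h0.trans ?_
    have : (k 0 : ℝ) ≤ k i := by exact_mod_cast hmono (Nat.zero_le i)
    exact mul_le_mul_of_nonneg_left this hε.le
  -- the statement on the box of the last scale
  have main : ∀ M : ℕ, Pr hf (RE 0 (k M : ℤ) 0 (k M)) (fun F => ∀ i ≤ M,
      Bad ε K (k i) (F ∩ edges (k i))) ≤ q ^ (M + 1) := by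
    intro M
    induction M with
    | zero =>
      have h1 := bad_le hC hK hε hε1 (k := 0) (n := k 0) (G := ∅) (hCk 0)
        (by rw [Nat.cast_zero, mul_zero]; positivity) (Finset.empty_subset _)
      rw [RE_zero, Finset.sdiff_empty] at h1
      rw [zero_add, pow_one, hq]
      refine le_trans (Pr_mono okh fun F hF h => ?_) h1
      have h2 := h 0 le_rfl
      rw [edges_eq, Finset.inter_eq_left.mpr hF] at h2
      rw [Finset.union_empty]
      exact h2
    | succ M ih =>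
      have hsub : RE 0 (k M : ℤ) 0 (k M) ⊆ RE 0 (k (M + 1) : ℤ) 0 (k (M + 1)) :=
        RE_mono' (hsucc M)
      have hun : RE 0 (k (M + 1) : ℤ) 0 (k (M + 1)) = RE 0 (k M : ℤ) 0 (k M) ∪
          (RE 0 (k (M + 1) : ℤ) 0 (k (M + 1)) \ RE 0 (k M : ℤ) 0 (k M)) := by
        rw [Finset.union_sdiff_of_subset hsub]
      have hdis : Disjoint (RE 0 (k M : ℤ) 0 (k M))
          (RE 0 (k (M + 1) : ℤ) 0 (k (M + 1)) \ RE 0 (k M : ℤ) 0 (k M)) :=
        Finset.disjoint_sdiff
      have hinner : ∀ G, G ⊆ RE 0 (k M : ℤ) 0 (k M) →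
          Ex hf (RE 0 (k (M + 1) : ℤ) 0 (k (M + 1)) \ RE 0 (k M : ℤ) 0 (k M))
            (fun F => ind (∀ i ≤ M + 1, Bad ε K (k i) ((G ∪ F) ∩ edges (k i)))) ≤
          ind (∀ i ≤ M, Bad ε K (k i) (G ∩ edges (k i))) * q := by
        intro G hG
        have h1 := bad_le hC hK hε hε1 (k := k M) (n := k (M + 1)) (hCk (M + 1)) (hk M) hG
        rw [← hq] at h1
        refine le_trans ?_ (mul_le_mul_of_nonneg_left h1 (ind_nonneg _))
        unfold Pr
        rw [← Ex_mul_left]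
        refine Ex_mono okh fun F hF => ?_
        rw [← ind_and]
        refine ind_mono fun h => ⟨fun i hi => ?_, ?_⟩
        · have h2 := h i (by omega)
          have h3 : (G ∪ F) ∩ edges (k i) = G ∩ edges (k i) := by
            rw [Finset.union_inter_distrib_right]
            have : F ∩ edges (k i) = ∅ := by
              rw [Finset.eq_empty_iff_forall_notMem]
              intro e he
              rw [Finset.mem_inter, edges_eq] at he
              exact (Finset.mem_sdiff.1 (hF he.1)).2 (RE_mono' (hmono hi) he.2)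
            rw [this, Finset.union_empty]
          rwa [h3] at h2
        · have h2 := h (M + 1) le_rfl
          have h3 : (G ∪ F) ∩ edges (k (M + 1)) = F ∪ G := by
            rw [edges_eq, Finset.inter_eq_left.mpr, Finset.union_comm]
            exact Finset.union_subset (hG.trans hsub) (hF.trans Finset.sdiff_subset)
          rwa [h3] at h2
      calc Pr hf (RE 0 (k (M + 1) : ℤ) 0 (k (M + 1))) (fun F => ∀ i ≤ M + 1,
            Bad ε K (k i) (F ∩ edges (k i)))
          = Ex hf (RE 0 (k M : ℤ) 0 (k M)) (fun G =>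
              Ex hf (RE 0 (k (M + 1) : ℤ) 0 (k (M + 1)) \ RE 0 (k M : ℤ) 0 (k M))
              (fun F => ind (∀ i ≤ M + 1, Bad ε K (k i) ((G ∪ F) ∩ edges (k i))))) := by
            unfold Pr
            conv_lhs => rw [hun]
            rw [Ex_union hdis]
        _ ≤ Ex hf (RE 0 (k M : ℤ) 0 (k M)) (fun G =>
              ind (∀ i ≤ M, Bad ε K (k i) (G ∩ edges (k i))) * q) := Ex_mono okh hinner
        _ = Pr hf (RE 0 (k M : ℤ) 0 (k M)) (fun F => ∀ i ≤ M,
              Bad ε K (k i) (F ∩ edges (k i))) * q := by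
            rw [Ex_mul_right]; rfl
        _ ≤ q ^ (M + 1) * q := mul_le_mul_of_nonneg_right ih hq0
        _ = q ^ (M + 1 + 1) := (pow_succ _ _).symm
  rw [prob_eq]
  have hloc := pr_restrict hM (fun F => ∀ i ≤ M, Bad ε K (k i) (F ∩ edges (k i)))
  rw [← hq]
  refine le_trans (le_of_eq ?_) (main M)
  rw [← hloc]
  refine Pr_congr fun F _ => ?_
  refine forall₂_congr fun i hi => ?_
  have h3 : F ∩ RE 0 (k M : ℤ) 0 (k M) ∩ edges (k i) = F ∩ edges (k i) := by
    rw [Finset.inter_assoc, edges_eq, Finset.inter_eq_right.mpr (RE_mono' (hmono hi))]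
  rw [h3]
  rfl

end Pool.Agent.H99.SL
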