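import Pool.Agent.H99.SL.Stm2

set_option autoImplicit false

/-! Project SL, NEP: FKG for the network. -/

namespace Pool.Agent.H99.SL

open H99L Pool.Agent.H99.DR Pool.Agent.H99.MS

theorem nep : S_NEP := by
  classical
  intro S s A hs
  have hsz : (2 : ℤ) ≤ s := by exact_mod_cast hs
  have hrsw : (1 / 2 : ℝ) ^ 47 ≤ H99L.hh (1 / 2) (2 * s) s :=
    rsw (n := (s : ℤ) / 2) (by omega) (by omega) (by omega) (by omega)
  induction A using Finset.induction_on with
  | empty =>
    intro _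
    rw [Finset.card_empty, mul_zero, pow_zero]
    refine le_of_eq (Pr_true S fun F _ => ?_).symm
    intro a ha
    simp at ha
  | insert a A ha ih =>
    intro hS
    have ih' := ih fun b hb => hS b (Finset.mem_insert_of_mem hb)
    obtain ⟨s1, s2⟩ := hS a (Finset.mem_insert_self a A)
    have e1 := pr_LRc (1 / 2) (LRE_subset_RE.trans s1)
    have e2 := pr_TBc (1 / 2) (TBE_subset_RE.trans s2)
    have d1 : a.1 * (s : ℤ) + 2 * s - a.1 * s = 2 * s := by ring
    have d2 : a.2 * (s : ℤ) + s - a.2 * s = s := by ring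
    have d3 : a.2 * (s : ℤ) + 2 * s - a.2 * s = 2 * s := by ring
    have d4 : a.1 * (s : ℤ) + s - a.1 * s = s := by ring
    rw [d1, d2] at e1
    rw [d3, d4] at e2
    have i1 := Pr_harris okh (LRc_incr S (a.1 * s) (a.1 * s + 2 * s) (a.2 * s) (a.2 * s + s))
      (TBc_incr S (a.1 * s) (a.1 * s + s) (a.2 * s) (a.2 * s + 2 * s))
    rw [show Pr hf S (LRc (a.1 * s) (a.1 * s + 2 * s) (a.2 * s) (a.2 * s + s)) = _ from e1,
      show Pr hf S (TBc (a.1 * s) (a.1 * s + s) (a.2 * s) (a.2 * s + 2 * s)) = _ from e2] at i1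
    have c1 : IncrE S (fun F => LRc (a.1 * s) (a.1 * s + 2 * s) (a.2 * s) (a.2 * s + s) F ∧
        TBc (a.1 * s) (a.1 * s + s) (a.2 * s) (a.2 * s + 2 * s) F) :=
      fun F G hFG _ hF => ⟨hF.1.mono hFG, hF.2.mono hFG⟩
    have c2 : IncrE S (Net s A) :=
      fun F G hFG _ hF b hb => ⟨(hF b hb).1.mono hFG, (hF b hb).2.mono hFG⟩
    have i2 := Pr_harris okh c1 c2
    have hn : (0 : ℝ) ≤ (1 / 2) ^ 47 := by positivity
    have hn' : 0 ≤ H99L.hh (1 / 2) (2 * s) s := hn.trans hrsw
    calc (1 / 2 : ℝ) ^ (94 * (insert a A).card)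
        = ((1 / 2) ^ 47 * (1 / 2) ^ 47) * (1 / 2) ^ (94 * A.card) := by
          rw [Finset.card_insert_of_notMem ha, ← pow_add, ← pow_add]
          congr 1; ring
      _ ≤ (H99L.hh (1 / 2) (2 * s) s * H99L.hh (1 / 2) (2 * s) s) * Pr hf S (Net s A) := by
          refine mul_le_mul (mul_le_mul hrsw hrsw hn hn') ih' (by positivity) (by positivity)
      _ ≤ Pr hf S (fun F => LRc (a.1 * s) (a.1 * s + 2 * s) (a.2 * s) (a.2 * s + s) F ∧
            TBc (a.1 * s) (a.1 * s + s) (a.2 * s) (a.2 * s + 2 * s) F) * Pr hf S (Net s A) :=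
          mul_le_mul_of_nonneg_right i1 (Pr_nonneg okh _ _)
      _ ≤ _ := i2
      _ ≤ Pr hf S (Net s (insert a A)) := by
          refine Pr_mono okh fun F _ hF b hb => ?_
          rcases Finset.mem_insert.1 hb with rfl | hb
          · exact hF.1
          · exact hF.2 b hb

end Pool.Agent.H99.SL
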