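import Pool.Agent.H99.SL.Stm2

set_option autoImplicit false

/-! Project SL, NET: the crossings of a connected network belong to one cluster. -/

namespace Pool.Agent.H99.SL

open H99L Pool.Agent.H99.DR Pool.Agent.H99.MS

/-- a horizontal and a vertical crossing which share a cell -/
theorem net_meet {F : Finset Edg} {A B C D a b c d : ℤ} (hA : A ≤ a) (hab : a < b) (hB : b ≤ B)
    (hC : C ≤ c) (hcd : c < d) (hD : d ≤ D) {y y' x x' : ℤ}
    (h1 : Reach (↑F ∩ ↑(LRE A B c d)) (A, y) (B, y'))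
    (h2 : Reach (↑F ∩ ↑(TBE a b C D)) (x, C) (x', D)) : Reach (↑F) (A, y) (x, C) := by
  have h1' := h1.mono (Set.inter_subset_inter_right (↑F)
    (by exact_mod_cast LRE_subset_RE : (↑(LRE A B c d) : Set Edg) ⊆ ↑(RE A B c d)))
  have h2' := h2.mono (Set.inter_subset_inter_right (↑F)
    (by exact_mod_cast TBE_subset_RE : (↑(TBE a b C D) : Set Edg) ⊆ ↑(RE a b C D)))
  have h := cross_meet hA hab hB hC hcd hD h1' hA hB h2' hC hD
  exact h.mono Set.inter_subset_left

theorem net : S_NET := by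
  intro s A F hs hA hconn hnet
  have hsz : (1 : ℤ) ≤ s := by exact_mod_cast hs
  -- the crossings
  have hh : ∀ a : ℤ × ℤ, ∃ y y' x x' : ℤ, a ∈ A → (a.2 * s ≤ y ∧ y ≤ a.2 * s + s) ∧
      Reach (↑F ∩ ↑(LRE (a.1 * s) (a.1 * s + 2 * s) (a.2 * s) (a.2 * s + s))) (a.1 * s, y)
        (a.1 * s + 2 * s, y') ∧
      Reach (↑F ∩ ↑(TBE (a.1 * s) (a.1 * s + s) (a.2 * s) (a.2 * s + 2 * s))) (x, a.2 * s)
        (x', a.2 * s + 2 * s) := by
    intro a
    by_cases ha : a ∈ A
    · obtain ⟨⟨y, y', h1, -, h3⟩, ⟨x, x', -, -, h6⟩⟩ := hnet a ha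
      exact ⟨y, y', x, x', fun _ => ⟨h1, h3, h6⟩⟩
    · exact ⟨0, 0, 0, 0, fun h => absurd h ha⟩
  choose y y' x x' hx using hh
  -- neighbours
  have hstep : ∀ a b, a ∈ A → b ∈ A →
      ((b.1 = a.1 + 1 ∧ b.2 = a.2) ∨ (b.1 = a.1 ∧ b.2 = a.2 + 1)) →
      Reach (↑F) (a.1 * s, y a) (b.1 * s, y b) := by
    intro a b ha hb h
    obtain ⟨a0, a1, a2⟩ := hx a ha
    obtain ⟨b0, b1, b2⟩ := hx b hb
    -- inside one cell
    have own : ∀ c, c ∈ A → Reach (↑F) (c.1 * s, y c) (x c, c.2 * s) := by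
      intro c hc
      obtain ⟨c0, c1, c2⟩ := hx c hc
      exact net_meet (A := c.1 * s) (B := c.1 * s + 2 * s) (C := c.2 * s)
        (D := c.2 * s + 2 * s) (a := c.1 * s) (b := c.1 * s + s) (c := c.2 * s)
        (d := c.2 * s + s) le_rfl (by linarith) (by linarith) le_rfl (by linarith) (by linarith)
        c1 c2
    rcases h with ⟨h1, h2⟩ | ⟨h1, h2⟩
    · -- the horizontal crossing of `a` meets the vertical crossing of `b`
      rw [h2] at b2
      have hm := net_meet (A := a.1 * s) (B := a.1 * s + 2 * s) (C := a.2 * s)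
        (D := a.2 * s + 2 * s) (a := b.1 * s) (b := b.1 * s + s) (c := a.2 * s)
        (d := a.2 * s + s) (by rw [h1]; linarith) (by linarith)
        (by rw [h1]; linarith) le_rfl (by linarith) (by linarith) a1 b2
      have := own b hb
      rw [h2] at this
      exact hm.trans this.symm
    · -- the horizontal crossing of `b` meets the vertical crossing of `a`
      rw [h1] at b1
      have hm := net_meet (A := a.1 * s) (B := a.1 * s + 2 * s) (C := a.2 * s)
        (D := a.2 * s + 2 * s) (a := a.1 * s) (b := a.1 * s + s) (c := b.2 * s)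
        (d := b.2 * s + s) le_rfl (by linarith) (by linarith)
        (by rw [h2]; linarith) (by linarith) (by rw [h2]; linarith) b1 a2
      rw [h1]
      exact (own a ha).trans hm.symm
  have hnb : ∀ a b, Nb A a b → Reach (↑F) (a.1 * s, y a) (b.1 * s, y b) := by
    rintro a b ⟨ha, hb, hab⟩
    have hcase : ((b.1 = a.1 + 1 ∧ b.2 = a.2) ∨ (b.1 = a.1 ∧ b.2 = a.2 + 1)) ∨
        ((a.1 = b.1 + 1 ∧ a.2 = b.2) ∨ (a.1 = b.1 ∧ a.2 = b.2 + 1)) := by
      rcases abs_cases (a.1 - b.1) with ⟨e1, _⟩ | ⟨e1, _⟩ <;>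
        rcases abs_cases (a.2 - b.2) with ⟨e2, _⟩ | ⟨e2, _⟩ <;> omega
    rcases hcase with h | h
    · exact hstep a b ha hb h
    · exact (hstep b a hb ha h).symm
  obtain ⟨a₀, ha₀⟩ := hA
  have hin : ∀ a ∈ A, inR (a.1 * s) (a.1 * s + s) (a.2 * s) (a.2 * s + s) (a.1 * s, y a) := by
    intro a ha
    obtain ⟨h1, -, -⟩ := hx a ha
    unfold inR
    exact ⟨⟨le_rfl, by simp only; linarith⟩, h1⟩
  refine ⟨(a₀.1 * s, y a₀), ⟨a₀, ha₀, hin a₀ ha₀⟩, fun a ha => ⟨_, hin a ha, ?_⟩⟩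
  have h := hconn a₀ ha₀ a ha
  induction h with
  | refl => exact Reach.refl _ _
  | @tail b c _ hbc ih => exact (ih hbc.1).trans (hnb b c hbc)

end Pool.Agent.H99.SL
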