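import Pool.Agent.H99.SL.Stm3

set_option autoImplicit false

/-!
Project SL, stub PORT: portmanteau for balls.
-/

namespace Pool.Agent.H99.SL

open H99L Pool.Agent.H99.DR Pool.Agent.H99.MS Filter Topology MeasureTheory
open TopologicalSpace (NonemptyCompacts)

/-- `mean` of a function which dominates the indicator of an event. -/
theorem PORT.prob_le_mean (n : ℕ) (A : Finset Edge → Prop) (g : Finset Edge → ℝ)
    (h0 : ∀ F, 0 ≤ g F) (h1 : ∀ F, A F → 1 ≤ g F) : prob n A ≤ mean n g := by
  classical
  unfold prob mean
  apply div_le_div_of_nonneg_right _ (by positivity)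
  rw [Finset.card_eq_sum_ones, Finset.sum_filter]
  push_cast
  apply Finset.sum_le_sum
  intro F _
  by_cases hA : A F
  · simp only [hA, if_true]
    exact h1 F hA
  · simp only [hA, if_false]
    exact h0 F

theorem PORT.mean_le_prob (n : ℕ) (A : Finset Edge → Prop) (g : Finset Edge → ℝ)
    (h0 : ∀ F, g F ≤ 1) (h1 : ∀ F, ¬ A F → g F ≤ 0) : mean n g ≤ prob n A := by
  classical
  unfold prob mean
  apply div_le_div_of_nonneg_right _ (by positivity)
  rw [Finset.card_eq_sum_ones, Finset.sum_filter]
  push_cast
  apply Finset.sum_le_sum
  intro F _
  by_cases hA : A F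
  · simp only [hA, if_true]
    exact h0 F
  · simp only [hA, if_false]
    exact h1 F hA

theorem port : S_PORT := by
  intro sel k _ _ μ _ hconv K ε p hε
  refine ⟨?_, ?_⟩
  · intro hp
    -- closed balls of radius `ε + δ`
    have key : ∀ m : ℕ, ENNReal.ofReal p ≤ μ (Metric.closedBall K (ε + 1 / (m + 1 : ℝ))) := by
      intro m
      set δ : ℝ := 1 / (m + 1 : ℝ) with hδ
      have hδ0 : 0 < δ := by positivity
      let g : NonemptyCompacts ℂ → ℝ := fun x => max 0 (min 1 (1 - (dist x K - ε) / δ))
      have hg : Continuous g := by fun_prop
      have hg0 : ∀ x, 0 ≤ g x := fun x => le_max_left _ _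
      have hg1 : ∀ x, g x ≤ 1 := fun x => max_le (by norm_num) (min_le_left _ _)
      have hgB : ∀ x, dist x K ≤ ε → 1 ≤ g x := by
        intro x hx
        apply le_max_of_le_right
        apply le_min le_rfl
        have : (dist x K - ε) / δ ≤ 0 := div_nonpos_of_nonpos_of_nonneg (by linarith) hδ0.le
        linarith
      have hgO : ∀ x, x ∉ Metric.closedBall K (ε + δ) → g x = 0 := by
        intro x hx
        rw [Metric.mem_closedBall] at hx
        push Not at hx
        apply max_eq_left
        apply min_le_of_right_le
        have : 1 ≤ (dist x K - ε) / δ := by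
          rw [le_div_iff₀ hδ0]; linarith
        linarith
      have hlim := hconv g hg ⟨1, fun x => by rw [abs_of_nonneg (hg0 x)]; exact hg1 x⟩
      have h1 : p ≤ ∫ x, g x ∂μ := by
        apply ge_of_tendsto hlim
        filter_upwards [hp] with i hi
        exact hi.trans (PORT.prob_le_mean _ _ _ (fun F => hg0 _) (fun F hF => hgB _ hF))
      have h2 : ∫ x, g x ∂μ ≤ (μ (Metric.closedBall K (ε + δ))).toReal := by
        have hms : MeasurableSet (Metric.closedBall K (ε + δ)) :=
          Metric.isClosed_closedBall.measurableSet
        calc ∫ x, g x ∂μ ≤ ∫ x, (Metric.closedBall K (ε + δ)).indicator (fun _ => (1 : ℝ)) x ∂μ := by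
              apply integral_mono_of_nonneg (Eventually.of_forall hg0)
              · exact (integrable_const (1 : ℝ)).indicator hms
              · apply Eventually.of_forall
                intro x
                by_cases hx : x ∈ Metric.closedBall K (ε + δ)
                · simp only [Set.indicator_of_mem hx]
                  exact hg1 x
                · simp only [Set.indicator_of_notMem hx]
                  exact (hgO x hx).le
          _ = (μ (Metric.closedBall K (ε + δ))).toReal := by
              rw [integral_indicator_const _ hms]
              simp [Measure.real]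
      rw [ENNReal.ofReal_le_iff_le_toReal (measure_ne_top μ _)]
      exact h1.trans h2
    have hInter : (⋂ m : ℕ, Metric.closedBall K (ε + 1 / (m + 1 : ℝ))) =
        Metric.closedBall K ε := by
      ext x
      rw [Set.mem_iInter, Metric.mem_closedBall]
      constructor
      · intro h
        have hl : Tendsto (fun m : ℕ => ε + 1 / (m + 1 : ℝ)) atTop (𝓝 (ε + 0)) :=
          tendsto_const_nhds.add tendsto_one_div_add_atTop_nhds_zero_nat
        rw [add_zero] at hl
        exact ge_of_tendsto hl (Eventually.of_forall (fun m => Metric.mem_closedBall.1 (h m)))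
      · intro h m
        rw [Metric.mem_closedBall]
        have : (0 : ℝ) < 1 / (m + 1 : ℝ) := by positivity
        linarith
    have hanti : Antitone (fun m : ℕ => Metric.closedBall K (ε + 1 / (m + 1 : ℝ))) := by
      intro a b hab
      apply Metric.closedBall_subset_closedBall
      have hab' : (a : ℝ) ≤ b := by exact_mod_cast hab
      have : 1 / ((b : ℝ) + 1) ≤ 1 / ((a : ℝ) + 1) :=
        one_div_le_one_div_of_le (by positivity) (by linarith)
      linarith
    have hlim := tendsto_measure_iInter_atTop (μ := μ)
      (s := fun m : ℕ => Metric.closedBall K (ε + 1 / (m + 1 : ℝ)))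
      (fun m => Metric.isClosed_closedBall.measurableSet.nullMeasurableSet) hanti
      ⟨0, measure_ne_top μ _⟩
    rw [hInter] at hlim
    exact ge_of_tendsto hlim (Eventually.of_forall key)
  · intro hp
    have key : ∀ m : ℕ, μ (Metric.closedBall K (ε - 1 / (m + 1 : ℝ))) ≤ ENNReal.ofReal p := by
      intro m
      set δ : ℝ := 1 / (m + 1 : ℝ) with hδ
      have hδ0 : 0 < δ := by positivity
      let g : NonemptyCompacts ℂ → ℝ := fun x => max 0 (min 1 ((ε - dist x K) / δ))
      have hg : Continuous g := by fun_prop
      have hg0 : ∀ x, 0 ≤ g x := fun x => le_max_left _ _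
      have hg1 : ∀ x, g x ≤ 1 := fun x => max_le (by norm_num) (min_le_left _ _)
      have hgB : ∀ x, ¬ dist x K < ε → g x ≤ 0 := by
        intro x hx
        push Not at hx
        apply max_le le_rfl
        apply min_le_of_right_le
        exact div_nonpos_of_nonpos_of_nonneg (by linarith) hδ0.le
      have hgO : ∀ x, x ∈ Metric.closedBall K (ε - δ) → 1 ≤ g x := by
        intro x hx
        rw [Metric.mem_closedBall] at hx
        apply le_max_of_le_right
        apply le_min le_rfl
        rw [le_div_iff₀ hδ0]
        linarith
      have hlim := hconv g hg ⟨1, fun x => by rw [abs_of_nonneg (hg0 x)]; exact hg1 x⟩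
      have h1 : ∫ x, g x ∂μ ≤ p := by
        apply le_of_tendsto hlim
        filter_upwards [hp] with i hi
        exact (PORT.mean_le_prob _ _ _ (fun F => hg1 _) (fun F hF => hgB _ hF)).trans hi
      have h2 : (μ (Metric.closedBall K (ε - δ))).toReal ≤ ∫ x, g x ∂μ := by
        have hms : MeasurableSet (Metric.closedBall K (ε - δ)) :=
          Metric.isClosed_closedBall.measurableSet
        have hgi : Integrable g μ := by
          apply Integrable.mono' (integrable_const (1 : ℝ)) hg.aestronglyMeasurable
          apply Eventually.of_forall
          intro x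
          rw [Real.norm_of_nonneg (hg0 x)]
          exact hg1 x
        calc (μ (Metric.closedBall K (ε - δ))).toReal =
              ∫ x, (Metric.closedBall K (ε - δ)).indicator (fun _ => (1 : ℝ)) x ∂μ := by
              rw [integral_indicator_const _ hms]
              simp [Measure.real]
          _ ≤ ∫ x, g x ∂μ := by
              apply integral_mono_of_nonneg _ hgi
              · apply Eventually.of_forall
                intro x
                by_cases hx : x ∈ Metric.closedBall K (ε - δ)
                · simp only [Set.indicator_of_mem hx]
                  exact hgO x hx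
                · simp only [Set.indicator_of_notMem hx]
                  exact hg0 x
              · apply Eventually.of_forall
                intro x
                exact Set.indicator_nonneg (fun _ _ => zero_le_one) x
      rw [← ENNReal.ofReal_toReal (measure_ne_top μ (Metric.closedBall K (ε - δ)))]
      exact ENNReal.ofReal_le_ofReal (h2.trans h1)
    have hUnion : (⋃ m : ℕ, Metric.closedBall K (ε - 1 / (m + 1 : ℝ))) = Metric.ball K ε := by
      ext x
      rw [Set.mem_iUnion, Metric.mem_ball]
      constructor
      · rintro ⟨m, hm⟩
        rw [Metric.mem_closedBall] at hm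
        have : (0 : ℝ) < 1 / (m + 1 : ℝ) := by positivity
        linarith
      · intro h
        obtain ⟨m, hm⟩ := exists_nat_one_div_lt (show (0 : ℝ) < ε - dist x K by linarith)
        refine ⟨m, ?_⟩
        rw [Metric.mem_closedBall]
        linarith
    have hmono : Monotone (fun m : ℕ => Metric.closedBall K (ε - 1 / (m + 1 : ℝ))) := by
      intro a b hab
      apply Metric.closedBall_subset_closedBall
      have hab' : (a : ℝ) ≤ b := by exact_mod_cast hab
      have : 1 / ((b : ℝ) + 1) ≤ 1 / ((a : ℝ) + 1) :=
        one_div_le_one_div_of_le (by positivity) (by linarith)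
      linarith
    have hlim := tendsto_measure_iUnion_atTop (μ := μ) hmono
    rw [hUnion] at hlim
    exact le_of_tendsto hlim (Eventually.of_forall key)

end Pool.Agent.H99.SL
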