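import Pool.Agent.H99.SL.Stm

/-! SL-SUP (helper63): the support of every limit law -/

set_option autoImplicit false

namespace Pool.Agent.H99.SL

open H99L Pool.Agent.H99.DR Pool.Agent.H99.MS Filter Topology MeasureTheory
open TopologicalSpace (NonemptyCompacts)

namespace SUPaux

/-- the segment of an open edge of the cluster -/
theorem seg_sub {F : Finset Edge} {v : ℤ × ℤ} {e : Edge} (he : e ∈ F) (hc : fst e ∈ cluster F v) :
    segment ℝ (pt (fst e)) (pt (snd e)) ⊆ body F v := by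
  intro z hz
  refine Or.inr ?_
  simp only [Set.mem_iUnion]
  exact ⟨e, ⟨he, hc⟩, hz⟩

theorem path {F : Finset Edge} {v w : ℤ × ℤ} (h : Reach (↑F : Set Edge) v w) :
    ∃ t ⊆ body F v, pt v ∈ t ∧ pt w ∈ t ∧ IsPreconnected t := by
  induction h with
  | refl =>
    exact ⟨{pt v}, by
      rintro _ rfl
      exact Or.inl ⟨v, mem_cluster.2 Relation.ReflTransGen.refl, rfl⟩, rfl, rfl,
      isPreconnected_singleton⟩
  | @tail b c hb hs ih =>
    obtain ⟨t, ht, hv, hbt, hp⟩ := ih
    obtain ⟨e, he, hor⟩ := hs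
    have hc : Reach (↑F : Set Edge) v c := Relation.ReflTransGen.tail hb ⟨e, he, hor⟩
    have he' : e ∈ F := he
    have key : fst e ∈ cluster F v ∧ pt b ∈ segment ℝ (pt (fst e)) (pt (snd e)) ∧
        pt c ∈ segment ℝ (pt (fst e)) (pt (snd e)) := by
      rcases hor with ⟨h1, h2⟩ | ⟨h1, h2⟩
      · have h1' : fst e = b := h1
        have h2' : snd e = c := h2
        rw [h1', h2']
        exact ⟨mem_cluster.2 hb, left_mem_segment _ _ _, right_mem_segment _ _ _⟩
      · have h1' : fst e = c := h1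
        have h2' : snd e = b := h2
        rw [h1', h2']
        exact ⟨mem_cluster.2 hc, right_mem_segment _ _ _, left_mem_segment _ _ _⟩
    refine ⟨t ∪ segment ℝ (pt (fst e)) (pt (snd e)), Set.union_subset ht (seg_sub he' key.1),
      Or.inl hv, Or.inr key.2.2, IsPreconnected.union (pt b) hbt key.2.1 hp
        (convex_segment _ _).isPreconnected⟩

theorem body_conn (F : Finset Edge) (v : ℤ × ℤ) : IsConnected (body F v) := by
  refine ⟨nonempty_body F v, ?_⟩
  refine isPreconnected_of_forall (pt v) fun y hy => ?_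
  rcases hy with ⟨w, hw, rfl⟩ | hy
  · exact path (mem_cluster.1 hw)
  · simp only [Set.mem_iUnion, Set.mem_ofPred_eq] at hy
    obtain ⟨e, ⟨he, hc⟩, hy⟩ := hy
    obtain ⟨t, ht, hv, hbt, hp⟩ := path (mem_cluster.1 hc)
    exact ⟨t ∪ segment ℝ (pt (fst e)) (pt (snd e)), Set.union_subset ht (seg_sub he hc),
      Or.inl hv, Or.inr hy, IsPreconnected.union (pt (fst e)) hbt (left_mem_segment _ _ _) hp
        (convex_segment _ _).isPreconnected⟩

theorem shape_conn (n : ℕ) (F : Finset Edge) (v : ℤ × ℤ) :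
    IsConnected (shape n F v : Set ℂ) :=
  (body_conn F v).image _ (by fun_prop)

/-- the large square is convex -/
theorem convex_big (N : ℝ) : Convex ℝ {z : ℂ | 0 ≤ z.re ∧ z.re ≤ N ∧ 0 ≤ z.im ∧ z.im ≤ N} := by
  intro x hx y hy a b ha hb hab
  obtain ⟨x1, x2, x3, x4⟩ := hx
  obtain ⟨y1, y2, y3, y4⟩ := hy
  have hb' : b = 1 - a := by linarith
  have e1 : (a • x + b • y).re = a * x.re + b * y.re := by simp
  have e2 : (a • x + b • y).im = a * x.im + b * y.im := by simp
  refine ⟨?_, ?_, ?_, ?_⟩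
  · rw [e1]; positivity
  · rw [e1]
    calc a * x.re + b * y.re ≤ a * N + b * N := by gcongr
      _ = N := by rw [← add_mul, hab, one_mul]
  · rw [e2]; positivity
  · rw [e2]
    calc a * x.im + b * y.im ≤ a * N + b * N := by gcongr
      _ = N := by rw [← add_mul, hab, one_mul]

theorem shape_sq {n : ℕ} (hn : 1 ≤ n) {F : Finset Edge} (hF : F ⊆ RE 0 (n : ℤ) 0 n) {v : ℤ × ℤ}
    (hv : v ∈ box n) : (shape n F v : Set ℂ) ⊆ square := by
  have hn0 : (0 : ℝ) < n := by exact_mod_cast hn
  rintro _ ⟨b, hb, rfl⟩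
  have hb' : b ∈ body F v := hb
  have h1 : pt '' cluster F v ⊆ {z : ℂ | 0 ≤ z.re ∧ z.re ≤ n ∧ 0 ≤ z.im ∧ z.im ≤ n} := by
    rintro _ ⟨w, hw, rfl⟩
    have hwb : w ∈ bxV n := reach_box hF hv (mem_cluster.mp hw)
    rw [mem_bxV, inR] at hwb
    have k1 : (0 : ℝ) ≤ w.1 := by exact_mod_cast hwb.1.1
    have k2 : (w.1 : ℝ) ≤ n := by exact_mod_cast hwb.1.2
    have k3 : (0 : ℝ) ≤ w.2 := by exact_mod_cast hwb.2.1
    have k4 : (w.2 : ℝ) ≤ n := by exact_mod_cast hwb.2.2
    exact ⟨k1, k2, k3, k4⟩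
  obtain ⟨b1, b2, b3, b4⟩ := ((body_subset F v).trans (convexHull_min h1 (convex_big n))) hb'
  show b / (n : ℂ) ∈ square
  refine ⟨?_, ?_, ?_, ?_⟩
  · rw [Complex.div_natCast_re]; positivity
  · rw [Complex.div_natCast_re, div_le_one hn0]; exact b2
  · rw [Complex.div_natCast_im]; positivity
  · rw [Complex.div_natCast_im, div_le_one hn0]; exact b4

theorem shape_cont {n : ℕ} (hn : 1 ≤ n) {F : Finset Edge} (hF : F ⊆ RE 0 (n : ℤ) 0 n) {v : ℤ × ℤ}
    (hv : v ∈ box n) : Cont (shape n F v) := ⟨shape_conn n F v, shape_sq hn hF hv⟩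

theorem isClosed_square : IsClosed square := by
  unfold square
  have h1 : IsClosed {z : ℂ | 0 ≤ z.re} := isClosed_le continuous_const Complex.continuous_re
  have h2 : IsClosed {z : ℂ | z.re ≤ 1} := isClosed_le Complex.continuous_re continuous_const
  have h3 : IsClosed {z : ℂ | 0 ≤ z.im} := isClosed_le continuous_const Complex.continuous_im
  have h4 : IsClosed {z : ℂ | z.im ≤ 1} := isClosed_le Complex.continuous_im continuous_const
  exact h1.inter (h2.inter (h3.inter h4))

/-- points of a nearby compact set -/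
theorem near_pt {x K : NonemptyCompacts ℂ} {δ : ℝ} (h : dist x K < δ) :
    (∀ a ∈ (x : Set ℂ), ∃ b ∈ (K : Set ℂ), dist a b < δ) ∧
      ∀ b ∈ (K : Set ℂ), ∃ a ∈ (x : Set ℂ), dist a b < δ := by
  rw [Metric.NonemptyCompacts.dist_eq] at h
  have hfin : Metric.hausdorffEDist (x : Set ℂ) (K : Set ℂ) ≠ ⊤ :=
    Metric.hausdorffEDist_ne_top_of_nonempty_of_bounded x.nonempty K.nonempty
      x.isCompact.isBounded K.isCompact.isBounded
  refine ⟨fun a ha => Metric.exists_dist_lt_of_hausdorffDist_lt ha h hfin, fun b hb => ?_⟩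
  obtain ⟨a, ha, hab⟩ := Metric.exists_dist_lt_of_hausdorffDist_lt' hb h hfin
  exact ⟨a, ha, hab⟩

/-- a set which is not a continuum of the square has a neighbourhood without continua -/
theorem not_cont {K : NonemptyCompacts ℂ} (hK : ¬ Cont K) :
    ∃ δ : ℝ, 0 < δ ∧ ∀ x : NonemptyCompacts ℂ, dist x K < δ → ¬ Cont x := by
  unfold Cont at hK
  rw [not_and_or] at hK
  rcases hK with hK | hK
  · have hK' : ¬ IsPreconnected (K : Set ℂ) := fun h => hK ⟨K.nonempty, h⟩
    unfold IsPreconnected at hK'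
    push Not at hK'
    obtain ⟨u, v, hu, hv, hKuv, hKu, hKv, hemp⟩ := hK'
    have hA : IsCompact ((K : Set ℂ) \ v) := K.isCompact.diff hv
    have hB : IsCompact ((K : Set ℂ) \ u) := K.isCompact.diff hu
    have hdis : Disjoint ((K : Set ℂ) \ v) ((K : Set ℂ) \ u) := by
      rw [Set.disjoint_left]
      rintro z ⟨h1, h2⟩ ⟨_, h3⟩
      rcases hKuv h1 with h4 | h4
      · exact h3 h4
      · exact h2 h4
    obtain ⟨δ, hδ, hd⟩ := hdis.exists_thickenings hA hB.isClosed
    refine ⟨δ, hδ, fun x hx hC => ?_⟩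
    obtain ⟨hn1, hn2⟩ := near_pt hx
    have hcov : (x : Set ℂ) ⊆ Metric.thickening δ ((K : Set ℂ) \ v) ∪
        Metric.thickening δ ((K : Set ℂ) \ u) := by
      intro a ha
      obtain ⟨b, hb, hab⟩ := hn1 a ha
      by_cases hbv : b ∈ v
      · refine Or.inr (Metric.mem_thickening_iff.2 ⟨b, ⟨hb, fun hbu => ?_⟩, hab⟩)
        have : b ∈ (K : Set ℂ) ∩ (u ∩ v) := ⟨hb, hbu, hbv⟩
        rw [hemp] at this
        exact this
      · exact Or.inl (Metric.mem_thickening_iff.2 ⟨b, ⟨hb, hbv⟩, hab⟩)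
    have h1 : ((x : Set ℂ) ∩ Metric.thickening δ ((K : Set ℂ) \ v)).Nonempty := by
      obtain ⟨b, hb, hbu⟩ := hKu
      obtain ⟨a, ha, hab⟩ := hn2 b hb
      refine ⟨a, ha, Metric.mem_thickening_iff.2 ⟨b, ⟨hb, fun hbv => ?_⟩, hab⟩⟩
      have : b ∈ (K : Set ℂ) ∩ (u ∩ v) := ⟨hb, hbu, hbv⟩
      rw [hemp] at this
      exact this
    have h2 : ((x : Set ℂ) ∩ Metric.thickening δ ((K : Set ℂ) \ u)).Nonempty := by
      obtain ⟨b, hb, hbv⟩ := hKv
      obtain ⟨a, ha, hab⟩ := hn2 b hb
      refine ⟨a, ha, Metric.mem_thickening_iff.2 ⟨b, ⟨hb, fun hbu => ?_⟩, hab⟩⟩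
      have : b ∈ (K : Set ℂ) ∩ (u ∩ v) := ⟨hb, hbu, hbv⟩
      rw [hemp] at this
      exact this
    obtain ⟨z, _, hz1, hz2⟩ := hC.1.isPreconnected _ _ Metric.isOpen_thickening
      Metric.isOpen_thickening hcov h1 h2
    exact (Set.disjoint_left.1 hd) hz1 hz2
  · rw [Set.not_subset] at hK
    obtain ⟨b, hb, hbs⟩ := hK
    obtain ⟨δ, hδ, hball⟩ := Metric.isOpen_iff.1 isClosed_square.isOpen_compl b hbs
    refine ⟨δ, hδ, fun x hx hC => ?_⟩
    obtain ⟨a, ha, hab⟩ := (near_pt hx).2 b hb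
    exact hball (Metric.mem_ball.2 hab) (hC.2 ha)

/-- the test function -/
noncomputable def bump (K : NonemptyCompacts ℂ) (r : ℝ) (x : NonemptyCompacts ℂ) : ℝ :=
  max 0 (1 - dist x K / r)

theorem bump_cont (K : NonemptyCompacts ℂ) (r : ℝ) : Continuous (bump K r) := by
  unfold bump
  fun_prop

theorem bump_nonneg (K : NonemptyCompacts ℂ) (r : ℝ) (x : NonemptyCompacts ℂ) : 0 ≤ bump K r x :=
  le_max_left _ _

theorem bump_le {K : NonemptyCompacts ℂ} {r : ℝ} (hr : 0 < r) (x : NonemptyCompacts ℂ) :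
    bump K r x ≤ 1 := by
  refine max_le zero_le_one ?_
  have : 0 ≤ dist x K / r := by positivity
  linarith

theorem bump_zero {K : NonemptyCompacts ℂ} {r : ℝ} (hr : 0 < r) {x : NonemptyCompacts ℂ}
    (h : r ≤ dist x K) : bump K r x = 0 := by
  refine max_eq_left ?_
  have : 1 ≤ dist x K / r := by rwa [one_le_div hr]
  linarith

theorem bump_pos {K : NonemptyCompacts ℂ} {r : ℝ} (hr : 0 < r) {x : NonemptyCompacts ℂ}
    (h : dist x K < r) : 0 < bump K r x := by
  refine lt_max_of_lt_right ?_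
  have : dist x K / r < 1 := by rwa [div_lt_one hr]
  linarith

theorem bump_half {K : NonemptyCompacts ℂ} {r : ℝ} (hr : 0 < r) {x : NonemptyCompacts ℂ}
    (h : dist x K ≤ r / 2) : 1 / 2 ≤ bump K r x := by
  refine le_max_of_le_right ?_
  have : dist x K / r ≤ 1 / 2 := by
    rw [div_le_iff₀ hr]
    linarith
  linarith

theorem bump_bd {K : NonemptyCompacts ℂ} {r : ℝ} (hr : 0 < r) :
    ∃ B : ℝ, ∀ x, |bump K r x| ≤ B :=
  ⟨1, fun x => by rw [abs_of_nonneg (bump_nonneg K r x)]; exact bump_le hr x⟩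

theorem RE_zero : RE 0 ((0 : ℕ) : ℤ) 0 ((0 : ℕ) : ℤ) = ∅ := by
  ext ⟨x, y, b⟩
  cases b
  · simp only [mem_RE_false]
    simp only [Finset.notMem_empty, iff_false]
    push_cast
    omega
  · simp only [mem_RE_true]
    simp only [Finset.notMem_empty, iff_false]
    push_cast
    omega

end SUPaux

open SUPaux

theorem sup : S_SUP := by
  intro hLOW sel hsel _ _ μ _ k hk hconv K
  have hk1 : ∀ᶠ i in atTop, 1 ≤ k i := hk.eventually_ge_atTop 1
  constructor
  · intro hpos
    by_contra hK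
    obtain ⟨δ, hδ, hδK⟩ := not_cont hK
    have hlim := hconv (bump K δ) (bump_cont K δ) (bump_bd hδ)
    have hz : ∀ᶠ i in atTop, mean (k i) (fun F => bump K δ (shape (k i) F (sel (k i) F))) = 0 := by
      filter_upwards [hk1] with i hi
      rw [mean_eq]
      have : Ex hf (RE 0 ((k i : ℕ) : ℤ) 0 (k i)) (fun F => bump K δ (shape (k i) F (sel (k i) F))) =
          Ex hf (RE 0 ((k i : ℕ) : ℤ) 0 (k i)) (fun _ => 0) := by
        apply Ex_congr
        intro F hF
        have hL := hsel (k i) hi F (by rw [edges_eq]; exact hF)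
        have hC := shape_cont hi hF hL.1
        apply bump_zero hδ
        by_contra hcon
        push Not at hcon
        exact hδK _ hcon hC
      rw [this, Ex_const]
    have hint : ∫ x, bump K δ x ∂μ = 0 := by
      refine tendsto_nhds_unique hlim ?_
      exact tendsto_const_nhds.congr' (hz.mono fun i hi => hi.symm)
    have hintg : Integrable (bump K δ) μ := by
      refine Integrable.of_bound (bump_cont K δ).aestronglyMeasurable 1 ?_
      exact Eventually.of_forall fun x => by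
        rw [Real.norm_eq_abs, abs_of_nonneg (bump_nonneg K δ x)]
        exact bump_le hδ x
    have hae := (integral_eq_zero_iff_of_nonneg (fun x => bump_nonneg K δ x) hintg).1 hint
    have hnull : μ (Metric.ball K δ) = 0 := by
      refine measure_mono_null ?_ hae
      intro x hx
      have : 0 < bump K δ x := bump_pos hδ (Metric.mem_ball.1 hx)
      exact fun h => this.ne' h
    exact (hpos δ hδ).ne' hnull
  · intro hK r hr
    obtain ⟨C, hC1, hL⟩ := hLOW
    set ε : ℝ := min (r / 2) 1 with hε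
    have hε0 : 0 < ε := lt_min (by positivity) one_pos
    have hε1 : ε ≤ 1 := min_le_right _ _
    have hεr : ε ≤ r / 2 := min_le_left _ _
    have hlim := hconv (bump K r) (bump_cont K r) (bump_bd hr)
    have hlow : ∀ᶠ i in atTop, 1 / 2 * Real.exp (-(C / ε ^ 2)) ≤
        mean (k i) (fun F => bump K r (shape (k i) F (sel (k i) F))) := by
      have hkR : Tendsto (fun i => ((k i : ℕ) : ℝ)) atTop atTop :=
        tendsto_natCast_atTop_atTop.comp hk
      filter_upwards [hk1, hkR.eventually_ge_atTop (C / ε)] with i hi hi2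
      rw [div_le_iff₀ hε0] at hi2
      have h1 := hL K hK ε hε0 hε1 0 (k i) (by linarith)
        (by
          rw [Nat.cast_zero, mul_zero]
          positivity) ∅ (Finset.empty_subset _)
      rw [RE_zero, Finset.sdiff_empty] at h1
      rw [mean_eq]
      have h2 : 1 / 2 * Pr hf (RE 0 ((k i : ℕ) : ℤ) 0 (k i))
          (fun F => ∀ v, Largest (k i) (F ∪ ∅) v → dist (shape (k i) (F ∪ ∅) v) K ≤ ε) ≤
          Ex hf (RE 0 ((k i : ℕ) : ℤ) 0 (k i)) (fun F => bump K r (shape (k i) F (sel (k i) F))) := by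
        unfold Pr
        rw [← Ex_mul_left]
        apply Ex_mono okh
        intro F hF
        by_cases hev : ∀ v, Largest (k i) (F ∪ ∅) v → dist (shape (k i) (F ∪ ∅) v) K ≤ ε
        · rw [ind_of hev, mul_one]
          apply bump_half hr
          rw [Finset.union_empty] at hev
          exact (hev _ (hsel (k i) hi F (by rw [edges_eq]; exact hF))).trans hεr
        · rw [ind_not_of hev, mul_zero]
          exact bump_nonneg _ _ _
      exact (mul_le_mul_of_nonneg_left h1 (by norm_num)).trans h2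
    have hint : 1 / 2 * Real.exp (-(C / ε ^ 2)) ≤ ∫ x, bump K r x ∂μ :=
      ge_of_tendsto hlim hlow
    have hexp := Real.exp_pos (-(C / ε ^ 2))
    rw [pos_iff_ne_zero]
    intro hnull
    have hae : (fun x => bump K r x) =ᵐ[μ] fun _ => 0 := by
      refine measure_mono_null ?_ hnull
      intro x hx
      rw [Metric.mem_ball]
      by_contra hcon
      push Not at hcon
      exact hx (bump_zero hr hcon)
    rw [integral_congr_ae hae, integral_zero] at hint
    linarith

end Pool.Agent.H99.SL
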