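import Pool.Agent.H99.MS.Conv

set_option autoImplicit false

/-!
Project SL: all shapes of the largest critical percolation cluster.  Statements.
`Pr hf S A`: probability of the event `A` for the random subset `F` of `S` (fair coins);
`prob n A = Pr hf (RE 0 n 0 n) A` (`DR.prob_eq`), `edges n = RE 0 n 0 n` (`DR.edges_eq`),
`mean n f = Ex hf (RE 0 n 0 n) f` (`MS.mean_eq`).
-/

namespace Pool.Agent.H99.SL

open H99L Pool.Agent.H99.DR Pool.Agent.H99.MS Filter Topology MeasureTheory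
open TopologicalSpace (NonemptyCompacts)

/-- The closed unit square. -/
def square : Set ℂ := {z | 0 ≤ z.re ∧ z.re ≤ 1 ∧ 0 ≤ z.im ∧ z.im ≤ 1}

/-- `K` is a continuum in the unit square. -/
def Cont (K : NonemptyCompacts ℂ) : Prop := IsConnected (K : Set ℂ) ∧ (K : Set ℂ) ⊆ square

/-- Lower bound, with a hole: for every configuration `G` inside the small box `Λ_k`. -/
def S_LOW : Prop := ∃ C : ℝ, 1 ≤ C ∧ ∀ K : NonemptyCompacts ℂ, Cont K → ∀ ε : ℝ, 0 < ε → ε ≤ 1 →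
  ∀ k n : ℕ, C ≤ ε * n → C * k ≤ ε * n → ∀ G : Finset Edge, G ⊆ RE 0 (k : ℤ) 0 k →
    Real.exp (-(C / ε ^ 2)) ≤ Pr hf (RE 0 (n : ℤ) 0 n \ RE 0 (k : ℤ) 0 k)
      (fun F => ∀ v, Largest n (F ∪ G) v → dist (shape n (F ∪ G) v) K ≤ ε)

/-- Upper bound for the square itself: a largest cluster which is `ε n`-dense in the box. -/
def S_UP : Prop := ∃ c C : ℝ, 0 < c ∧ 0 < C ∧ ∀ ε : ℝ, 0 < ε → ε ≤ 1 → ∀ n : ℕ, C ≤ ε * n →
  prob n (fun F => ∃ v, Largest n F v ∧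
    ∀ p ∈ square, ∃ q ∈ (shape n F v : Set ℂ), dist p q ≤ ε) ≤ C * Real.exp (-(c / ε ^ 2))

/-- The laws of the rescaled largest clusters converge to `μ` along the sizes `k i`. -/
def ConvergesTo (sel : ℕ → Finset Edge → ℤ × ℤ) (k : ℕ → ℕ)
    [MeasurableSpace (NonemptyCompacts ℂ)] (μ : Measure (NonemptyCompacts ℂ)) : Prop :=
  ∀ g : NonemptyCompacts ℂ → ℝ, Continuous g → (∃ B : ℝ, ∀ x, |g x| ≤ B) →
    Tendsto (fun i => mean (k i) (fun F => g (shape (k i) F (sel (k i) F)))) atTop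
      (𝓝 (∫ x, g x ∂μ))

/-- The support of every limit law is the set of all continua of the unit square. -/
def S_SUP : Prop := S_LOW → ∀ sel : ℕ → Finset Edge → ℤ × ℤ,
  (∀ n, 1 ≤ n → ∀ F, F ⊆ edges n → Largest n F (sel n F)) →
  ∀ [MeasurableSpace (NonemptyCompacts ℂ)] [BorelSpace (NonemptyCompacts ℂ)]
    (μ : Measure (NonemptyCompacts ℂ)) [IsProbabilityMeasure μ] (k : ℕ → ℕ),
    Tendsto k atTop atTop → ConvergesTo sel k μ →
    ∀ K : NonemptyCompacts ℂ, (∀ r : ℝ, 0 < r → 0 < μ (Metric.ball K r)) ↔ Cont K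

/-- One configuration at many scales. -/
def S_MUL : Prop := S_LOW → ∃ C : ℝ, 1 ≤ C ∧ ∀ K : NonemptyCompacts ℂ, Cont K → ∀ ε : ℝ, 0 < ε →
  ε ≤ 1 → ∀ (k : ℕ → ℕ) (M m : ℕ), C ≤ ε * k 0 → (∀ i, C * k i ≤ ε * k (i + 1)) → k M ≤ m →
    prob m (fun F => ∀ i ≤ M, ∃ v, Largest (k i) (F ∩ edges (k i)) v ∧
      ε < dist (shape (k i) (F ∩ edges (k i)) v) K) ≤ (1 - Real.exp (-(C / ε ^ 2))) ^ (M + 1)

end Pool.Agent.H99.SL
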