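import Pool.Agent.H99.SL.Stm

set_option autoImplicit false

/-!
Project SL, sub-statements for the lower bound `S_LOW`.
-/

namespace Pool.Agent.H99.SL

open H99L Pool.Agent.H99.DR Pool.Agent.H99.MS Filter Topology
open TopologicalSpace (NonemptyCompacts)

/-- The closed annulus around `c` (inner radius `m`, outer radius `3 m`) is blocked: no open path
inside the large box leads from the small box to the boundary of the large box. -/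
def Bl (c : Vtx) (m : ℤ) (F : Finset Edg) : Prop :=
  ¬ ∃ u v, In c m u ∧ Out c (3 * m) v ∧
    Reach ((↑F : Set Edg) ∩ ↑(RE (c.1 - 3 * m) (c.1 + 3 * m) (c.2 - 3 * m) (c.2 + 3 * m))) u v

/-- The network: for every `a ∈ A` a horizontal crossing of the `2 s` by `s` rectangle and a
vertical crossing of the `s` by `2 s` rectangle with lower left corner `s a`. -/
def Net (s : ℕ) (A : Finset (ℤ × ℤ)) (F : Finset Edg) : Prop :=
  ∀ a ∈ A, LRc (a.1 * s) (a.1 * s + 2 * s) (a.2 * s) (a.2 * s + s) F ∧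
    TBc (a.1 * s) (a.1 * s + s) (a.2 * s) (a.2 * s + 2 * s) F

/-- Nearest neighbours inside `A`. -/
def Nb (A : Finset (ℤ × ℤ)) (a b : ℤ × ℤ) : Prop :=
  a ∈ A ∧ b ∈ A ∧ |a.1 - b.1| + |a.2 - b.2| = 1

/-- `A` is connected. -/
def Conn4 (A : Finset (ℤ × ℤ)) : Prop := ∀ a ∈ A, ∀ b ∈ A, Relation.ReflTransGen (Nb A) a b

/-- (deterministic) the crossings of a connected network belong to one cluster. Tools:
`H99L.cross_meet` (L/Circ.lean), `LRE_subset_RE`, `TBE_subset_RE`, `first_exit`. -/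
def S_NET : Prop := ∀ (s : ℕ) (A : Finset (ℤ × ℤ)) (F : Finset Edg), 1 ≤ s → A.Nonempty →
  Conn4 A → Net s A F → ∃ v0 : Vtx, (∃ a ∈ A, inR (a.1 * s) (a.1 * s + s) (a.2 * s) (a.2 * s + s) v0) ∧
    ∀ a ∈ A, ∃ w, inR (a.1 * s) (a.1 * s + s) (a.2 * s) (a.2 * s + s) w ∧ Reach (↑F) v0 w

/-- FKG for the network: increasing events of probability at least `(1/2)^47` (`H99L.rsw`,
`H99L.Pr_harris`, `LRc_incr`, `pr_LRc`, `pr_TBc`). -/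
def S_NEP : Prop := ∀ (S : Finset Edg) (s : ℕ) (A : Finset (ℤ × ℤ)), 2 ≤ s →
  (∀ a ∈ A, RE (a.1 * s) (a.1 * s + 2 * s) (a.2 * s) (a.2 * s + s) ⊆ S ∧
    RE (a.1 * s) (a.1 * s + s) (a.2 * s) (a.2 * s + 2 * s) ⊆ S) →
  (1 / 2 : ℝ) ^ (94 * A.card) ≤ Pr hf S (Net s A)

/-- FKG for the blocked annuli: decreasing events of probability at least
`1 - lam = (1/2)^188` (`H99L.ann1`, `H99L.Pr_harris_decr`). -/
def S_BLP : Prop := ∀ (S : Finset Edg) (T : Finset (Vtx × ℕ)), (∀ t ∈ T, 5 ≤ t.2) →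
  (1 / 2 : ℝ) ^ (188 * T.card) ≤ Pr hf S (fun F => ∀ t ∈ T, Bl t.1 t.2 F)

/-- Both, for boxes far from the network: the two events depend on disjoint sets of edges
(`H99L.Pr_indep`). -/
def S_BOTH : Prop := S_NEP → S_BLP → ∀ (S : Finset Edg) (s : ℕ) (A : Finset (ℤ × ℤ))
  (T : Finset (Vtx × ℕ)), 2 ≤ s →
  (∀ a ∈ A, RE (a.1 * s) (a.1 * s + 2 * s) (a.2 * s) (a.2 * s + s) ⊆ S ∧
    RE (a.1 * s) (a.1 * s + s) (a.2 * s) (a.2 * s + 2 * s) ⊆ S) →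
  (∀ t ∈ T, 5 ≤ t.2) →
  (∀ a ∈ A, ∀ t ∈ T, 3 * (t.2 : ℤ) + 3 * s ≤ |t.1.1 - a.1 * s| ∨
    3 * (t.2 : ℤ) + 3 * s ≤ |t.1.2 - a.2 * s|) →
  (1 / 2 : ℝ) ^ (94 * A.card + 188 * T.card) ≤
    Pr hf S (fun F => Net s A F ∧ ∀ t ∈ T, Bl t.1 t.2 F)

/-- (deterministic) a blocked annulus blocks, also with an arbitrary configuration `G` in a box
`Λ_k` which lies in the inner box or outside the outer box. -/
def S_HOLE : Prop := ∀ (k : ℕ) (c : Vtx) (m : ℕ) (F G : Finset Edg), 1 ≤ m →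
  G ⊆ RE 0 (k : ℤ) 0 k →
  ((∀ u, inR 0 (k : ℤ) 0 k u → In c m u) ∨ (∀ u, inR 0 (k : ℤ) 0 k u → Out c (3 * m + 1) u)) →
  Bl c m F → ∀ u v, In c m u → Reach ((↑(F ∪ G) : Set Edg)) u v → ¬ Out c (3 * m) v

/-- Conditioning on a cluster, lower bound (compare `H99L.condCl` in DR/Expl.lean). -/
def S_COND : Prop := ∀ (S U G : Finset Edg) (ZZ : Finset (Finset Vtx))
  (Ev : Finset Vtx → Finset Edg → Prop) (q : ℝ), Disjoint S U → G ⊆ U → 0 ≤ q →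
  (∀ Z ∈ ZZ, q ≤ Pr hf (S \ EZ S Z) (Ev Z)) →
  (∀ F, F ⊆ S → ∀ Z ∈ ZZ, ∀ Z' ∈ ZZ, IsCl Z (F ∪ G) → IsCl Z' (F ∪ G) → Ev Z (F \ EZ S Z) →
    Ev Z' (F \ EZ S Z') → Z = Z') →
  q * Pr hf S (fun F => ∃ Z ∈ ZZ, IsCl Z (F ∪ G)) ≤
    Pr hf S (fun F => ∃ Z ∈ ZZ, IsCl Z (F ∪ G) ∧ Ev Z (F \ EZ S Z))

/-- The indices close to `n p`. -/
def Ind (n s r M : ℕ) (p : ℂ) : Set (ℤ × ℤ) :=
  {a | (2 ≤ a.1 ∧ a.1 ≤ M) ∧ (2 ≤ a.2 ∧ a.2 ≤ M) ∧
    |(a.1 : ℝ) * s - n * p.re| ≤ r * s ∧ |(a.2 : ℝ) * s - n * p.im| ≤ r * s}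

open Classical in
/-- The index set of the network around `K`. -/
noncomputable def AA (n s r M : ℕ) (K : Set ℂ) : Finset (ℤ × ℤ) :=
  (Finset.Icc (2 : ℤ) M ×ˢ Finset.Icc (2 : ℤ) M).filter (fun a => ∃ p ∈ K, a ∈ Ind n s r M p)

/-- The network around a continuum is connected (`IsPreconnected.induction₂`) and wide. -/
def S_GEO : Prop := ∀ K : NonemptyCompacts ℂ, Cont K → ∀ n s r M : ℕ, 1 ≤ s → 10 ≤ r →
  2 * r + 10 ≤ M → M * s ≤ n → n ≤ (M + 3) * s →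
  Conn4 (AA n s r M K) ∧ ∀ p ∈ (K : Set ℂ), ∃ a ∈ Ind n s r M p, ∃ b ∈ Ind n s r M p,
    a.1 + r ≤ b.1 + 5

end Pool.Agent.H99.SL
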