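import Pool.Agent.H99.SL.Zs
import Pool.Agent.H99.SL.Good

set_option autoImplicit false

/-!
Project SL, second version: the exact order of the exponent for every continuum.
`cov K ε`: the minimal number of closed discs of radius `ε` which cover `K`.
-/

namespace Pool.Agent.H99.SL

open H99L Pool.Agent.H99.DR Pool.Agent.H99.MS Filter Topology MeasureTheory
open TopologicalSpace (NonemptyCompacts)

/-- The minimal number of closed discs of radius `ε` which cover `K`. -/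
noncomputable def cov (K : NonemptyCompacts ℂ) (ε : ℝ) : ℕ :=
  sInf {m | ∃ T : Finset ℂ, T.card = m ∧ ∀ p ∈ (K : Set ℂ), ∃ t ∈ T, dist p t ≤ ε}

/-- The cost of the shape `K` at resolution `ε`: the covering number plus the inverse square of the
diameter (at resolution `ε`). -/
noncomputable def cost (K : NonemptyCompacts ℂ) (ε : ℝ) : ℝ :=
  cov K ε + 1 / max (Metric.diam (K : Set ℂ)) ε ^ 2

/-- Lower bound with the exact order. -/
def S_LOW2 : Prop := ∃ C : ℝ, 1 ≤ C ∧ ∀ K : NonemptyCompacts ℂ, Cont K → ∀ ε : ℝ, 0 < ε → ε ≤ 1 →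
  ∀ k n : ℕ, C ≤ ε * n → C * k ≤ ε * n → ∀ G : Finset Edge, G ⊆ RE 0 (k : ℤ) 0 k →
    Real.exp (-(C * cost K ε)) ≤ Pr hf (RE 0 (n : ℤ) 0 n \ RE 0 (k : ℤ) 0 k)
      (fun F => ∀ v, Largest n (F ∪ G) v → dist (shape n (F ∪ G) v) K ≤ ε)

/-- (UPA) Upper bound by the covering number. Paper proof: take a maximal subset `x_1, …, x_m` of
`K` with mutual distances `> 100 ε`; every disc of radius `100 ε` is covered by at most `10 ^ 6`
discs of radius `ε`, so `cov K ε ≤ 10 ^ 6 m`. If `m ≤ 1` the claim is trivial (choose `C` large).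
If `m ≥ 2` let `c_i` be `n x_i` rounded down and `r = ⌈3 ε n⌉`. If a largest cluster has a shape
within `ε` of `K`, it contains a vertex in the box of radius `r` around every `c_i`, hence all the
annuli of radii `r`, `3 r` around the `c_i` are crossed (`¬ Bl c_i r F`). These annuli lie in
disjoint boxes, so the events are independent, each of probability at most `lam` (`ann1`). -/
def S_UPA : Prop := ∃ c C : ℝ, 0 < c ∧ 0 < C ∧ ∀ K : NonemptyCompacts ℂ, Cont K → ∀ ε : ℝ,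
  0 < ε → ε ≤ 1 → ∀ n : ℕ, C ≤ ε * n →
    prob n (fun F => ∃ v, Largest n F v ∧ dist (shape n F v) K ≤ ε) ≤
      C * Real.exp (-(c * cov K ε))

/-- (UPB) All clusters are small. Paper proof: disjoint squares of side `L = ⌈4 D n⌉` in the box,
about `(1 / (4 D)) ^ 2` of them; each is crossed from left to right with probability at least `1/2`
(`pr_LRc`), independently, and a crossed square contains part of a cluster of diameter `≥ L`. -/
def S_UPB : Prop := ∃ c C : ℝ, 0 < c ∧ 0 < C ∧ ∀ D : ℝ, 0 < D → D ≤ 2 → ∀ n : ℕ, C ≤ D * n →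
  prob n (fun F => ∃ v, Largest n F v ∧ diam F v ≤ 3 * D * n) ≤ C * Real.exp (-(c / D ^ 2))

/-- (UP2) Both bounds together (geometric mean; `diam F v ≤ (diam K + 2 ε) n`). -/
def S_UP2 : Prop := S_UPA → S_UPB → ∃ c C : ℝ, 0 < c ∧ 0 < C ∧ ∀ K : NonemptyCompacts ℂ,
  Cont K → ∀ ε : ℝ, 0 < ε → ε ≤ 1 → ∀ n : ℕ, C ≤ ε * n →
    prob n (fun F => ∃ v, Largest n F v ∧ dist (shape n F v) K ≤ ε) ≤
      C * Real.exp (-(c * cost K ε))

/-- (PORT) Portmanteau for balls: `g = 1 - min (1, (dist - ε)⁺ / δ)` and continuity from above,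
respectively `g = min (1, (ε - dist)⁺ / δ)` and continuity from below. -/
def S_PORT : Prop := ∀ (sel : ℕ → Finset Edge → ℤ × ℤ) (k : ℕ → ℕ)
  [MeasurableSpace (NonemptyCompacts ℂ)] [BorelSpace (NonemptyCompacts ℂ)]
  (μ : Measure (NonemptyCompacts ℂ)) [IsProbabilityMeasure μ], ConvergesTo sel k μ →
  ∀ (K : NonemptyCompacts ℂ) (ε p : ℝ), 0 < ε →
    ((∀ᶠ i in atTop, p ≤ prob (k i) (fun F => dist (shape (k i) F (sel (k i) F)) K ≤ ε)) →
      ENNReal.ofReal p ≤ μ (Metric.closedBall K ε)) ∧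
    ((∀ᶠ i in atTop, prob (k i) (fun F => dist (shape (k i) F (sel (k i) F)) K < ε) ≤ p) →
      μ (Metric.ball K ε) ≤ ENNReal.ofReal p)

/-- (CNTA) The network has at most `10 ^ 7 cov K ε` boxes: each `a` in `AA` is, in both coordinates,
within `60 s + ε n ≤ 860 s` of `n t` for one of the centres `t` of the covering discs. -/
def S_CNTA : Prop := ∀ (K : NonemptyCompacts ℂ) (ε : ℝ) (n s M : ℕ), 0 < ε → 1 ≤ s →
  ε * n ≤ 800 * s → (AA n s 60 M (K : Set ℂ)).card ≤ 10 ^ 7 * cov K ε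

open Classical in
/-- The blocks near the network but not too near. -/
noncomputable def TN (s q : ℕ) (A : Finset (ℤ × ℤ)) : Finset (Vtx × ℕ) :=
  (TF s q A).filter (fun t => ∃ a ∈ A, |t.1.1 - a.1 * s| ≤ 29 * s ∧ |t.1.2 - a.2 * s| ≤ 29 * s)

/-- (CNTN) There are at most `4000 |A|` of them. -/
def S_CNTN : Prop := ∀ (s q : ℕ) (A : Finset (ℤ × ℤ)), 1 ≤ s → (TN s q A).card ≤ 4000 * A.card

/-- (EXZ) `exists_Z` with the blocks `TN` only: if the cluster of the network left the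
neighbourhood `{u | ∃ a ∈ A, |u - a s| ≤ 23 s}`, take the first vertex `y` outside it on a path
(`first_exit`); the block of `TB` which contains `y` is in `TF` (otherwise `y` is inside, as in the
proof of `exists_Z`) and near the network, so it is blocked; contradiction. -/
def S_EXZ : Prop := S_NET → S_HOLE → ∀ (n s q k : ℕ) (A : Finset (ℤ × ℤ)),
    1 ≤ s → k ≤ s → n < (q + 1) * s → k ≤ n → A.Nonempty → Conn4 A →
    (∀ a ∈ A, (0 ≤ a.1 * s ∧ a.1 * s + s ≤ n) ∧ (0 ≤ a.2 * s ∧ a.2 * s + s ≤ n)) →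
    ∀ F G : Finset Edg, F ⊆ RE 0 (n : ℤ) 0 n → G ⊆ RE 0 (k : ℤ) 0 k →
    Net s A F → (∀ t ∈ TN s q A, Bl t.1 t.2 F) → ∃ Z ∈ ZZ n s A, IsCl Z (F ∪ G)

/-- (WID) The cluster of the network is wide. If `w = s` use the width of the network (`hw`, `54 s`
as in `good_of`). If `400 w ≤ n diam K` take `p, q ∈ K` with `dist p q = diam K` (compactness); `Z`
has vertices within `3/2 * 61 s` of `n p` and `n q` (`dist_le_coord`), so two vertices at distance
at least `400 w - 183 s ≥ 217 w`, and one of the coordinates differs by at least `150 w`. -/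
def S_WID : Prop := ∀ (K : NonemptyCompacts ℂ) (n s w M : ℕ), 5 ≤ s → s ≤ w →
    (w = s ∨ 400 * (w : ℝ) ≤ Metric.diam (K : Set ℂ) * n) →
    (∀ p ∈ (K : Set ℂ), ∃ a ∈ Ind n s 60 M p, ∃ b ∈ Ind n s 60 M p, a.1 + 60 ≤ b.1 + 5) →
    ∀ Z ∈ ZZ n s (AA n s 60 M (K : Set ℂ)), ∃ x ∈ Z, ∃ y ∈ Z,
      50 * (w : ℤ) ≤ |x.1 - y.1| ∨ 50 * (w : ℤ) ≤ |x.2 - y.2|

/-- (GD2) `good_of` with two scales (copy the proof; the diameter of the other clusters is at most
`47 w + 2 < 50 w`). -/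
def S_GD2 : Prop := ∀ (K : NonemptyCompacts ℂ) (ε : ℝ) (n s w M : ℕ), 0 < ε → 5 ≤ s → s ≤ w →
    0 < n → 400 * (s : ℝ) ≤ ε * n → ∀ H : Finset Edg, H ⊆ RE 0 (n : ℤ) 0 n →
    (∀ p ∈ (K : Set ℂ), ∃ a ∈ Ind n s 60 M p, ∃ b ∈ Ind n s 60 M p, a.1 + 60 ≤ b.1 + 5) →
    ∀ Z ∈ ZZ n s (AA n s 60 M (K : Set ℂ)), IsCl Z H →
    (∃ x ∈ Z, ∃ y ∈ Z, 50 * (w : ℤ) ≤ |x.1 - y.1| ∨ 50 * (w : ℤ) ≤ |x.2 - y.2|) →
    (∀ x ∈ bxV n, x ∉ Z → ∀ y z, Reach (↑H : Set Edg) x y → Reach (↑H : Set Edg) x z →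
      |y.1 - z.1| ≤ 30 * w ∧ |y.2 - z.2| ≤ 30 * w) →
    ∀ v, Largest n H v → dist (shape n H v) K ≤ ε

/-- (MUL2) One configuration at many scales, from `S_LOW2` (adapt MUL.lean). -/
def S_MUL2 : Prop := S_LOW2 → ∃ C : ℝ, 1 ≤ C ∧ ∀ K : NonemptyCompacts ℂ, Cont K → ∀ ε : ℝ,
  0 < ε → ε ≤ 1 → ∀ (k : ℕ → ℕ) (M m : ℕ), C ≤ ε * k 0 → (∀ i, C * k i ≤ ε * k (i + 1)) →
    k M ≤ m → prob m (fun F => ∀ i ≤ M, ∃ v, Largest (k i) (F ∩ edges (k i)) v ∧
      ε < dist (shape (k i) (F ∩ edges (k i)) v) K) ≤ (1 - Real.exp (-(C * cost K ε))) ^ (M + 1)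

end Pool.Agent.H99.SL
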