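import Pool.Agent.H99.SL.Stm

/-! SL-UP (helper63): a largest cluster which is dense in the box is very unlikely -/

set_option autoImplicit false

namespace Pool.Agent.H99.SL

open H99L Pool.Agent.H99.DR Pool.Agent.H99.MS Filter Topology
open TopologicalSpace (NonemptyCompacts)

namespace UPaux

/-- independent events -/
theorem indep_pow {ι : Type} [DecidableEq ι] (U : Finset Edg) (R : ι → Finset Edg)
    (A : ι → Finset Edg → Prop) (I : Finset ι) (hR : ∀ i ∈ I, R i ⊆ U)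
    (hd : ∀ i ∈ I, ∀ j ∈ I, i ≠ j → Disjoint (R i) (R j))
    (hA : ∀ i ∈ I, ∀ F, (A i F ↔ A i (F ∩ R i))) (hp : ∀ i ∈ I, Pr hf U (A i) ≤ lam) :
    Pr hf U (fun F => ∀ i ∈ I, A i F) ≤ lam ^ I.card := by
  classical
  induction I using Finset.induction_on with
  | empty => simpa using Pr_le_one okh U _
  | insert j I hj ih =>
    have ih' := ih (fun i hi => hR i (Finset.mem_insert_of_mem hi))
      (fun i hi k hk => hd i (Finset.mem_insert_of_mem hi) k (Finset.mem_insert_of_mem hk))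
      (fun i hi => hA i (Finset.mem_insert_of_mem hi)) (fun i hi => hp i (Finset.mem_insert_of_mem hi))
    have e1 : Pr hf U (fun F => ∀ i ∈ insert j I, A i F) =
        Pr hf U (fun F => A j F ∧ ∀ i ∈ I, A i F) := by
      apply Pr_congr
      intro F _
      rw [Finset.forall_mem_insert]
    have e2 := Pr_indep (p := hf) (U := U) (S := R j) (T := I.biUnion R)
      (hR j (Finset.mem_insert_self _ _))
      (Finset.biUnion_subset.2 fun i hi => hR i (Finset.mem_insert_of_mem hi))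
      (by
        rw [Finset.disjoint_biUnion_right]
        intro i hi
        exact hd j (Finset.mem_insert_self _ _) i (Finset.mem_insert_of_mem hi)
          (fun h => hj (h ▸ hi)))
      (A := A j) (B := fun F => ∀ i ∈ I, A i F)
      (fun F _ => hA j (Finset.mem_insert_self _ _) F)
      (fun F _ => by
        refine forall_congr' fun i => forall_congr' fun hi => ?_
        have hsub : R i ⊆ I.biUnion R := Finset.subset_biUnion_of_mem R hi
        rw [hA i (Finset.mem_insert_of_mem hi) F,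
          hA i (Finset.mem_insert_of_mem hi) (F ∩ I.biUnion R), Finset.inter_assoc,
          Finset.inter_eq_right.2 hsub])
    rw [e1, e2, Finset.card_insert_of_notMem hj, pow_succ, mul_comm]
    exact mul_le_mul ih' (hp j (Finset.mem_insert_self _ _)) (Pr_nonneg okh _ _)
      (pow_nonneg lam_nonneg _)

/-- the box of radius `3 m` -/
noncomputable def RB (c : Vtx) (m : ℕ) : Finset Edg :=
  RE (c.1 - (3 * m : ℕ)) (c.1 + (3 * m : ℕ)) (c.2 - (3 * m : ℕ)) (c.2 + (3 * m : ℕ))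

/-- an open path from the box of radius `m` to the boundary of the box of radius `3 m` -/
def Arm (c : Vtx) (m : ℕ) (F : Finset Edg) : Prop :=
  ∃ u v, In c m u ∧ Out c (3 * m : ℕ) v ∧ Reach (↑(F ∩ RB c m) : Set Edg) u v

theorem arm_local (c : Vtx) (m : ℕ) (F : Finset Edg) : Arm c m F ↔ Arm c m (F ∩ RB c m) := by
  unfold Arm
  rw [Finset.inter_assoc, Finset.inter_self]

theorem arm_le (U : Finset Edg) (c : Vtx) {m : ℕ} (hm : 5 ≤ m) : Pr hf U (Arm c m) ≤ lam := by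
  refine (Pr_mono okh fun F _ h => ?_).trans (ann1 U c hm)
  obtain ⟨u, v, h1, h2, h3⟩ := h
  exact ⟨u, v, h1, h2, h3.mono (by exact_mod_cast Finset.inter_subset_left)⟩

/-- the cluster has a vertex near each vertex of the box -/
theorem near {n m : ℕ} {ε : ℝ} {F : Finset Edge} {v : ℤ × ℤ} (hn : 1 ≤ n) (hm : ε * n + 1 ≤ m)
    (hd : ∀ p ∈ square, ∃ q ∈ (shape n F v : Set ℂ), dist p q ≤ ε) (w : ℤ × ℤ)
    (h1 : 0 ≤ w.1) (h2 : w.1 ≤ n) (h3 : 0 ≤ w.2) (h4 : w.2 ≤ n) : ∃ z ∈ cluster F v, In w m z := by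
  have hn0 : (0 : ℝ) < n := by exact_mod_cast hn
  have k1 : (0 : ℝ) ≤ w.1 := by exact_mod_cast h1
  have k2 : (w.1 : ℝ) ≤ n := by exact_mod_cast h2
  have k3 : (0 : ℝ) ≤ w.2 := by exact_mod_cast h3
  have k4 : (w.2 : ℝ) ≤ n := by exact_mod_cast h4
  have hsq : pt w / (n : ℂ) ∈ square := by
    have e1 : (pt w / (n : ℂ)).re = w.1 / n := by
      rw [Complex.div_natCast_re]
      rfl
    have e2 : (pt w / (n : ℂ)).im = w.2 / n := by
      rw [Complex.div_natCast_im]
      rfl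
    refine ⟨?_, ?_, ?_, ?_⟩
    · rw [e1]; positivity
    · rw [e1, div_le_one hn0]; exact k2
    · rw [e2]; positivity
    · rw [e2, div_le_one hn0]; exact k4
  obtain ⟨q, ⟨b, hb, rfl⟩, hq⟩ := hd _ hsq
  have hb' : b ∈ body F v := hb
  obtain ⟨z, hz, hbz⟩ := body_near hb'
  refine ⟨z, hz, ?_⟩
  have e3 : dist (pt w / (n : ℂ)) (b / (n : ℂ)) = dist (pt w) b / n := by
    rw [dist_eq_norm, ← sub_div, norm_div, Complex.norm_natCast, ← dist_eq_norm]
  have hq' : dist (pt w / (n : ℂ)) (b / (n : ℂ)) ≤ ε := hq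
  rw [e3, div_le_iff₀ hn0] at hq'
  have h5 : ed w z ≤ m := by
    rw [← dist_pt]
    have := dist_triangle (pt w) b (pt z)
    linarith
  have h6 : (ed w z) ^ 2 ≤ (m : ℝ) ^ 2 := pow_le_pow_left₀ (ed_nonneg _ _) h5 2
  rw [ed_sq'] at h6
  have h7 : |(w.1 : ℝ) - z.1| ≤ m := abs_le_of_sq_le_sq (by nlinarith [sq_nonneg ((w.2 : ℝ) - z.2)])
    (Nat.cast_nonneg _)
  have h8 : |(w.2 : ℝ) - z.2| ≤ m := abs_le_of_sq_le_sq (by nlinarith [sq_nonneg ((w.1 : ℝ) - z.1)])
    (Nat.cast_nonneg _)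
  rw [abs_le] at h7 h8
  obtain ⟨a1, a2⟩ := h7
  obtain ⟨a3, a4⟩ := h8
  have b1 : ((w.1 - m : ℤ) : ℝ) ≤ (z.1 : ℤ) := by push_cast; linarith
  have b2 : ((z.1 : ℤ) : ℝ) ≤ ((w.1 + m : ℤ) : ℝ) := by push_cast; linarith
  have b3 : ((w.2 - m : ℤ) : ℝ) ≤ (z.2 : ℤ) := by push_cast; linarith
  have b4 : ((z.2 : ℤ) : ℝ) ≤ ((w.2 + m : ℤ) : ℝ) := by push_cast; linarith
  exact ⟨by exact_mod_cast b1, by exact_mod_cast b2, by exact_mod_cast b3, by exact_mod_cast b4⟩

theorem arm_of_dense {n m : ℕ} {ε : ℝ} {F : Finset Edge} {v : ℤ × ℤ} (hn : 1 ≤ n)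
    (hm : ε * n + 1 ≤ m) (hd : ∀ p ∈ square, ∃ q ∈ (shape n F v : Set ℂ), dist p q ≤ ε)
    (h14 : 14 * m ≤ n) (c : ℤ × ℤ) (h1 : 3 * (m : ℤ) ≤ c.1) (h2 : c.1 + 3 * m ≤ n)
    (h3 : 3 * (m : ℤ) ≤ c.2) (h4 : c.2 + 3 * m ≤ n) : Arm c m F := by
  have h14' : 14 * (m : ℤ) ≤ n := by exact_mod_cast h14
  have hm0 : (0 : ℤ) ≤ m := Int.natCast_nonneg _
  obtain ⟨z, hz, hz2⟩ := near hn hm hd c (by omega) (by omega) (by omega) (by omega)
  have hfar : ∃ z' ∈ cluster F v, z'.1 ≤ c.1 - 3 * m ∨ c.1 + 3 * m ≤ z'.1 := by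
    rcases le_or_gt (7 * (m : ℤ)) c.1 with h | h
    · obtain ⟨z', hz', i1, i2, i3, i4⟩ := near hn hm hd (0, 0) le_rfl (Int.natCast_nonneg _) le_rfl
        (Int.natCast_nonneg _)
      refine ⟨z', hz', Or.inl ?_⟩
      simp only at i1 i2
      omega
    · obtain ⟨z', hz', i1, i2, i3, i4⟩ := near hn hm hd ((n : ℤ), 0) (Int.natCast_nonneg _) le_rfl
        le_rfl (Int.natCast_nonneg _)
      refine ⟨z', hz', Or.inr ?_⟩
      simp only at i1 i2
      omega
  obtain ⟨z', hz', hf'⟩ := hfar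
  have hr : Reach (↑F : Set Edg) z z' := (mem_cluster.1 hz).symm.trans (mem_cluster.1 hz')
  obtain ⟨j1, j2, j3, j4⟩ := hz2
  obtain ⟨w, hw1, hw2, hw3⟩ := first_exit (G := (↑F : Set Edg)) (a := c.1 - (3 * m : ℕ))
    (b := c.1 + (3 * m : ℕ)) (c := c.2 - (3 * m : ℕ)) (d := c.2 + (3 * m : ℕ)) (u := z) (v := z')
    ⟨⟨by push_cast; omega, by push_cast; omega⟩, by push_cast; omega, by push_cast; omega⟩ hr
    (by push_cast; omega)
  refine ⟨z, w, ⟨j1, j2, j3, j4⟩, ?_, ?_⟩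
  · rcases hw2 with h | h | h | h
    · exact Or.inl h.le
    · exact Or.inr (Or.inl h.ge)
    · exact Or.inr (Or.inr (Or.inl h.le))
    · exact Or.inr (Or.inr (Or.inr h.ge))
  · rw [Finset.coe_inter]
    exact hw3

/-- the centre with the index `i` -/
def cen (m : ℕ) (i : ℕ × ℕ) : ℤ × ℤ := (((7 * m * i.1 + 3 * m : ℕ) : ℤ), ((7 * m * i.2 + 3 * m : ℕ) : ℤ))

theorem cen_lt {m M n i : ℕ} (hM : 7 * m * M ≤ n) (hi : i < M) : 7 * m * i + 7 * m ≤ n := by
  calc 7 * m * i + 7 * m = 7 * m * (i + 1) := by ring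
    _ ≤ 7 * m * M := Nat.mul_le_mul_left _ hi
    _ ≤ n := hM

theorem sub_RE {m M n : ℕ} (hM : 7 * m * M ≤ n) {i : ℕ × ℕ} (h1 : i.1 < M) (h2 : i.2 < M) :
    RB (cen m i) m ⊆ RE 0 (n : ℤ) 0 n := by
  have a1 := cen_lt hM h1
  have a2 := cen_lt hM h2
  unfold RB cen
  refine RE_subset ?_ ?_ ?_ ?_ <;> simp only <;> push_cast
  · have : (0 : ℤ) ≤ 7 * m * i.1 := by positivity
    omega
  · have : (7 * (m : ℤ) * i.1 + 7 * m) ≤ n := by exact_mod_cast a1
    omega
  · have : (0 : ℤ) ≤ 7 * m * i.2 := by positivity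
    omega
  · have : (7 * (m : ℤ) * i.2 + 7 * m) ≤ n := by exact_mod_cast a2
    omega

theorem mem_RB {m : ℕ} {c : Vtx} {e : Edg} (h : e ∈ RB c m) :
    (c.1 - 3 * m ≤ e.1 ∧ e.1 ≤ c.1 + 3 * m) ∧ (c.2 - 3 * m ≤ e.2.1 ∧ e.2.1 ≤ c.2 + 3 * m) := by
  unfold RB at h
  obtain ⟨x, y, b⟩ := e
  cases b
  · rw [mem_RE_false] at h
    push_cast at h
    simp only
    omega
  · rw [mem_RE_true] at h
    push_cast at h
    simp only
    omega

theorem sep {m : ℕ} (hm : 1 ≤ m) {i j : ℕ} (h : i < j) :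
    ((7 * m * i + 3 * m : ℕ) : ℤ) + 3 * m < ((7 * m * j + 3 * m : ℕ) : ℤ) - 3 * m := by
  have h1 : 7 * m * (i + 1) ≤ 7 * m * j := Nat.mul_le_mul_left _ h
  have h2 : 7 * m * i + 7 * m ≤ 7 * m * j := by
    calc 7 * m * i + 7 * m = 7 * m * (i + 1) := by ring
      _ ≤ _ := h1
  have h3 : (7 * (m : ℤ) * i + 7 * m) ≤ 7 * m * j := by exact_mod_cast h2
  have h4 : (1 : ℤ) ≤ m := by exact_mod_cast hm
  push_cast
  omega

theorem disj {m : ℕ} (hm : 1 ≤ m) {i j : ℕ × ℕ} (h : i ≠ j) :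
    Disjoint (RB (cen m i) m) (RB (cen m j) m) := by
  rw [Finset.disjoint_left]
  intro e h1 h2
  obtain ⟨⟨a1, a2⟩, a3, a4⟩ := mem_RB h1
  obtain ⟨⟨b1, b2⟩, b3, b4⟩ := mem_RB h2
  unfold cen at a1 a2 a3 a4 b1 b2 b3 b4
  simp only at a1 a2 a3 a4 b1 b2 b3 b4
  apply h
  apply Prod.ext
  · rcases lt_trichotomy i.1 j.1 with h3 | h3 | h3
    · have := sep hm h3
      omega
    · exact h3
    · have := sep hm h3
      omega
  · rcases lt_trichotomy i.2 j.2 with h3 | h3 | h3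
    · have := sep hm h3
      omega
    · exact h3
    · have := sep hm h3
      omega

end UPaux

open UPaux

theorem up : S_UP := by
  classical
  set κ : ℝ := -Real.log lam with hκ
  have hκ0 : 0 < κ := by
    have := Real.log_neg lam_pos lam_lt
    linarith
  have hlamexp : lam = Real.exp (-κ) := by
    rw [hκ, neg_neg, Real.exp_log lam_pos]
  set c0 : ℝ := κ / 1764 with hc0
  have hc00 : 0 < c0 := by positivity
  refine ⟨c0, 10 + Real.exp (10 ^ 4 * c0), hc00, by positivity, ?_⟩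
  intro ε hε hε1 n hn
  have hexp0 := Real.exp_pos (10 ^ 4 * c0)
  rw [prob_eq]
  rcases le_or_gt ε (1 / 100) with hs | hs
  · -- the main case
    have hεn : 10 ≤ ε * n := by linarith
    have hn0 : (0 : ℝ) < n := by
      by_contra h
      push Not at h
      have : ε * n ≤ 0 := mul_nonpos_of_nonneg_of_nonpos hε.le h
      linarith
    have hn1 : 1 ≤ n := by
      have : 0 < n := by exact_mod_cast hn0
      omega
    set m : ℕ := ⌈2 * ε * n⌉₊ with hmd
    have hm1 : 2 * ε * n ≤ m := Nat.le_ceil _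
    have hm2 : (m : ℝ) < 2 * ε * n + 1 := Nat.ceil_lt_add_one (by positivity)
    have hm3 : (m : ℝ) ≤ 3 * (ε * n) := by linarith
    have hm5 : 5 ≤ m := by
      have : (5 : ℝ) ≤ m := by linarith
      exact_mod_cast this
    have hmε : ε * n + 1 ≤ m := by linarith
    have hmn : (100 : ℝ) / 3 * m ≤ n := by
      have : ε * n ≤ 1 / 100 * n := mul_le_mul_of_nonneg_right hs hn0.le
      linarith
    have h14 : 14 * m ≤ n := by
      have : ((14 * m : ℕ) : ℝ) ≤ n := by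
        push_cast
        have : (0 : ℝ) ≤ m := Nat.cast_nonneg _
        linarith
      exact_mod_cast this
    have h7m : 0 < 7 * m := by omega
    set M : ℕ := n / (7 * m) with hMd
    have hM1 : 7 * m * M ≤ n := Nat.mul_div_le _ _
    have hM2 : n < 7 * m * (M + 1) := Nat.lt_mul_div_succ n h7m
    have hM3 : 1 / (42 * ε) ≤ (M : ℝ) := by
      have h1 : (n : ℝ) < 7 * m * (M + 1) := by exact_mod_cast hM2
      have h2 : (n : ℝ) < 21 * (ε * n) * (M + 1) := by
        refine h1.trans_le ?_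
        have : (0 : ℝ) ≤ (M : ℝ) + 1 := by positivity
        nlinarith
      have h3 : 1 < 21 * ε * (M + 1) := by
        by_contra hcon
        push Not at hcon
        have : 21 * ε * (M + 1) * n ≤ 1 * n := mul_le_mul_of_nonneg_right hcon hn0.le
        linarith
      rw [div_le_iff₀ (by positivity)]
      nlinarith
    have hpr : Pr hf (RE 0 (n : ℤ) 0 n) (fun F => ∃ v, Largest n F v ∧
        ∀ p ∈ square, ∃ q ∈ (shape n F v : Set ℂ), dist p q ≤ ε) ≤ lam ^ (M * M) := by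
      have hI := indep_pow (RE 0 (n : ℤ) 0 n) (fun i => RB (cen m i) m) (fun i F => Arm (cen m i) m F)
        (Finset.range M ×ˢ Finset.range M)
        (fun i hi => by
          rw [Finset.mem_product, Finset.mem_range, Finset.mem_range] at hi
          exact sub_RE hM1 hi.1 hi.2)
        (fun i _ j _ hij => disj (by omega) hij) (fun i _ F => arm_local _ _ _)
        (fun i _ => arm_le _ _ hm5)
      rw [Finset.card_product, Finset.card_range] at hI
      refine (Pr_mono okh fun F _ h => ?_).trans hI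
      obtain ⟨v, _, hd⟩ := h
      intro i hi
      rw [Finset.mem_product, Finset.mem_range, Finset.mem_range] at hi
      have a1 := cen_lt hM1 hi.1
      have a2 := cen_lt hM1 hi.2
      have b1 : (7 * (m : ℤ) * i.1 + 7 * m) ≤ n := by exact_mod_cast a1
      have b2 : (7 * (m : ℤ) * i.2 + 7 * m) ≤ n := by exact_mod_cast a2
      have b3 : (0 : ℤ) ≤ 7 * m * i.1 := by positivity
      have b4 : (0 : ℤ) ≤ 7 * m * i.2 := by positivity
      refine arm_of_dense hn1 hmε hd h14 (cen m i) ?_ ?_ ?_ ?_ <;> unfold cen <;> simp only <;>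
        push_cast <;> omega
    refine hpr.trans ?_
    have h4 : lam ^ (M * M) = Real.exp (-(κ * (M * M))) := by
      rw [hlamexp, ← Real.exp_nat_mul]
      congr 1
      push_cast
      ring
    rw [h4]
    have h5 : 1 / (42 * ε) * (1 / (42 * ε)) ≤ (M : ℝ) * M :=
      mul_le_mul hM3 hM3 (by positivity) (Nat.cast_nonneg _)
    have h6 : c0 / ε ^ 2 ≤ κ * (M * M) := by
      calc c0 / ε ^ 2 = κ * (1 / (42 * ε) * (1 / (42 * ε))) := by
            rw [hc0]
            field_simp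
            norm_num
        _ ≤ κ * (M * M) := mul_le_mul_of_nonneg_left h5 hκ0.le
    have h7 : Real.exp (-(κ * (M * M))) ≤ Real.exp (-(c0 / ε ^ 2)) :=
      Real.exp_le_exp.2 (by linarith)
    have h8 := Real.exp_pos (-(c0 / ε ^ 2))
    refine h7.trans ?_
    exact le_mul_of_one_le_left h8.le (by linarith)
  · -- trivial
    refine (Pr_le_one okh _ _).trans ?_
    have h1 : c0 / ε ^ 2 ≤ 10 ^ 4 * c0 := by
      rw [div_le_iff₀ (by positivity)]
      have h2 : (1 / 100 : ℝ) ^ 2 ≤ ε ^ 2 := pow_le_pow_left₀ (by norm_num) hs.le 2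
      nlinarith
    have h2 : Real.exp (-(10 ^ 4 * c0)) ≤ Real.exp (-(c0 / ε ^ 2)) :=
      Real.exp_le_exp.2 (by linarith)
    calc (1 : ℝ) = Real.exp (10 ^ 4 * c0) * Real.exp (-(10 ^ 4 * c0)) := by
          rw [← Real.exp_add, add_neg_cancel, Real.exp_zero]
      _ ≤ (10 + Real.exp (10 ^ 4 * c0)) * Real.exp (-(c0 / ε ^ 2)) := by
          refine mul_le_mul (by linarith) h2 (Real.exp_pos _).le (by positivity)

end Pool.Agent.H99.SL
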