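import Pool.Agent.H99.SL.Stm3

set_option autoImplicit false

/-! SL-UP2 (helper29) -/

namespace Pool.Agent.H99.SL

open H99L Pool.Agent.H99.DR Pool.Agent.H99.MS Filter Topology MeasureTheory
open TopologicalSpace (NonemptyCompacts)

/-- the diameter of a cluster the shape of which is near `K` -/
theorem diam_near {n : ℕ} (hn : 0 < n) {F : Finset Edge} {v : ℤ × ℤ} {K : NonemptyCompacts ℂ}
    {ε : ℝ} (h : dist (shape n F v) K ≤ ε) :
    Pool.Agent.H99.DR.diam F v ≤ (Metric.diam (K : Set ℂ) + 2 * ε) * n := by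
  have hn' : (0 : ℝ) < n := by exact_mod_cast hn
  have hH : Metric.hausdorffDist (shape n F v : Set ℂ) (K : Set ℂ) ≤ ε := h
  have hfin : Metric.hausdorffEDist (shape n F v : Set ℂ) (K : Set ℂ) ≠ ⊤ :=
    Metric.hausdorffEDist_ne_top_of_nonempty_of_bounded (shape n F v).nonempty K.nonempty
      (shape n F v).isCompact.isBounded K.isCompact.isBounded
  have hnear : ∀ x ∈ body F v, ∃ x' ∈ (K : Set ℂ), dist (x / n) x' ≤ ε := by
    intro x hx
    have hx' : x / n ∈ (shape n F v : Set ℂ) := ⟨x, hx, rfl⟩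
    obtain ⟨x', hx'K, he⟩ := K.isCompact.exists_infDist_eq_dist K.nonempty (x / n)
    refine ⟨x', hx'K, ?_⟩
    rw [← he]
    exact (Metric.infDist_le_hausdorffDist_of_mem hx' hfin).trans hH
  have hε : 0 ≤ ε := dist_nonneg.trans h
  unfold Pool.Agent.H99.DR.diam
  refine Metric.diam_le_of_forall_dist_le (mul_nonneg (by
    have := Metric.diam_nonneg (s := (K : Set ℂ)); linarith) hn'.le) fun x hx y hy => ?_
  obtain ⟨x', hx', h1⟩ := hnear x hx
  obtain ⟨y', hy', h2⟩ := hnear y hy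
  have h3 : dist x' y' ≤ Metric.diam (K : Set ℂ) :=
    Metric.dist_le_diam_of_mem K.isCompact.isBounded hx' hy'
  have h4 : dist (x / n) (y / n) ≤ Metric.diam (K : Set ℂ) + 2 * ε := by
    have := dist_triangle4 (x / n) x' y' (y / n)
    rw [dist_comm y' (y / n)] at this
    linarith
  have h5 : dist (x / n) (y / n) = dist x y / n := by
    rw [dist_eq_norm, dist_eq_norm, ← sub_div, norm_div, Complex.norm_natCast]
  rw [h5, div_le_iff₀ hn'] at h4
  exact h4

theorem diam_square {K : NonemptyCompacts ℂ} (hK : Cont K) : Metric.diam (K : Set ℂ) ≤ 2 := by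
  refine Metric.diam_le_of_forall_dist_le (by norm_num) fun x hx y hy => ?_
  obtain ⟨a1, a2, a3, a4⟩ := hK.2 hx
  obtain ⟨b1, b2, b3, b4⟩ := hK.2 hy
  rw [dist_eq_norm]
  refine (Complex.norm_le_abs_re_add_abs_im _).trans ?_
  rw [Complex.sub_re, Complex.sub_im]
  have e1 : |x.re - y.re| ≤ 1 := abs_le.2 ⟨by linarith, by linarith⟩
  have e2 : |x.im - y.im| ≤ 1 := abs_le.2 ⟨by linarith, by linarith⟩
  linarith

theorem up2 : S_UP2 := by
  rintro ⟨c₁, C₁, hc₁, hC₁, h1⟩ ⟨c₂, C₂, hc₂, hC₂, h2⟩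
  refine ⟨min c₁ c₂ / 2, max C₁ C₂, by positivity, lt_max_of_lt_left hC₁,
    fun K hK ε hε hε1 n hn => ?_⟩
  set D := max (Metric.diam (K : Set ℂ)) ε with hD
  have hD0 : 0 < D := lt_max_of_lt_right hε
  have hD2 : D ≤ 2 := max_le (diam_square hK) (by linarith)
  have hn0 : 0 < n := by
    rcases Nat.eq_zero_or_pos n with rfl | h
    · exfalso
      have := (le_max_left C₁ C₂).trans hn
      simp only [Nat.cast_zero, mul_zero] at this
      linarith
    · exact h
  have hn' : (0 : ℝ) < n := by exact_mod_cast hn0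
  have p1 := h1 K hK ε hε hε1 n ((le_max_left C₁ C₂).trans hn)
  have p2 := h2 D hD0 hD2 n (((le_max_right C₁ C₂).trans hn).trans
    (mul_le_mul_of_nonneg_right (le_max_right _ _) hn'.le))
  have p3 : prob n (fun F => ∃ v, Largest n F v ∧ dist (shape n F v) K ≤ ε) ≤
      prob n (fun F => ∃ v, Largest n F v ∧ Pool.Agent.H99.DR.diam F v ≤ 3 * D * n) := by
    rw [prob_eq, prob_eq]
    refine Pr_mono okh fun F _ => ?_
    rintro ⟨v, hv, hd⟩
    refine ⟨v, hv, (diam_near hn0 hd).trans (mul_le_mul_of_nonneg_right ?_ hn'.le)⟩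
    have e1 := le_max_left (Metric.diam (K : Set ℂ)) ε
    have e2 := le_max_right (Metric.diam (K : Set ℂ)) ε
    linarith
  set P := prob n (fun F => ∃ v, Largest n F v ∧ dist (shape n F v) K ≤ ε) with hP
  have q1 : P ≤ max C₁ C₂ * Real.exp (-(c₁ * cov K ε)) :=
    p1.trans (mul_le_mul_of_nonneg_right (le_max_left _ _) (Real.exp_pos _).le)
  have q2 : P ≤ max C₁ C₂ * Real.exp (-(c₂ / D ^ 2)) :=
    (p3.trans p2).trans (mul_le_mul_of_nonneg_right (le_max_right _ _) (Real.exp_pos _).le)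
  have hM : 0 < max C₁ C₂ := lt_max_of_lt_left hC₁
  have hcov : (0 : ℝ) ≤ cov K ε := Nat.cast_nonneg _
  have hx : min c₁ c₂ * cov K ε ≤ c₁ * cov K ε :=
    mul_le_mul_of_nonneg_right (min_le_left _ _) hcov
  have hy : min c₁ c₂ * (1 / D ^ 2) ≤ c₂ / D ^ 2 := by
    rw [div_eq_mul_one_div c₂]
    exact mul_le_mul_of_nonneg_right (min_le_right _ _) (by positivity)
  have hcost : min c₁ c₂ / 2 * cost K ε =
      (min c₁ c₂ * cov K ε + min c₁ c₂ * (1 / D ^ 2)) / 2 := by
    unfold cost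
    rw [← hD]
    ring
  rw [hcost]
  rcases le_total (c₁ * cov K ε) (c₂ / D ^ 2) with h | h
  · refine q2.trans (mul_le_mul_of_nonneg_left (Real.exp_le_exp.2 ?_) hM.le)
    linarith
  · refine q1.trans (mul_le_mul_of_nonneg_left (Real.exp_le_exp.2 ?_) hM.le)
    linarith

end Pool.Agent.H99.SL
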