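import Pool.Agent.H99.SL.Stm3
import Pool.Agent.H99.SL.UP

/-! SL-UPA: a largest cluster with a given shape, upper bound by the covering number -/

set_option autoImplicit false

namespace Pool.Agent.H99.SL

open H99L Pool.Agent.H99.DR Pool.Agent.H99.MS Filter Topology
open TopologicalSpace (NonemptyCompacts)

namespace UPAaux

open UPaux

/-- the lattice point next to `n x` -/
noncomputable def cI (n : ℕ) (x : ℂ) : ℤ × ℤ := (⌊(n : ℝ) * x.re⌋, ⌊(n : ℝ) * x.im⌋)

/-- the cluster has a vertex near `n x` -/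
theorem near {n m : ℕ} {ε : ℝ} {F : Finset Edge} {v : ℤ × ℤ} (hn : 1 ≤ n)
    (hm : 2 * ε * n + 3 ≤ m) {x : ℂ} (hd : ∃ q ∈ (shape n F v : Set ℂ), dist x q < 2 * ε) :
    ∃ z ∈ cluster F v, In (cI n x) m z := by
  have hn0 : (0 : ℝ) < n := by exact_mod_cast hn
  have hnc : (n : ℂ) ≠ 0 := by exact_mod_cast hn0.ne'
  obtain ⟨q, ⟨b, hb, rfl⟩, hq⟩ := hd
  have hb' : b ∈ body F v := hb
  obtain ⟨z, hz, hbz⟩ := body_near hb'
  refine ⟨z, hz, ?_⟩
  have hq' : dist x (b / (n : ℂ)) < 2 * ε := hq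
  have e3 : dist x (b / (n : ℂ)) = dist ((n : ℂ) * x) b / n := by
    have e4 : x - b / (n : ℂ) = ((n : ℂ) * x - b) / n := by field_simp
    rw [dist_eq_norm, e4, norm_div, Complex.norm_natCast, ← dist_eq_norm]
  rw [e3, div_lt_iff₀ hn0] at hq'
  have h5 : ‖(n : ℂ) * x - pt z‖ ≤ 2 * ε * n + 1 := by
    rw [← dist_eq_norm]
    have := dist_triangle ((n : ℂ) * x) b (pt z)
    linarith
  have h6 : |(n : ℝ) * x.re - z.1| ≤ 2 * ε * n + 1 := by
    have e1 : ((n : ℂ) * x - pt z).re = n * x.re - z.1 := by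
      rw [Complex.sub_re]
      simp [pt]
    rw [← e1]
    exact (Complex.abs_re_le_norm _).trans h5
  have h7 : |(n : ℝ) * x.im - z.2| ≤ 2 * ε * n + 1 := by
    have e1 : ((n : ℂ) * x - pt z).im = n * x.im - z.2 := by
      rw [Complex.sub_im]
      simp [pt]
    rw [← e1]
    exact (Complex.abs_im_le_norm _).trans h5
  have f1 := Int.floor_le ((n : ℝ) * x.re)
  have f2 := Int.lt_floor_add_one ((n : ℝ) * x.re)
  have f3 := Int.floor_le ((n : ℝ) * x.im)
  have f4 := Int.lt_floor_add_one ((n : ℝ) * x.im)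
  rw [abs_le] at h6 h7
  obtain ⟨a1, a2⟩ := h6
  obtain ⟨a3, a4⟩ := h7
  have b1 : ((⌊(n : ℝ) * x.re⌋ - m : ℤ) : ℝ) ≤ (z.1 : ℤ) := by push_cast; linarith
  have b2 : ((z.1 : ℤ) : ℝ) ≤ ((⌊(n : ℝ) * x.re⌋ + m : ℤ) : ℝ) := by push_cast; linarith
  have b3 : ((⌊(n : ℝ) * x.im⌋ - m : ℤ) : ℝ) ≤ (z.2 : ℤ) := by push_cast; linarith
  have b4 : ((z.2 : ℤ) : ℝ) ≤ ((⌊(n : ℝ) * x.im⌋ + m : ℤ) : ℝ) := by push_cast; linarith
  exact ⟨by exact_mod_cast b1, by exact_mod_cast b2, by exact_mod_cast b3, by exact_mod_cast b4⟩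

/-- points far from each other -/
theorem far {n m : ℕ} {ε : ℝ} (hε : 0 < ε) (hn : 10 ≤ ε * n) (hm : (m : ℝ) ≤ 3 * (ε * n) + 1)
    {x y : ℂ} (h : 100 * ε < dist x y) :
    7 * (m : ℤ) + 2 ≤ |(cI n x).1 - (cI n y).1| ∨ 7 * (m : ℤ) + 2 ≤ |(cI n x).2 - (cI n y).2| := by
  have hn0 : (0 : ℝ) ≤ n := Nat.cast_nonneg _
  have key : ∀ a b : ℝ, 70 * ε < |a - b| → 7 * (m : ℤ) + 2 ≤ |⌊(n : ℝ) * a⌋ - ⌊(n : ℝ) * b⌋| := by
    intro a b hab
    have h1 : 70 * (ε * n) ≤ |n * a - n * b| := by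
      rw [← mul_sub, abs_mul, abs_of_nonneg hn0]
      nlinarith
    have f1 := Int.floor_le ((n : ℝ) * a)
    have f2 := Int.lt_floor_add_one ((n : ℝ) * a)
    have f3 := Int.floor_le ((n : ℝ) * b)
    have f4 := Int.lt_floor_add_one ((n : ℝ) * b)
    have h2 : ((7 * (m : ℤ) + 2 : ℤ) : ℝ) ≤ ((|⌊(n : ℝ) * a⌋ - ⌊(n : ℝ) * b⌋| : ℤ) : ℝ) := by
      push_cast
      rcases le_abs.mp h1 with h | h
      · refine le_trans ?_ (le_abs_self _)
        linarith
      · refine le_trans ?_ (neg_le_abs _)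
        linarith
    exact_mod_cast h2
  by_cases h1 : 70 * ε < |x.re - y.re|
  · exact Or.inl (key _ _ h1)
  · by_cases h2 : 70 * ε < |x.im - y.im|
    · exact Or.inr (key _ _ h2)
    · exfalso
      push Not at h1 h2
      rw [Complex.dist_eq_re_im] at h
      have h3 : (x.re - y.re) ^ 2 ≤ (70 * ε) ^ 2 := by
        rw [← sq_abs]; exact pow_le_pow_left₀ (abs_nonneg _) h1 2
      have h4 : (x.im - y.im) ^ 2 ≤ (70 * ε) ^ 2 := by
        rw [← sq_abs]; exact pow_le_pow_left₀ (abs_nonneg _) h2 2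
      have h5 : √((x.re - y.re) ^ 2 + (x.im - y.im) ^ 2) ≤ 100 * ε := by
        apply Real.sqrt_le_iff.mpr
        refine ⟨by positivity, ?_⟩
        nlinarith [sq_nonneg ε]
      linarith

theorem disj {m : ℕ} {c c' : ℤ × ℤ}
    (h : 7 * (m : ℤ) + 2 ≤ |c.1 - c'.1| ∨ 7 * (m : ℤ) + 2 ≤ |c.2 - c'.2|) :
    Disjoint (RB c m) (RB c' m) := by
  rw [Finset.disjoint_left]
  intro e h1 h2
  obtain ⟨⟨a1, a2⟩, a3, a4⟩ := mem_RB h1
  obtain ⟨⟨b1, b2⟩, b3, b4⟩ := mem_RB h2
  have hm0 : (0 : ℤ) ≤ m := Int.natCast_nonneg _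
  rcases h with h | h
  · rcases le_abs.mp h with h | h <;> omega
  · rcases le_abs.mp h with h | h <;> omega

theorem arm_of {m : ℕ} {F : Finset Edge} {v : ℤ × ℤ} {c c' : ℤ × ℤ}
    (h : 7 * (m : ℤ) + 2 ≤ |c.1 - c'.1| ∨ 7 * (m : ℤ) + 2 ≤ |c.2 - c'.2|)
    (h1 : ∃ z ∈ cluster F v, In c m z) (h2 : ∃ z ∈ cluster F v, In c' m z) : Arm c m F := by
  have hm0 : (0 : ℤ) ≤ m := Int.natCast_nonneg _
  obtain ⟨z, hz, j1, j2, j3, j4⟩ := h1
  obtain ⟨z', hz', i1, i2, i3, i4⟩ := h2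
  have hr : Reach (↑F : Set Edg) z z' := (mem_cluster.1 hz).symm.trans (mem_cluster.1 hz')
  have hout : z'.1 ≤ c.1 - 3 * m ∨ c.1 + 3 * m ≤ z'.1 ∨ z'.2 ≤ c.2 - 3 * m ∨
      c.2 + 3 * m ≤ z'.2 := by
    rcases h with h | h
    · rcases le_abs.mp h with h | h <;> omega
    · rcases le_abs.mp h with h | h <;> omega
  obtain ⟨w, hw1, hw2, hw3⟩ := first_exit (G := (↑F : Set Edg)) (a := c.1 - (3 * m : ℕ))
    (b := c.1 + (3 * m : ℕ)) (c := c.2 - (3 * m : ℕ)) (d := c.2 + (3 * m : ℕ)) (u := z) (v := z')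
    ⟨⟨by push_cast; omega, by push_cast; omega⟩, by push_cast; omega, by push_cast; omega⟩ hr
    (by push_cast; omega)
  refine ⟨z, w, ⟨j1, j2, j3, j4⟩, ?_, ?_⟩
  · rcases hw2 with h | h | h | h
    · exact Or.inl h.le
    · exact Or.inr (Or.inl h.ge)
    · exact Or.inr (Or.inr (Or.inl h.le))
    · exact Or.inr (Or.inr (Or.inr h.ge))
  · rw [Finset.coe_inter]
    exact hw3

/-- a maximal separated subset -/
theorem exists_sep (K : NonemptyCompacts ℂ) {r : ℝ} (hr : 0 < r) : ∃ T : Finset ℂ,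
    (∀ x ∈ T, x ∈ (K : Set ℂ)) ∧ (∀ x ∈ T, ∀ y ∈ T, x ≠ y → r < dist x y) ∧
      ∀ p ∈ (K : Set ℂ), ∃ t ∈ T, dist p t ≤ r := by
  classical
  obtain ⟨S, _, hSf, hS⟩ := K.isCompact.finite_cover_balls (half_pos hr)
  set D : Set ℕ := {k | ∃ T : Finset ℂ, (∀ x ∈ T, x ∈ (K : Set ℂ)) ∧
    (∀ x ∈ T, ∀ y ∈ T, x ≠ y → r < dist x y) ∧ T.card = k} with hD
  have hne : D.Nonempty := ⟨0, ∅, by simp, by simp, rfl⟩
  have hbdd : BddAbove D := by
    refine ⟨hSf.toFinset.card, ?_⟩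
    rintro k ⟨T, hT1, hT2, rfl⟩
    have hc : ∀ x ∈ T, ∃ s ∈ S, dist x s < r / 2 := by
      intro x hx
      have h1 := hS (hT1 x hx)
      simp only [Set.mem_iUnion, Metric.mem_ball, exists_prop] at h1
      exact h1
    choose! f hf1 hf2 using hc
    refine Finset.card_le_card_of_injOn f (fun x hx => ?_) ?_
    · rw [Set.Finite.coe_toFinset]
      exact hf1 x hx
    · intro x hx y hy hxy
      by_contra hne
      have h1 := hT2 x hx y hy hne
      have h2 := hf2 x hx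
      have h3 := hf2 y hy
      have h4 := dist_triangle x (f x) y
      rw [hxy] at h2 h4
      rw [dist_comm (f y) y] at h4
      linarith
  obtain ⟨T, hT1, hT2, hT3⟩ := Nat.sSup_mem hne hbdd
  refine ⟨T, hT1, hT2, ?_⟩
  intro p hp
  by_contra hcon
  push Not at hcon
  have hpT : p ∉ T := by
    intro h
    have := hcon p h
    rw [dist_self] at this
    linarith
  have h1 : (insert p T).card ∈ D := by
    refine ⟨insert p T, ?_, ?_, rfl⟩
    · intro x hx
      rcases Finset.mem_insert.1 hx with rfl | h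
      · exact hp
      · exact hT1 x h
    · intro x hx y hy hxy
      rcases Finset.mem_insert.1 hx with rfl | h
      · rcases Finset.mem_insert.1 hy with rfl | h'
        · exact absurd rfl hxy
        · exact hcon y h'
      · rcases Finset.mem_insert.1 hy with rfl | h'
        · rw [dist_comm]
          exact hcon x h
        · exact hT2 x h y h' hxy
  have h2 := le_csSup hbdd h1
  rw [Finset.card_insert_of_notMem hpT, hT3] at h2
  omega

/-- the covering number and separated sets -/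
theorem cov_le (K : NonemptyCompacts ℂ) {ε : ℝ} (hε : 0 < ε) (T : Finset ℂ)
    (hT : ∀ p ∈ (K : Set ℂ), ∃ t ∈ T, dist p t ≤ 100 * ε) : cov K ε ≤ 160801 * T.card := by
  classical
  obtain ⟨I, hI⟩ : ∃ I : Finset ℤ, I = Finset.Icc (-200) 200 := ⟨_, rfl⟩
  have hIc : I.card = 401 := by rw [hI]; simp
  obtain ⟨g, hg⟩ : ∃ g : ℂ × ℤ × ℤ → ℂ,
      ∀ t a b, g (t, a, b) = t + ⟨a * (ε / 2), b * (ε / 2)⟩ :=
    ⟨fun w => w.1 + ⟨w.2.1 * (ε / 2), w.2.2 * (ε / 2)⟩, fun _ _ _ => rfl⟩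
  set T' : Finset ℂ := (T ×ˢ I ×ˢ I).image g with hT'
  have hcard : T'.card ≤ 160801 * T.card := by
    refine Finset.card_image_le.trans ?_
    rw [Finset.card_product, Finset.card_product, hIc]
    omega
  suffices hmem : ∀ p ∈ (K : Set ℂ), ∃ t ∈ T', dist p t ≤ ε by
    have h : T'.card ∈ {m : ℕ | ∃ T : Finset ℂ, T.card = m ∧
        ∀ p ∈ (K : Set ℂ), ∃ t ∈ T, dist p t ≤ ε} := ⟨T', rfl, hmem⟩
    exact (Nat.sInf_le h).trans hcard
  intro p hp
  obtain ⟨t, ht, hd⟩ := hT p hp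
  have hε2 : 0 < ε / 2 := by positivity
  have key : ∀ u : ℝ, |u| ≤ 100 * ε → ∃ a ∈ I, |u - a * (ε / 2)| ≤ ε / 2 := by
    intro u hu
    refine ⟨⌊u / (ε / 2)⌋, ?_, ?_⟩
    · rw [hI, Finset.mem_Icc]
      rw [abs_le] at hu
      constructor
      · rw [Int.le_floor]
        push_cast
        rw [le_div_iff₀ hε2]
        linarith [hu.1]
      · have h1 := Int.floor_le (u / (ε / 2))
        have h2 : u / (ε / 2) ≤ 200 := by
          rw [div_le_iff₀ hε2]
          linarith [hu.2]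
        have h3 : ((⌊u / (ε / 2)⌋ : ℤ) : ℝ) ≤ ((200 : ℤ) : ℝ) := by push_cast; linarith
        exact_mod_cast h3
    · have h1 := Int.floor_le (u / (ε / 2))
      have h2 := Int.lt_floor_add_one (u / (ε / 2))
      rw [le_div_iff₀ hε2] at h1
      rw [div_lt_iff₀ hε2] at h2
      rw [abs_le]
      constructor <;> linarith
  have h1 : |(p - t).re| ≤ 100 * ε := (Complex.abs_re_le_norm _).trans (by rwa [← dist_eq_norm])
  have h2 : |(p - t).im| ≤ 100 * ε := (Complex.abs_im_le_norm _).trans (by rwa [← dist_eq_norm])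
  obtain ⟨a, ha, ha'⟩ := key _ h1
  obtain ⟨b, hb, hb'⟩ := key _ h2
  refine ⟨g (t, a, b), Finset.mem_image_of_mem g (Finset.mem_product.2 ⟨ht,
    Finset.mem_product.2 ⟨ha, hb⟩⟩), ?_⟩
  rw [Complex.dist_eq_re_im]
  apply Real.sqrt_le_iff.mpr
  refine ⟨hε.le, ?_⟩
  have e1 : p.re - (g (t, a, b)).re = (p - t).re - a * (ε / 2) := by
    have : (g (t, a, b)).re = t.re + a * (ε / 2) := by rw [hg, Complex.add_re]
    rw [this, Complex.sub_re]; ring
  have e2 : p.im - (g (t, a, b)).im = (p - t).im - b * (ε / 2) := by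
    have : (g (t, a, b)).im = t.im + b * (ε / 2) := by rw [hg, Complex.add_im]
    rw [this, Complex.sub_im]; ring
  rw [e1, e2]
  have h3 : ((p - t).re - a * (ε / 2)) ^ 2 ≤ (ε / 2) ^ 2 := by
    rw [← sq_abs]; exact pow_le_pow_left₀ (abs_nonneg _) ha' 2
  have h4 : ((p - t).im - b * (ε / 2)) ^ 2 ≤ (ε / 2) ^ 2 := by
    rw [← sq_abs]; exact pow_le_pow_left₀ (abs_nonneg _) hb' 2
  nlinarith [sq_nonneg ε]

end UPAaux

open UPaux UPAaux in
theorem upa : S_UPA := by
  classical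
  set κ : ℝ := -Real.log lam with hκ
  have hκ0 : 0 < κ := by
    have := Real.log_neg lam_pos lam_lt
    linarith
  have hlamexp : lam = Real.exp (-κ) := by
    rw [hκ, neg_neg, Real.exp_log lam_pos]
  refine ⟨κ / 160801, 10 + Real.exp κ, by positivity, by positivity, ?_⟩
  intro K _ ε hε hε1 n hn
  have hexp0 := Real.exp_pos κ
  have hεn : 10 ≤ ε * n := by linarith
  have hn0 : (0 : ℝ) < n := by
    by_contra h
    push Not at h
    have : ε * n ≤ 0 := mul_nonpos_of_nonneg_of_nonpos hε.le h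
    linarith
  have hn1 : 1 ≤ n := by
    have : 0 < n := by exact_mod_cast hn0
    omega
  obtain ⟨T, hTK, hTs, hTc⟩ := exists_sep K (r := 100 * ε) (by positivity)
  have hcov := cov_le K hε T hTc
  have hcov' : (cov K ε : ℝ) ≤ 160801 * T.card := by exact_mod_cast hcov
  have hlow : Real.exp (-κ) ^ T.card ≤ Real.exp (-(κ / 160801 * cov K ε)) := by
    rw [← Real.exp_nat_mul]
    apply Real.exp_le_exp.2
    have : κ / 160801 * cov K ε ≤ κ / 160801 * (160801 * T.card) :=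
      mul_le_mul_of_nonneg_left hcov' (by positivity)
    have e : κ / 160801 * (160801 * T.card) = T.card * κ := by ring
    rw [e] at this
    linarith
  have hpos := Real.exp_pos (-(κ / 160801 * cov K ε))
  rw [prob_eq]
  rcases Nat.lt_or_ge T.card 2 with h2 | h2
  · -- trivial
    refine (Pr_le_one okh _ _).trans ?_
    have h3 : Real.exp (-κ) ≤ Real.exp (-(κ / 160801 * cov K ε)) := by
      refine le_trans ?_ hlow
      rcases Nat.lt_or_ge T.card 1 with h1 | h1
      · have : T.card = 0 := by omega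
        rw [this, pow_zero, Real.exp_le_one_iff]
        linarith
      · have : T.card = 1 := by omega
        rw [this, pow_one]
    calc (1 : ℝ) = Real.exp κ * Real.exp (-κ) := by
          rw [← Real.exp_add, add_neg_cancel, Real.exp_zero]
      _ ≤ (10 + Real.exp κ) * Real.exp (-(κ / 160801 * cov K ε)) := by
          refine mul_le_mul (by linarith) h3 (Real.exp_pos _).le (by positivity)
  · set m : ℕ := ⌈3 * (ε * n)⌉₊ with hmd
    have hm1 : 3 * (ε * n) ≤ m := Nat.le_ceil _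
    have hm2 : (m : ℝ) ≤ 3 * (ε * n) + 1 := (Nat.ceil_lt_add_one (by positivity)).le
    have hm5 : 5 ≤ m := by
      have : (5 : ℝ) ≤ m := by linarith
      exact_mod_cast this
    have hm3 : 2 * ε * n + 3 ≤ m := by linarith
    set U : Finset Edg := RE 0 (n : ℤ) 0 n with hU
    have hI := indep_pow U (fun x => RB (cI n x) m ∩ U) (fun x F => Arm (cI n x) m (F ∩ U)) T
      (fun x _ => Finset.inter_subset_right)
      (fun x hx y hy hxy => (disj (far hε hεn hm2 (hTs x hx y hy hxy))).mono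
        Finset.inter_subset_left Finset.inter_subset_left)
      (fun x _ F => by
        have e1 : F ∩ (RB (cI n x) m ∩ U) ∩ U = F ∩ U ∩ RB (cI n x) m := by
          ext e
          simp only [Finset.mem_inter]
          tauto
        rw [e1]
        exact arm_local _ _ _)
      (fun x _ => by
        refine (Pr_mono okh fun F hF h => ?_).trans (arm_le U (cI n x) hm5)
        rwa [Finset.inter_eq_left.2 hF] at h)
    have hpr : Pr hf U (fun F => ∃ v, Largest n F v ∧ dist (shape n F v) K ≤ ε) ≤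
        lam ^ T.card := by
      refine (Pr_mono okh fun F hF h => ?_).trans hI
      obtain ⟨v, _, hd⟩ := h
      intro x hx
      rw [Finset.inter_eq_left.2 hF]
      have hnear : ∀ y ∈ T, ∃ z ∈ cluster F v, In (cI n y) m z := by
        intro y hy
        refine near hn1 hm3 ?_
        rw [dist_comm, Metric.NonemptyCompacts.dist_eq] at hd
        have hlt : Metric.hausdorffDist (K : Set ℂ) (shape n F v : Set ℂ) < 2 * ε := by linarith
        exact Metric.exists_dist_lt_of_hausdorffDist_lt (hTK y hy) hlt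
          (Metric.hausdorffEDist_ne_top_of_nonempty_of_bounded K.nonempty
            (shape n F v).nonempty K.isCompact.isBounded (shape n F v).isCompact.isBounded)
      obtain ⟨y, hy, hxy⟩ := Finset.exists_mem_ne (by omega : 1 < T.card) x
      exact arm_of (far hε hεn hm2 (hTs x hx y hy hxy.symm)) (hnear x hx) (hnear y hy)
    refine hpr.trans ?_
    rw [hlamexp]
    refine hlow.trans ?_
    exact le_mul_of_one_le_left hpos.le (by linarith)

end Pool.Agent.H99.SL
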