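import Pool.Agent.H99.SL.Stm3

set_option autoImplicit false

/-!
Project SL, stub UPB: all clusters are small with probability at most `C exp (-c / D ^ 2)`.
-/

namespace Pool.Agent.H99.SL

open H99L Pool.Agent.H99.DR Pool.Agent.H99.MS

/-- Many independent unlikely events. -/
theorem UPB.pr_all {E ι : Type*} [DecidableEq E] [DecidableEq ι] {p : E → ℝ} (hp : Ok p)
    {U : Finset E} (T : ι → Finset E) (A : ι → Finset E → Prop) {r : ℝ} (hr : 0 ≤ r)
    (I : Finset ι) (hT : ∀ i ∈ I, T i ⊆ U)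
    (hd : ∀ i ∈ I, ∀ j ∈ I, i ≠ j → Disjoint (T i) (T j))
    (hA : ∀ i ∈ I, ∀ S : Finset E, T i ⊆ S → ∀ F, (A i F ↔ A i (F ∩ S)))
    (hP : ∀ i ∈ I, Pr p U (A i) ≤ r) :
    Pr p U (fun F => ∀ i ∈ I, A i F) ≤ r ^ I.card := by
  induction I using Finset.induction_on with
  | empty =>
    simp only [Finset.card_empty, pow_zero]
    exact Pr_le_one hp _ _
  | insert a I ha ih =>
    have h1 := ih (fun i hi => hT i (Finset.mem_insert_of_mem hi))
      (fun i hi j hj => hd i (Finset.mem_insert_of_mem hi) j (Finset.mem_insert_of_mem hj))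
      (fun i hi => hA i (Finset.mem_insert_of_mem hi))
      (fun i hi => hP i (Finset.mem_insert_of_mem hi))
    have h2 : Pr p U (fun F => ∀ i ∈ insert a I, A i F) =
        Pr p U (fun F => A a F ∧ ∀ i ∈ I, A i F) := by
      apply Pr_congr
      intro F _
      exact Finset.forall_mem_insert (a := a) (s := I) (p := fun i => A i F)
    have h3 := Pr_indep (p := p) (U := U) (S := T a) (T := I.biUnion T)
      (A := A a) (B := fun F => ∀ i ∈ I, A i F) (hT a (Finset.mem_insert_self a I))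
      (by
        intro e he
        rw [Finset.mem_biUnion] at he
        obtain ⟨i, hi, hei⟩ := he
        exact hT i (Finset.mem_insert_of_mem hi) hei)
      (by
        rw [Finset.disjoint_biUnion_right]
        intro i hi
        apply hd a (Finset.mem_insert_self a I) i (Finset.mem_insert_of_mem hi)
        rintro rfl
        exact ha hi)
      (fun F _ => hA a (Finset.mem_insert_self a I) _ (Finset.Subset.refl _) F)
      (fun F _ => forall_congr' fun i => forall_congr' fun hi =>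
        hA i (Finset.mem_insert_of_mem hi) _ (Finset.subset_biUnion_of_mem T hi) F)
    rw [h2, h3, Finset.card_insert_of_notMem ha, pow_succ, mul_comm]
    exact mul_le_mul h1 (hP a (Finset.mem_insert_self a I)) (Pr_nonneg hp _ _) (by positivity)

/-- No square of a `k` by `k` array is crossed. -/
theorem UPB.grid (n : ℕ) {s : ℕ} (hs : 0 < s) (k : ℕ) (hk : k * (s + 1) ≤ n + 1) :
    Pr hf (RE 0 (n : ℤ) 0 n) (fun F => ∀ i ∈ (Finset.range k ×ˢ Finset.range k : Finset (ℕ × ℕ)),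
      ¬ LRc (i.1 * (s + 1)) (i.1 * (s + 1) + s) (i.2 * (s + 1)) (i.2 * (s + 1) + s) F) ≤
      (1/2 : ℝ) ^ (k * k) := by
  have hc : (Finset.range k ×ˢ Finset.range k : Finset (ℕ × ℕ)).card = k * k := by
    simp
  rw [← hc]
  have hb : ∀ i : ℕ, i < k → (0 : ℤ) ≤ (i : ℤ) * (s + 1) ∧ (i : ℤ) * (s + 1) + s ≤ n := by
    intro i hi
    have h1 : ((i : ℤ) + 1) * ((s : ℤ) + 1) ≤ (k : ℤ) * (s + 1) :=
      mul_le_mul_of_nonneg_right (by exact_mod_cast hi) (by positivity)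
    have h2 : (k : ℤ) * ((s : ℤ) + 1) ≤ n + 1 := by exact_mod_cast hk
    refine ⟨by positivity, ?_⟩
    nlinarith
  have hsep : ∀ i j : ℕ, i < j → (i : ℤ) * (s + 1) + s < (j : ℤ) * (s + 1) := by
    intro i j hij
    have h1 : ((i : ℤ) + 1) * ((s : ℤ) + 1) ≤ (j : ℤ) * (s + 1) :=
      mul_le_mul_of_nonneg_right (by exact_mod_cast hij) (by positivity)
    nlinarith
  have hsub : ∀ i ∈ (Finset.range k ×ˢ Finset.range k : Finset (ℕ × ℕ)),
      LRE (i.1 * (s + 1)) (i.1 * (s + 1) + s) (i.2 * (s + 1)) (i.2 * (s + 1) + s) ⊆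
        RE 0 (n : ℤ) 0 n := by
    intro i hi
    rw [Finset.mem_product, Finset.mem_range, Finset.mem_range] at hi
    refine Finset.Subset.trans LRE_subset_RE ?_
    exact RE_subset (hb _ hi.1).1 (hb _ hi.1).2 (hb _ hi.2).1 (hb _ hi.2).2
  apply UPB.pr_all okh
    (fun i : ℕ × ℕ => LRE (i.1 * (s + 1)) (i.1 * (s + 1) + s) (i.2 * (s + 1))
      (i.2 * (s + 1) + s))
    (fun i F => ¬ LRc (i.1 * (s + 1)) (i.1 * (s + 1) + s) (i.2 * (s + 1))
      (i.2 * (s + 1) + s) F) (by norm_num) _ hsub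
  · rintro ⟨i1, i2⟩ _ ⟨j1, j2⟩ _ hij
    have hor : i1 < j1 ∨ j1 < i1 ∨ i2 < j2 ∨ j2 < i2 := by
      by_contra hcon
      push Not at hcon
      apply hij
      have e1 : i1 = j1 := by omega
      have e2 : i2 = j2 := by omega
      rw [e1, e2]
    have hor' : (i1 : ℤ) * (s + 1) + s < (j1 : ℤ) * (s + 1) ∨
        (j1 : ℤ) * (s + 1) + s < (i1 : ℤ) * (s + 1) ∨
        (i2 : ℤ) * (s + 1) + s < (j2 : ℤ) * (s + 1) ∨
        (j2 : ℤ) * (s + 1) + s < (i2 : ℤ) * (s + 1) := by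
      rcases hor with h | h | h | h
      · exact Or.inl (hsep _ _ h)
      · exact Or.inr (Or.inl (hsep _ _ h))
      · exact Or.inr (Or.inr (Or.inl (hsep _ _ h)))
      · exact Or.inr (Or.inr (Or.inr (hsep _ _ h)))
    rw [Finset.disjoint_left]
    rintro ⟨x, y, _ | _⟩ h1 h2
    · rw [mem_LRE_false] at h1 h2
      dsimp only at h1 h2
      omega
    · rw [mem_LRE_true] at h1 h2
      dsimp only at h1 h2
      omega
  · intro i _ S hS F
    exact not_congr (LRc_local hS)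
  · intro i hi
    have hsq : (1/2 : ℝ) ≤ Pr hf (RE 0 (n : ℤ) 0 n) (fun F => LRc (i.1 * (s + 1))
        (i.1 * (s + 1) + s) (i.2 * (s + 1)) (i.2 * (s + 1) + s) F) := by
      have h1 : Pr (fun _ => (1/2 : ℝ)) (RE 0 (n : ℤ) 0 n) (LRc (i.1 * (s + 1))
          (i.1 * (s + 1) + s) (i.2 * (s + 1)) (i.2 * (s + 1) + s)) =
          hh (1/2) ((i.1 : ℤ) * (s + 1) + s - (i.1 : ℤ) * (s + 1))
            ((i.2 : ℤ) * (s + 1) + s - (i.2 : ℤ) * (s + 1)) :=
        pr_LRc (1/2) (hsub i hi)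
      have h2 : ((i.1 : ℤ) * (s + 1) + s - (i.1 : ℤ) * (s + 1)) = s := by ring
      have h2' : ((i.2 : ℤ) * (s + 1) + s - (i.2 : ℤ) * (s + 1)) = s := by ring
      rw [h2, h2'] at h1
      have h3 := hh_square (s : ℤ) (by exact_mod_cast hs)
      calc (1/2 : ℝ) ≤ hh (1/2) s s := h3
        _ = _ := h1.symm
    rw [Pr_not]
    linarith

theorem upb : S_UPB := by
  refine ⟨1 / 288, 100, by norm_num, by norm_num, ?_⟩
  intro D hD hD2 n hn
  rw [prob_eq]
  have hn0 : (0 : ℝ) < n := by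
    by_contra h
    push Not at h
    have : D * n ≤ 0 := mul_nonpos_of_nonneg_of_nonpos hD.le h
    linarith
  by_cases hDl : 1 / 32 < D
  · refine (Pr_le_one okh _ _).trans ?_
    have h1 : 1 / 288 / D ^ 2 ≤ 4 := by
      rw [div_le_iff₀ (by positivity)]
      nlinarith
    have h2 : Real.exp 4 ≤ 100 := by
      have h3 : Real.exp 4 = Real.exp 1 ^ 4 := by
        rw [← Real.exp_nat_mul]; norm_num
      rw [h3]
      have h4 := Real.exp_one_lt_d9
      calc Real.exp 1 ^ 4 ≤ (2.7182818286 : ℝ) ^ 4 :=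
            pow_le_pow_left₀ (Real.exp_pos _).le h4.le 4
        _ ≤ 100 := by norm_num
    have h5 : Real.exp (-4) ≤ Real.exp (-(1 / 288 / D ^ 2)) := Real.exp_le_exp.mpr (by linarith)
    have h6 : Real.exp (-4) * Real.exp 4 = 1 := by rw [← Real.exp_add]; norm_num
    have h7 := Real.exp_pos (-4)
    nlinarith
  push Not at hDl
  set s := ⌈4 * D * n⌉₊ with hs
  have s1 : 4 * D * n ≤ s := Nat.le_ceil _
  have s2 : (s : ℝ) ≤ 4 * D * n + 1 := (Nat.ceil_lt_add_one (by positivity)).le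
  have hs0 : 0 < s := by
    have : (0 : ℝ) < s := by linarith
    exact_mod_cast this
  set k := (n + 1) / (s + 1) with hk
  have hk1 : k * (s + 1) ≤ n + 1 := Nat.div_mul_le_self _ _
  have hk2 : n + 1 < (k + 1) * (s + 1) := by
    have := Nat.lt_mul_div_succ (n + 1) (Nat.succ_pos s)
    rw [hk, mul_comm]
    exact this
  have h1 := UPB.grid n hs0 k hk1
  have h2 : Pr hf (RE 0 (n : ℤ) 0 n) (fun F => ∃ v, Largest n F v ∧ diam F v ≤ 3 * D * n) ≤
      Pr hf (RE 0 (n : ℤ) 0 n)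
        (fun F => ∀ i ∈ (Finset.range k ×ˢ Finset.range k : Finset (ℕ × ℕ)),
        ¬ LRc (i.1 * (s + 1)) (i.1 * (s + 1) + s) (i.2 * (s + 1)) (i.2 * (s + 1) + s) F) := by
    apply Pr_mono okh
    rintro F hF ⟨v, hv, hvd⟩ i hi ⟨y1, y2, -, -, hr⟩
    have hne : (((i.1 : ℤ) * (s + 1), y1) : ℤ × ℤ) ≠ ((i.1 : ℤ) * (s + 1) + s, y2) := by
      intro h
      have := congrArg Prod.fst h
      dsimp only at this
      omega
    have hr' := hr.mono Set.inter_subset_left
    have hx : (((i.1 : ℤ) * (s + 1), y1) : ℤ × ℤ) ∈ bxV n := mem_bxV.mpr (reach_inR hF hr' hne)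
    have h3 : ed ((i.1 : ℤ) * (s + 1), y1) ((i.1 : ℤ) * (s + 1) + s, y2) ≤
        diam F ((i.1 : ℤ) * (s + 1), y1) :=
      ed_le_diam hF hx (mem_cluster.mpr (Reach.refl _ _)) (mem_cluster.mpr hr')
    have h4 : (s : ℝ) ≤ ed ((i.1 : ℤ) * (s + 1), y1) ((i.1 : ℤ) * (s + 1) + s, y2) := by
      apply le_of_sq_le_sq _ (ed_nonneg _ _)
      rw [ed_sq']
      push_cast
      nlinarith [sq_nonneg ((y1 : ℝ) - y2)]
    have h5 := hv.2 _ hx
    have h6 : 0 < D * n := by positivity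
    linarith
  refine h2.trans (h1.trans ?_)
  have h4 : (n : ℝ) + 1 < ((k : ℝ) + 1) * (s + 1) := by exact_mod_cast hk2
  have h5 : (s : ℝ) + 1 ≤ 6 * (D * n) := by linarith
  have h6 : (n : ℝ) ≤ ((k : ℝ) + 1) * (6 * (D * n)) := by
    have : ((k : ℝ) + 1) * (s + 1) ≤ ((k : ℝ) + 1) * (6 * (D * n)) :=
      mul_le_mul_of_nonneg_left h5 (by positivity)
    linarith
  have h7 : 1 ≤ ((k : ℝ) + 1) * (6 * D) := by
    have e : ((k : ℝ) + 1) * (6 * (D * n)) = (((k : ℝ) + 1) * (6 * D)) * n := by ring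
    rw [e] at h6
    by_contra hcon
    push Not at hcon
    nlinarith
  have h8 : 1 ≤ 12 * D * k := by nlinarith
  have h9 : 1 / 288 / D ^ 2 ≤ (k * k : ℕ) * (1 / 2 : ℝ) := by
    rw [div_le_iff₀ (by positivity)]
    push_cast
    have : 1 ≤ (12 * D * k) * (12 * D * k) := by nlinarith
    nlinarith
  have h10 : (1 / 2 : ℝ) ≤ Real.exp (-(1 / 2)) := by
    have := Real.add_one_le_exp (-(1 / 2 : ℝ))
    linarith
  calc (1 / 2 : ℝ) ^ (k * k) ≤ Real.exp (-(1 / 2)) ^ (k * k) :=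
        pow_le_pow_left₀ (by norm_num) h10 _
    _ = Real.exp (-((k * k : ℕ) * (1 / 2 : ℝ))) := by
        rw [← Real.exp_nat_mul]; congr 1; ring
    _ ≤ Real.exp (-(1 / 288 / D ^ 2)) := Real.exp_le_exp.mpr (by linarith)
    _ ≤ 100 * Real.exp (-(1 / 288 / D ^ 2)) := by
        have := Real.exp_pos (-(1 / 288 / D ^ 2))
        linarith

end Pool.Agent.H99.SL
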