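import Pool.Agent.H99.SL.Stm3

set_option autoImplicit false

/-! Project SL, stub WID (helper72) -/

namespace Pool.Agent.H99.SL

open H99L Pool.Agent.H99.DR Pool.Agent.H99.MS Filter Topology
open TopologicalSpace (NonemptyCompacts)

theorem wid : S_WID := by
  intro K n s w M hs hsw hor hw Z hZ
  obtain ⟨hZb, hZ1, hZ2⟩ := mem_ZZ.mp hZ
  rcases hor with rfl | hdiam
  · obtain ⟨p0, hp0⟩ := K.nonempty
    obtain ⟨a, ha, b, hb, hab⟩ := hw p0 hp0
    obtain ⟨wa, hwa, hwa'⟩ := hZ2 a (mem_AA.mpr ⟨p0, hp0, ha⟩)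
    obtain ⟨wb, hwb, hwb'⟩ := hZ2 b (mem_AA.mpr ⟨p0, hp0, hb⟩)
    refine ⟨wb, hwb, wa, hwa, Or.inl ?_⟩
    simp only [inR] at hwa' hwb'
    have h0 : (0 : ℤ) ≤ w := by positivity
    have h1 : (54 : ℤ) * w ≤ wb.1 - wa.1 := by
      have : (55 : ℤ) * w ≤ b.1 * w - a.1 * w := by nlinarith
      linarith [hwa'.1.1, hwa'.1.2, hwb'.1.1, hwb'.1.2]
    refine le_trans ?_ (le_abs_self _)
    linarith
  · by_contra hcon
    push Not at hcon
    have hs5 : (5 : ℝ) ≤ s := by exact_mod_cast hs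
    have hsw' : (s : ℝ) ≤ w := by exact_mod_cast hsw
    have hw0 : (0 : ℝ) < w := by linarith
    have hn : (0 : ℝ) < n := by
      rcases Nat.eq_zero_or_pos n with h | h
      · rw [h, Nat.cast_zero, mul_zero] at hdiam
        linarith
      · exact_mod_cast h
    have hnear : ∀ p ∈ (K : Set ℂ), ∃ x ∈ Z, |(x.1 : ℝ) - n * p.re| ≤ 61 * s ∧
        |(x.2 : ℝ) - n * p.im| ≤ 61 * s := by
      intro p hp
      obtain ⟨a', ha', -, -, -⟩ := hw p hp
      obtain ⟨x, hxZ, hxc⟩ := hZ2 a' (mem_AA.mpr ⟨p, hp, ha'⟩)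
      obtain ⟨_, _, m1, m2⟩ := ha'
      refine ⟨x, hxZ, ?_, ?_⟩
      · simp only [inR] at hxc
        have c1 : (a'.1 : ℝ) * s ≤ x.1 ∧ (x.1 : ℝ) ≤ a'.1 * s + s := by exact_mod_cast hxc.1
        push_cast at m1
        rw [abs_le] at m1 ⊢
        constructor <;> linarith [c1.1, c1.2, m1.1, m1.2]
      · simp only [inR] at hxc
        have c2 : (a'.2 : ℝ) * s ≤ x.2 ∧ (x.2 : ℝ) ≤ a'.2 * s + s := by exact_mod_cast hxc.2
        push_cast at m2
        rw [abs_le] at m2 ⊢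
        constructor <;> linarith [c2.1, c2.2, m2.1, m2.2]
    have hd : Metric.diam (K : Set ℂ) ≤ 258 * w / n := by
      apply Metric.diam_le_of_forall_dist_le (by positivity)
      intro p hp q hq
      obtain ⟨x, hx, x1, x2⟩ := hnear p hp
      obtain ⟨y, hy, y1, y2⟩ := hnear q hq
      obtain ⟨g1, g2⟩ := hcon x hx y hy
      have g1' : |(x.1 : ℝ) - y.1| ≤ 50 * w := by exact_mod_cast g1.le
      have g2' : |(x.2 : ℝ) - y.2| ≤ 50 * w := by exact_mod_cast g2.le
      rw [abs_le] at x1 x2 y1 y2 g1' g2'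
      have e1 : |p.re - q.re| ≤ 172 * w / n := by
        rw [abs_le, le_div_iff₀ hn, neg_le, le_div_iff₀ hn]
        constructor <;> nlinarith [x1.1, x1.2, y1.1, y1.2, g1'.1, g1'.2]
      have e2 : |p.im - q.im| ≤ 172 * w / n := by
        rw [abs_le, le_div_iff₀ hn, neg_le, le_div_iff₀ hn]
        constructor <;> nlinarith [x2.1, x2.2, y2.1, y2.2, g2'.1, g2'.2]
      have := dist_le_coord (by positivity) e1 e2
      calc dist p q ≤ 3 / 2 * (172 * w / n) := this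
        _ = 258 * w / n := by ring
    have h1 : Metric.diam (K : Set ℂ) * n ≤ 258 * w := by
      rw [le_div_iff₀ hn] at hd
      exact hd
    linarith

end Pool.Agent.H99.SL
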