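import Pool.Agent.H99.SL.Blocks

set_option autoImplicit false

/-!
The clusters which follow the network.
-/

namespace Pool.Agent.H99.SL

open H99L Pool.Agent.H99.DR Pool.Agent.H99.MS Filter Topology
open TopologicalSpace (NonemptyCompacts)

open Classical in
/-- The possible vertex sets of the cluster of the network. -/
noncomputable def ZZ (n s : ℕ) (A : Finset (ℤ × ℤ)) : Finset (Finset Vtx) :=
  (bxV n).powerset.filter (fun Z =>
    (∀ u ∈ Z, ∃ a ∈ A, |u.1 - a.1 * s| ≤ 23 * s ∧ |u.2 - a.2 * s| ≤ 23 * s) ∧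
    ∀ a ∈ A, ∃ w ∈ Z, inR (a.1 * s) (a.1 * s + s) (a.2 * s) (a.2 * s + s) w)

theorem mem_ZZ {n s : ℕ} {A : Finset (ℤ × ℤ)} {Z : Finset Vtx} : Z ∈ ZZ n s A ↔ Z ⊆ bxV n ∧
    (∀ u ∈ Z, ∃ a ∈ A, |u.1 - a.1 * s| ≤ 23 * s ∧ |u.2 - a.2 * s| ≤ 23 * s) ∧
    ∀ a ∈ A, ∃ w ∈ Z, inR (a.1 * s) (a.1 * s + s) (a.2 * s) (a.2 * s + s) w := by
  classical
  simp only [ZZ, Finset.mem_filter, Finset.mem_powerset]

open Classical in
/-- The blocks far from the network. -/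
noncomputable def TF (s q : ℕ) (A : Finset (ℤ × ℤ)) : Finset (Vtx × ℕ) :=
  (TB s q).filter (fun t => ∀ a ∈ A, 3 * (t.2 : ℤ) + 3 * s ≤ |t.1.1 - a.1 * s| ∨
    3 * (t.2 : ℤ) + 3 * s ≤ |t.1.2 - a.2 * s|)

theorem mem_TF {s q : ℕ} {A : Finset (ℤ × ℤ)} {t : Vtx × ℕ} : t ∈ TF s q A ↔ t ∈ TB s q ∧
    ∀ a ∈ A, 3 * (t.2 : ℤ) + 3 * s ≤ |t.1.1 - a.1 * s| ∨
      3 * (t.2 : ℤ) + 3 * s ≤ |t.1.2 - a.2 * s| := by
  classical
  simp only [TF, Finset.mem_filter]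

/-- The cluster of the network is one of the sets `ZZ`. -/
theorem exists_Z (net : S_NET) (hole : S_HOLE) {n s q k : ℕ} {A : Finset (ℤ × ℤ)}
    (hs : 1 ≤ s) (hk : k ≤ s) (hn : n < (q + 1) * s) (hkn : k ≤ n)
    (hA : A.Nonempty) (hc : Conn4 A)
    (hAn : ∀ a ∈ A, (0 ≤ a.1 * s ∧ a.1 * s + s ≤ n) ∧ (0 ≤ a.2 * s ∧ a.2 * s + s ≤ n))
    {F G : Finset Edg} (hF : F ⊆ RE 0 (n : ℤ) 0 n) (hG : G ⊆ RE 0 (k : ℤ) 0 k)
    (hNet : Net s A F) (hB : ∀ t ∈ TF s q A, Bl t.1 t.2 F) :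
    ∃ Z ∈ ZZ n s A, IsCl Z (F ∪ G) := by
  obtain ⟨v0, ⟨a0, ha0, hv0⟩, hw⟩ := net s A F hs hA hc hNet
  have hGn : G ⊆ RE 0 (n : ℤ) 0 n :=
    hG.trans (RE_subset le_rfl (by exact_mod_cast hkn) le_rfl (by exact_mod_cast hkn))
  have hH : F ∪ G ⊆ RE 0 (n : ℤ) 0 n := Finset.union_subset hF hGn
  have hv0b : v0 ∈ bxV n := by
    rw [mem_bxV]
    have := hAn a0 ha0
    simp only [inR] at hv0 ⊢
    omega
  refine ⟨clF n (F ∪ G) v0, mem_ZZ.mpr ⟨?_, ?_, ?_⟩, clF_isCl hH hv0b⟩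
  · intro u hu
    exact (mem_clF.mp hu).1
  · intro u hu
    obtain ⟨hub, huc⟩ := mem_clF.mp hu
    have hr : Reach (↑(F ∪ G) : Set Edg) v0 u := mem_cluster.mp huc
    obtain ⟨t, ht, hin⟩ := TB_cover hs hn hub
    have hrad := TB_rad ht
    by_cases htf : t ∈ TF s q A
    · exfalso
      have hbl := hB t htf
      have hno := hole k t.1 t.2 F G (by omega) hG (TB_hole hk hs ht) hbl u v0 hin hr.symm
      apply hno
      have hfar := (mem_TF.mp htf).2 a0 ha0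
      simp only [inR] at hv0
      simp only [Out]
      rcases hfar with h | h
      · rcases le_abs.mp h with h | h
        · left; linarith [hv0.1.1, hv0.1.2]
        · right; left; linarith [hv0.1.1, hv0.1.2]
      · rcases le_abs.mp h with h | h
        · right; right; left; linarith [hv0.2.1, hv0.2.2]
        · right; right; right; linarith [hv0.2.1, hv0.2.2]
    · have : ¬ ∀ a ∈ A, 3 * (t.2 : ℤ) + 3 * s ≤ |t.1.1 - a.1 * s| ∨
          3 * (t.2 : ℤ) + 3 * s ≤ |t.1.2 - a.2 * s| := fun h => htf (mem_TF.mpr ⟨ht, h⟩)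
      push Not at this
      obtain ⟨a, ha, h1, h2⟩ := this
      refine ⟨a, ha, ?_, ?_⟩
      · have hr5 : (t.2 : ℤ) ≤ 5 * s := by exact_mod_cast hrad.2
        simp only [In] at hin
        rw [abs_lt] at h1
        rw [abs_le]
        constructor <;> linarith [hin.1, hin.2.1, h1.1, h1.2]
      · have hr5 : (t.2 : ℤ) ≤ 5 * s := by exact_mod_cast hrad.2
        simp only [In] at hin
        rw [abs_lt] at h2
        rw [abs_le]
        constructor <;> linarith [hin.2.2.1, hin.2.2.2, h2.1, h2.2]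
  · intro a ha
    obtain ⟨w, hw1, hw2⟩ := hw a ha
    refine ⟨w, ?_, hw1⟩
    have hr : Reach (↑(F ∪ G) : Set Edg) v0 w := hw2.mono (by
      rw [Finset.coe_union]; exact Set.subset_union_left)
    exact mem_clF.mpr ⟨reach_box hH hv0b hr, mem_cluster.mpr hr⟩

/-- Outside an explored cluster everything is small. -/
theorem small_out (hole : S_HOLE) {n s q k : ℕ} (hs : 1 ≤ s) (hk : k ≤ s) (hn : n < (q + 1) * s)
    (hkn : k ≤ n) {F G : Finset Edg} (hF : F ⊆ RE 0 (n : ℤ) 0 n \ RE 0 (k : ℤ) 0 k)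
    (hG : G ⊆ RE 0 (k : ℤ) 0 k) {Z : Finset Vtx} (hZ : IsCl Z (F ∪ G))
    (hE : ∀ t ∈ TB s q, Bl t.1 t.2 (F \ EZ (RE 0 (n : ℤ) 0 n \ RE 0 (k : ℤ) 0 k) Z))
    {x : Vtx} (hx : x ∈ bxV n) (hxZ : x ∉ Z) : ∀ y z, Reach (↑(F ∪ G) : Set Edg) x y →
      Reach (↑(F ∪ G) : Set Edg) x z → |y.1 - z.1| ≤ 30 * s ∧ |y.2 - z.2| ≤ 30 * s := by
  set S := RE 0 (n : ℤ) 0 n \ RE 0 (k : ℤ) 0 k with hS
  have hGn : RE 0 (k : ℤ) 0 k ⊆ RE 0 (n : ℤ) 0 n :=
    RE_subset le_rfl (by exact_mod_cast hkn) le_rfl (by exact_mod_cast hkn)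
  have hH : F ∪ G ⊆ RE 0 (n : ℤ) 0 n :=
    Finset.union_subset (hF.trans Finset.sdiff_subset) (hG.trans hGn)
  obtain ⟨t, ht, hin⟩ := TB_cover hs hn hx
  have hrad := TB_rad ht
  have key : ∀ y, Reach (↑(F ∪ G) : Set Edg) x y → ¬ Out t.1 (3 * t.2) y := by
    intro y hy
    have h1 := (reach_sdiff hH hZ hxZ).mp hy
    have h2 : (↑((F ∪ G) \ EZ (RE 0 (n : ℤ) 0 n) Z) : Set Edg) ⊆ ↑((F \ EZ S Z) ∪ G) := by
      intro e he
      rw [Finset.mem_coe, Finset.mem_sdiff, Finset.mem_union, mem_EZ] at he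
      rw [Finset.mem_coe, Finset.mem_union, Finset.mem_sdiff, mem_EZ]
      rcases he.1 with h | h
      · left
        refine ⟨h, fun h3 => he.2 ⟨(Finset.mem_sdiff.mp h3.1).1, h3.2⟩⟩
      · exact Or.inr h
    exact hole k t.1 t.2 (F \ EZ S Z) G (by omega) hG (TB_hole hk hs ht) (hE t ht) x y hin
      (h1.mono h2)
  intro y z hy hz
  have ky := key y hy
  have kz := key z hz
  have hr5 : (t.2 : ℤ) ≤ 5 * s := by exact_mod_cast hrad.2
  simp only [Out] at ky kz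
  push Not at ky kz
  constructor
  · rw [abs_le]
    constructor <;> linarith [ky.1, ky.2.1, kz.1, kz.2.1]
  · rw [abs_le]
    constructor <;> linarith [ky.2.2.1, ky.2.2.2, kz.2.2.1, kz.2.2.2]

end Pool.Agent.H99.SL
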